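import Pool.Agent.Lib.MP_a0d8b4_co.Moves

set_option autoImplicit false

namespace Pool.Agent.Lib.MP_a0d8b4_co

open Finset Equiv

namespace State

variable {V P : Type} [Fintype P] {B : Base V P} {c0 : ℕ} (T : State B c0)

theorem end_cycle {z : P} (hz : B.ι z = z) :
    ∃ z', B.ι z' = z' ∧ ¬ T.Thin z' ∧ T.f.SameCycle z z' := by
  induction hd : B.pos B.top - B.pos z using Nat.strong_induction_on generalizing z with
  | _ d ih =>
    by_cases ht : T.Thin z
    · obtain ⟨h1, h | ⟨u, w, w', a1, a2, a3, a4⟩⟩ := ht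
      · exact absurd hz h.1
      · have e1 : T.f z = B.e u w' := by
          have := congrArg B.ι a4
          rwa [B.ι_inv, B.ι_e _ _ a2] at this
        rw [a4, ← e1] at h1
        have := B.top_max (T.f z)
        obtain ⟨z', b1, b2, b3⟩ := ih _ (by omega) (z := T.f z) (by rw [e1, B.ι_e _ _ a2]) rfl
        exact ⟨z', b1, b2, Perm.sameCycle_apply_left.mp b3⟩
    · exact ⟨z, hz, ht, Perm.SameCycle.refl _ _⟩

open Classical in
theorem last_ends [Fintype V] :
    (univ.filter fun z => B.ι z = z ∧ ¬ T.Thin z).card ≤ Fintype.card V := by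
  have : ∀ z : {z // z ∈ univ.filter fun z => B.ι z = z ∧ ¬ T.Thin z},
      ∃ u w, u ≠ w ∧ z.1 = B.e u w := fun z => B.fix z.1 (mem_filter.mp z.2).2.1
  choose φ ψ h using this
  rw [← Fintype.card_coe]
  apply Fintype.card_le_of_injective φ
  intro z z' he
  apply Subtype.ext
  apply B.pos_inj
  have a := (mem_filter.mp z.2).2
  have a' := (mem_filter.mp z'.2).2
  by_contra hne
  rcases lt_or_gt_of_ne hne with hlt | hlt
  · apply a.2
    apply T.thin_end (h z).1 (he ▸ (h z').1) (T.fix_S _ a.1) (by rw [← (h z).2])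
    rw [he, ← (h z').2]; exact hlt
  · apply a'.2
    apply T.thin_end (h z').1 (he ▸ (h z).1) (T.fix_S _ a'.1) (by rw [← (h z').2])
    rw [← he, ← (h z).2]; exact hlt

open Classical in
theorem nonthin_le [Fintype V] (g : ℕ) (hc : c0 = 4 * g + (univ.filter fun z => B.ι z = z).card)
    (hm : ∀ p ∈ T.S, B.ι p ≠ p → T.f p ≠ p) :
    (T.S.filter fun z => ¬ T.Thin z).card + 1 ≤ 7 * Fintype.card V + 12 * g := by
  let w : P → ℕ := fun x => if x ∉ T.S then 6 else if B.ι x = x then (if T.Thin x then 0 else 6)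
    else if T.Thin x then 3 else 2
  have h1 : 6 * orbits T.f ≤ ∑ x, w x := by
    apply orbits_weight
    intro x
    by_cases hx : x ∈ T.S
    swap
    · exact ⟨{x}, by simp [Perm.SameCycle.refl], by simp [w, hx]⟩
    by_cases he : ∃ y, T.f.SameCycle x y ∧ B.ι y = y
    · obtain ⟨y, a, b⟩ := he
      obtain ⟨z, c1, c2, c3⟩ := T.end_cycle b
      exact ⟨{z}, by simpa using a.trans c3, by simp [w, T.fix_S z c1, c1, c2]⟩
    push Not at he
    have s1 : T.f.SameCycle x (T.f x) := Perm.sameCycle_apply_right.mpr (Perm.SameCycle.refl _ _)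
    have s2 : T.f.SameCycle x (T.f (T.f x)) := Perm.sameCycle_apply_right.mpr s1
    have n0 := he x (Perm.SameCycle.refl _ _)
    have n1 := he _ s1
    have n2 := he _ s2
    have m1 := T.f_mem hx
    have m2 := T.f_mem m1
    have d1 := hm x hx n0
    by_cases h2 : T.f (T.f x) = x
    · have t0 : T.Thin x := ⟨(T.succ_lt hx n0).1, Or.inl ⟨n0, n1, h2⟩⟩
      have t1 : T.Thin (T.f x) := ⟨(T.succ_lt m1 n1).1, Or.inl ⟨n1, n2, by rw [h2]⟩⟩
      refine ⟨{x, T.f x}, ?_, ?_⟩
      · simp [s1, Perm.SameCycle.refl]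
      · rw [sum_pair d1.symm]; simp [w, hx, m1, n0, n1, t0, t1]
    · have d2 := hm _ m1 n1
      have w2 : ∀ y ∈ T.S, B.ι y ≠ y → 2 ≤ w y := by
        intro y a b
        simp only [w, a, b, not_true, if_false]
        split_ifs <;> omega
      refine ⟨{x, T.f x, T.f (T.f x)}, ?_, ?_⟩
      · simp [s1, s2, Perm.SameCycle.refl]
      · rw [sum_insert (by simp [d1.symm, Ne.symm h2]), sum_pair d2.symm]
        have := w2 x hx n0; have := w2 _ m1 n1; have := w2 _ m2 n2
        omega
  have h2 : ∑ x, w x + 3 * (univ.filter fun z => B.ι z = z).card + 3 * T.S.card +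
      (T.S.filter fun z => ¬ T.Thin z).card ≤ 6 * Fintype.card P +
        7 * (univ.filter fun z => B.ι z = z ∧ ¬ T.Thin z).card := by
    have e1 : T.S.card = (univ.filter fun z => z ∈ T.S).card := by simp
    have e2 : (T.S.filter fun z => ¬ T.Thin z).card =
        (univ.filter fun z => z ∈ T.S ∧ ¬ T.Thin z).card := by
      congr 1; ext z; simp
    rw [e1, e2, ← card_univ, card_eq_sum_ones univ]
    simp only [card_filter, mul_sum, ← sum_add_distrib]
    apply sum_le_sum
    intro x _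
    by_cases a : x ∈ T.S <;> by_cases b : B.ι x = x <;> by_cases c : T.Thin x <;>
      simp [w, a, b, c]
    all_goals exact a (T.fix_S x b)
  have h3 := T.last_ends
  have h4 := T.euler
  omega

open Classical in
/-- the reduced model -/
noncomputable def toFM [Nontrivial V] (Ns : ℕ) (hN : (T.S.filter fun z => ¬ T.Thin z).card + 1 ≤ Ns)
    (hU : ∀ x, T.χ x ≠ x → T.sd (T.χ x) ≠ T.sd x) : FM V P Ns where
  pos := B.pos
  ι := B.ι
  χ := T.χ
  e := B.e
  lab := B.lab
  sd := fun x => T.sd x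
  rt := fun u => T.sd (B.e u (exists_ne u).choose)
  op := fun y => if h : ∃ a ∈ T.S, (T.sd a : ℤ) = y then T.sd (B.ι h.choose) else 0
  pos_inj := B.pos_inj
  ι_inv := B.ι_inv
  ι_e := B.ι_e
  fix := B.fix
  e_inj := B.e_inj
  lab_e := B.lab_e
  lab_ι := B.lab_ι
  lab_χ := T.lab_χ
  χ_inv := T.χ_inv
  act_e := fun u w h => T.act_fix _ (B.ι_e u w h)
  act_ι := T.act_ι
  nc := T.nc
  sd_mono := fun a b _ _ h => by exact_mod_cast T.sd_mono h
  sd_range := fun a _ => by
    have : T.sd a ≤ (T.S.filter fun z => ¬ T.Thin z).card := by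
      unfold sd
      apply card_le_card
      intro z hz
      simp only [mem_filter] at hz ⊢
      exact ⟨hz.1, hz.2.2⟩
    omega
  sd_ι := fun a ha => by
    have h : ∃ a' ∈ T.S, (T.sd a' : ℤ) = T.sd a := ⟨a, T.act_S a ha, rfl⟩
    rw [dif_pos h]
    exact_mod_cast T.sd_ι (T.act_S a ha) h.choose_spec.1 (by exact_mod_cast h.choose_spec.2.symm)
  sd_rev := fun a b ha hb he hn hlt => by
    rcases T.same_side (T.act_S a ha) (T.act_S b hb) hlt (by exact_mod_cast he) with
      ⟨u, w, w', a1, -, rfl, -⟩ | h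
    · exact absurd (B.ι_e _ _ a1) hn
    · exact h.2.2.1
  sd_e := fun u w h => by exact_mod_cast T.sd_block h (exists_ne u).choose_spec.symm
  sd_end := fun a u ha he => by
    have h0 := (exists_ne u).choose_spec.symm
    have he' : T.sd a = T.sd (B.e u (exists_ne u).choose) := by exact_mod_cast he
    have m := T.fix_S _ (B.ι_e _ _ h0)
    rcases lt_trichotomy (B.pos a) (B.pos (B.e u (exists_ne u).choose)) with h | h | h
    · rcases T.same_side (T.act_S a ha) m h he' with ⟨u', w, w', a1, a2, a3, a4⟩ | h'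
      · obtain ⟨rfl, -⟩ := B.e_inj _ _ _ _ h0 a2 a4
        exact ⟨w, a1, a3⟩
      · exact absurd (B.ι_e _ _ h0) h'.2.1
    · exact ⟨_, h0, B.pos_inj h⟩
    · rcases T.same_side m (T.act_S a ha) h he'.symm with ⟨u', w, w', a1, a2, a3, a4⟩ | h'
      · obtain ⟨rfl, -⟩ := B.e_inj _ _ _ _ h0 a1 a3
        exact ⟨w', a2, a4⟩
      · exact absurd (B.ι_e _ _ h0) h'.1
  noU := fun a ha h => hU a ha (by exact_mod_cast h)

open Classical in
include T in
theorem count [Fintype V] [DecidableEq V] (g : ℕ)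
    (hc : c0 = 4 * g + (univ.filter fun z => B.ι z = z).card)
    (k : ℕ) (hk : 2 ≤ k) (hkV : k + 1 ≤ Fintype.card V)
    (hmeet : ∀ u u' I I', Conv (fun w => (B.pos (B.e u w) : ℤ)) u I →
      Conv (fun w => (B.pos (B.e u' w) : ℤ)) u' I' → k ≤ I.card → k ≤ I'.card →
      ∃ w ∈ I, ∃ w' ∈ I', Adj u w u' w') :
    Fintype.card V * Fintype.card V - Fintype.card V ≤
      4 * k * (86 * Fintype.card V + 144 * g) := by
  have : Nontrivial V := Fintype.one_lt_card_iff_nontrivial.mp (by omega)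
  obtain ⟨T', h1, h2⟩ := T.exists_reduced
  have := (T'.toFM _ (T'.nonthin_le g hc h1) h2).count k hk hkV hmeet
  refine this.trans (le_of_eq ?_)
  ring

end State

end Pool.Agent.Lib.MP_a0d8b4_co
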