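import Mathlib

set_option autoImplicit false

namespace Pool.Agent.Lib.MP_a0d8b4_co

/-- The number of cycles (orbits, fixed points included) of a permutation. -/
noncomputable def orbits {D : Type} (f : Equiv.Perm D) : ℕ :=
  Nat.card (Quotient (Equiv.Perm.SameCycle.setoid f))

/-- A complete rotation system of size `n`: at each vertex `u` a cyclic permutation of the other
vertices. -/
structure RotSys (n : ℕ) where
  rot : Fin n → Equiv.Perm (Fin n)
  cyc : ∀ u, (rot u).IsCycleOn {w | w ≠ u}

/-- A simple drawing of `K_n` in the orientable surface of genus `g` inducing the rotation system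
`R`, described by the combinatorial map of its planarization. The darts are `Fin m`, `σ` is the
rotation around the points of the drawing (vertices of `K_n` and crossing points), `α` exchanges
the two darts of a segment, `opp` goes straight through a crossing point, `start u w` is the dart
of the edge `uw` at the vertex `u`. The darts of one edge of `K_n` form one cycle of `opp * α`. -/
structure Drawing {n : ℕ} (R : RotSys n) (g : ℕ) where
  m : ℕ
  σ : Equiv.Perm (Fin m)
  α : Equiv.Perm (Fin m)
  opp : Equiv.Perm (Fin m)
  start : Fin n → Fin n → Fin m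
  α_inv : ∀ d, α (α d) = d
  α_ne : ∀ d, α d ≠ d
  start_inj : ∀ u w u' w', u ≠ w → u' ≠ w' → start u w = start u' w' → u = u' ∧ w = w'
  σ_start : ∀ u w, u ≠ w → σ (start u w) = start u (R.rot u w)
  opp_start : ∀ u w, u ≠ w → opp (start u w) = start u w
  opp_cross : ∀ d, (∀ u w, u ≠ w → d ≠ start u w) →
    ∃ j, 2 ≤ j ∧ Function.minimalPeriod σ d = 2 * j ∧ opp d = (σ ^ j) d
  edge_iff : ∀ u w u' w', u ≠ w → u' ≠ w' →
    ((opp * α).SameCycle (start u w) (start u' w') ↔ s(u, w) = s(u', w'))
  cover : ∀ d, ∃ u w, u ≠ w ∧ (opp * α).SameCycle d (start u w)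
  arc : ∀ d d', σ.SameCycle d d' → (opp * α).SameCycle d d' → d' = d ∨ d' = opp d
  once : ∀ a b a' b', σ.SameCycle a b → σ.SameCycle a' b' → (opp * α).SameCycle a a' →
    (opp * α).SameCycle b b' → ¬ (opp * α).SameCycle a b → σ.SameCycle a a'
  euler : m + 4 ≤ 2 * orbits σ + 2 * orbits (σ * α) + 4 * g

end Pool.Agent.Lib.MP_a0d8b4_co
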