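import Pool.Agent.Lib.MP_a0d8b4_co.Join

set_option autoImplicit false

namespace Pool.Agent.Lib.MP_a0d8b4_co

open Finset Equiv

theorem exists_cycle_pos {X : Type} [Fintype X] (f : Perm X) (x : X) :
    ∃ (C : Finset X) (loc : X → ℕ), (∀ y, y ∈ C ↔ f.SameCycle x y) ∧ Set.InjOn loc C ∧
      ∀ y ∈ C, Succ C loc y (f y) := by
  classical
  let loc : X → ℕ := fun y => if h : ∃ i : ℕ, f^[i] x = y then Nat.find h else 0
  have hper : x ∈ Function.periodicPts f := f.injective.mem_periodicPts x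
  have hN := Function.minimalPeriod_pos_of_mem_periodicPts hper
  have h1 : ∀ i, i < Function.minimalPeriod f x → loc (f^[i] x) = i := by
    intro i hi
    have h : ∃ j : ℕ, f^[j] x = f^[i] x := ⟨i, rfl⟩
    simp only [loc, dif_pos h]
    have := Nat.find_min' h (rfl : f^[i] x = f^[i] x)
    exact Function.iterate_injOn_Iio_minimalPeriod (lt_of_le_of_lt this hi) hi (Nat.find_spec h)
  have h2 : ∀ y, f.SameCycle x y → ∃ i, i < Function.minimalPeriod f x ∧ y = f^[i] x := by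
    intro y hy
    obtain ⟨i, rfl⟩ := hy.exists_nat_pow_eq
    exact ⟨i % Function.minimalPeriod f x, Nat.mod_lt _ hN, by
      rw [Function.iterate_mod_minimalPeriod_eq, Perm.iterate_eq_pow]⟩
  refine ⟨univ.filter fun y => f.SameCycle x y, loc, by simp, fun a ha b hb he => ?_, fun y hy => ?_⟩
  · obtain ⟨i, hi, rfl⟩ := h2 a (by simpa using ha)
    obtain ⟨j, hj, rfl⟩ := h2 b (by simpa using hb)
    rw [h1 i hi, h1 j hj] at he
    rw [he]
  · have hy' : f.SameCycle x y := by simpa using hy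
    refine ⟨by simpa using hy', ?_⟩
    obtain ⟨i, hi, rfl⟩ := h2 y hy'
    rw [← Function.iterate_succ_apply' f, h1 i hi]
    by_cases h : i + 1 < Function.minimalPeriod f x
    · rw [h1 _ h]
      exact Or.inl ⟨by omega, fun z _ => by omega⟩
    · have e : i.succ = Function.minimalPeriod f x := by omega
      rw [e, Function.iterate_minimalPeriod]
      have := h1 0 hN
      simp only [Function.iterate_zero, id] at this
      refine Or.inr ⟨fun z hz => ?_, fun z _ => by omega⟩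
      obtain ⟨j, hj, rfl⟩ := h2 z (by simpa using hz)
      rw [h1 j hj]; omega

theorem mem_of_sameCycle {X : Type} [Finite X] {f : Perm X} {U : Set X} (h : ∀ x ∈ U, f x ∈ U)
    {x y : X} (hx : x ∈ U) (hc : f.SameCycle x y) : y ∈ U := by
  obtain ⟨i, rfl⟩ := hc.exists_nat_pow_eq
  clear hc
  induction i with
  | zero => simpa using hx
  | succ i ih => rw [pow_succ', Perm.mul_apply]; exact h _ ih

theorem RotSys.rot_ne {n : ℕ} (R : RotSys n) {u w : Fin n} (h : u ≠ w) : u ≠ R.rot u w :=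
  ((R.cyc u).1.mapsTo h.symm).symm

theorem RotSys.rot_inv_ne {n : ℕ} (R : RotSys n) {u w : Fin n} (h : u ≠ w) :
    u ≠ (R.rot u)⁻¹ w := by
  obtain ⟨x, hx, rfl⟩ := (R.cyc u).1.surjOn h.symm
  simpa using (show x ≠ u from hx).symm

namespace Drawing

variable {n g : ℕ} {R : RotSys n} (T : Drawing R g)

/-- darts at vertices of the complete graph -/
def Real (d : Fin T.m) : Prop := ∃ u w, u ≠ w ∧ d = T.start u w

theorem real_σ {d : Fin T.m} (h : T.Real d) : T.Real (T.σ d) := by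
  obtain ⟨u, w, h, rfl⟩ := h
  exact ⟨u, _, R.rot_ne h, T.σ_start u w h⟩

theorem real_cycle {d d' : Fin T.m} (h : T.Real d) (hc : T.σ.SameCycle d d') : T.Real d' :=
  mem_of_sameCycle (U := {d | T.Real d}) (fun _ h => T.real_σ h) h hc

theorem start_cycle {u w w' : Fin n} (h : u ≠ w) (h' : u ≠ w') :
    T.σ.SameCycle (T.start u w) (T.start u w') := by
  have := (R.cyc u).2 h.symm h'.symm
  refine (mem_of_sameCycle (U := {x | u ≠ x ∧ T.σ.SameCycle (T.start u w) (T.start u x)})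
    (fun x hx => ⟨R.rot_ne hx.1, ?_⟩) ⟨h, Perm.SameCycle.refl _ _⟩ this).2
  rw [← T.σ_start u x hx.1]
  exact Perm.sameCycle_apply_right.mpr hx.2

theorem opp_cycle (d : Fin T.m) : T.σ.SameCycle d (T.opp d) := by
  by_cases h : T.Real d
  · obtain ⟨u, w, h, rfl⟩ := h
    rw [T.opp_start u w h]
  · obtain ⟨j, -, -, e⟩ := T.opp_cross d fun u w a b => h ⟨u, w, a, b⟩
    exact ⟨j, by rw [e]; simp⟩

theorem opp_not_real {d : Fin T.m} (h : ¬ T.Real d) : ¬ T.Real (T.opp d) :=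
  fun h' => h (T.real_cycle h' (T.opp_cycle d).symm)

theorem opp_opp {d : Fin T.m} (h : ¬ T.Real d) : T.opp (T.opp d) = d := by
  obtain ⟨j, -, e1, e2⟩ := T.opp_cross d fun u w a b => h ⟨u, w, a, b⟩
  obtain ⟨j', -, e3, e4⟩ := T.opp_cross (T.opp d) fun u w a b => T.opp_not_real h ⟨u, w, a, b⟩
  have hper : d ∈ Function.periodicPts T.σ := T.σ.injective.mem_periodicPts d
  rw [e2, ← Perm.iterate_eq_pow, Function.minimalPeriod_apply_iterate hper, e1] at e3
  obtain rfl : j = j' := by omega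
  rw [e4, e2, ← Perm.mul_apply, ← pow_add, ← two_mul, ← e1, ← Perm.iterate_eq_pow,
    Function.iterate_minimalPeriod]

theorem opp_ne {d : Fin T.m} (h : ¬ T.Real d) : T.opp d ≠ d := by
  obtain ⟨j, e0, e1, e2⟩ := T.opp_cross d fun u w a b => h ⟨u, w, a, b⟩
  intro e
  rw [e2, ← Perm.iterate_eq_pow] at e
  have := Function.IsPeriodicPt.minimalPeriod_le (by omega : 0 < j) e
  omega

/-- the edge of the complete graph containing a dart -/
noncomputable def lab (d : Fin T.m) : Sym2 (Fin n) :=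
  s((T.cover d).choose, (T.cover d).choose_spec.choose)

theorem lab_spec {d : Fin T.m} {u w : Fin n} (h : u ≠ w)
    (hc : (T.opp * T.α).SameCycle d (T.start u w)) : T.lab d = s(u, w) := by
  have := (T.cover d).choose_spec.choose_spec
  exact (T.edge_iff _ _ _ _ this.1 h).mp (this.2.symm.trans hc)

theorem lab_eq {d d' : Fin T.m} (hc : (T.opp * T.α).SameCycle d d') : T.lab d = T.lab d' := by
  obtain ⟨u, w, h, e⟩ := T.cover d'
  rw [T.lab_spec h e, T.lab_spec h (hc.trans e)]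

theorem lab_mem {d : Fin T.m} {v : Fin n} (h : v ∈ T.lab d) :
    ∃ x, v ≠ x ∧ (T.opp * T.α).SameCycle d (T.start v x) := by
  obtain ⟨u, w, a, e⟩ := T.cover d
  rw [T.lab_spec a e, Sym2.mem_iff] at h
  rcases h with rfl | rfl
  · exact ⟨w, a, e⟩
  · exact ⟨u, a.symm, e.trans ((T.edge_iff _ _ _ _ a a.symm).mpr Sym2.eq_swap)⟩

theorem τ_cycle_aux (d : Fin T.m) (i : ℕ) :
    T.opp (((T.opp * T.α) ^ i) (T.opp (((T.opp * T.α) ^ i) d))) = d := by
  have oo : ∀ x, T.opp (T.opp x) = x := by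
    intro x
    by_cases h : T.Real x
    · obtain ⟨u, w, h, rfl⟩ := h
      rw [T.opp_start u w h, T.opp_start u w h]
    · exact T.opp_opp h
  induction i generalizing d with
  | zero => simpa using oo d
  | succ i ih =>
    conv_lhs => rw [pow_succ, Perm.mul_apply, ← pow_succ, pow_succ', Perm.mul_apply, Perm.mul_apply,
      Perm.mul_apply, oo, T.α_inv]
    exact ih d

theorem τ_cycle_opp (d : Fin T.m) : (T.opp * T.α).SameCycle d (T.opp d) := by
  obtain ⟨u, w, h, e⟩ := T.cover d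
  obtain ⟨i, rfl⟩ := e.symm.exists_nat_pow_eq
  have h1 := T.τ_cycle_aux (T.start u w) i
  have h2 : ((T.opp * T.α) ^ i) (T.opp (((T.opp * T.α) ^ i) (T.start u w))) = T.start u w := by
    apply T.opp.injective
    rw [h1, T.opp_start u w h]
  exact e.trans (Perm.SameCycle.symm ⟨i, by simpa using h2⟩)

theorem τ_cycle_α (d : Fin T.m) : (T.opp * T.α).SameCycle d (T.α d) :=
  (Perm.sameCycle_apply_right.mpr (Perm.SameCycle.refl _ d)).trans (T.τ_cycle_opp (T.α d)).symm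

/-- points of the polygon model -/
abbrev Pt := Fin T.m ⊕ {p : Fin n × Fin n // p.1 ≠ p.2}

/-- ends -/
def e (u w : Fin n) : T.Pt := if h : u ≠ w then Sum.inr ⟨(u, w), h⟩ else Sum.inl (T.start u w)

theorem e_eq {u w : Fin n} (h : u ≠ w) : T.e u w = Sum.inr ⟨(u, w), h⟩ := dif_pos h

open Classical in
/-- chords -/
noncomputable def χ : T.Pt → T.Pt
  | Sum.inl d => if h : T.Real d then T.e h.choose h.choose_spec.choose else Sum.inl (T.opp d)
  | Sum.inr p => Sum.inl (T.start p.1.1 p.1.2)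

theorem χ_start {u w : Fin n} (h : u ≠ w) : T.χ (Sum.inl (T.start u w)) = T.e u w := by
  have hr : T.Real (T.start u w) := ⟨u, w, h, rfl⟩
  have := hr.choose_spec.choose_spec
  obtain ⟨e1, e2⟩ := T.start_inj _ _ _ _ h this.1 this.2
  simp only [χ, dif_pos hr]
  rw [← e2, ← e1]

theorem χ_e {u w : Fin n} (h : u ≠ w) : T.χ (T.e u w) = Sum.inl (T.start u w) := by
  rw [T.e_eq h]; rfl

theorem χ_cross {d : Fin T.m} (h : ¬ T.Real d) : T.χ (Sum.inl d) = Sum.inl (T.opp d) := by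
  simp only [χ, dif_neg h]

theorem pt_cases (x : T.Pt) : (∃ d, ¬ T.Real d ∧ x = Sum.inl d) ∨
    (∃ u w, u ≠ w ∧ x = Sum.inl (T.start u w)) ∨ ∃ u w, u ≠ w ∧ x = T.e u w := by
  rcases x with d | ⟨⟨u, w⟩, h⟩
  · by_cases h : T.Real d
    · obtain ⟨u, w, h, rfl⟩ := h
      exact Or.inr (Or.inl ⟨u, w, h, rfl⟩)
    · exact Or.inl ⟨d, h, rfl⟩
  · exact Or.inr (Or.inr ⟨u, w, h, (T.e_eq h).symm⟩)

/-- labels of points -/
noncomputable def labP : T.Pt → Sym2 (Fin n)
  | Sum.inl d => T.lab d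
  | Sum.inr p => s(p.1.1, p.1.2)

theorem labP_e {u w : Fin n} (h : u ≠ w) : T.labP (T.e u w) = s(u, w) := by
  rw [T.e_eq h]; rfl

theorem e_inj {u w u' w' : Fin n} (h : u ≠ w) (h' : u' ≠ w') (he : T.e u w = T.e u' w') :
    u = u' ∧ w = w' := by
  rw [T.e_eq h, T.e_eq h'] at he
  simpa using he

theorem e_ne {u w : Fin n} (h : u ≠ w) (d : Fin T.m) : T.e u w ≠ Sum.inl d := by
  rw [T.e_eq h]; simp

theorem exists_σ0 (fst lst : Fin n → Fin n) (h1 : ∀ u, u ≠ fst u) (h2 : ∀ u, u ≠ lst u)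
    (h3 : ∀ u, R.rot u (lst u) = fst u) : ∃ σ0 : Perm T.Pt,
    (∀ d, (∀ u, d ≠ T.start u (lst u)) → σ0 (Sum.inl d) = Sum.inl (T.σ d)) ∧
    (∀ u, σ0 (Sum.inl (T.start u (lst u))) = T.e u (lst u)) ∧
    (∀ u w, u ≠ w → w ≠ fst u → σ0 (T.e u w) = T.e u ((R.rot u)⁻¹ w)) ∧
    (∀ u, σ0 (T.e u (fst u)) = Sum.inl (T.start u (fst u))) := by
  classical
  let ρ : Perm {p : Fin n × Fin n // p.1 ≠ p.2} :=
    { toFun := fun p => ⟨(p.1.1, (R.rot p.1.1)⁻¹ p.1.2), R.rot_inv_ne p.2⟩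
      invFun := fun p => ⟨(p.1.1, R.rot p.1.1 p.1.2), R.rot_ne p.2⟩
      left_inv := fun p => by simp
      right_inv := fun p => by simp }
  let κ : T.Pt → T.Pt := fun x => match x with
    | Sum.inl d => if h : ∃ u, d = T.start u (lst u) then T.e h.choose (fst h.choose) else Sum.inl d
    | Sum.inr p => if p.1.2 = fst p.1.1 then Sum.inl (T.start p.1.1 (lst p.1.1)) else Sum.inr p
  have k1 : ∀ d, (∀ u, d ≠ T.start u (lst u)) → κ (Sum.inl d) = Sum.inl d := by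
    intro d hd
    have : ¬ ∃ u, d = T.start u (lst u) := fun ⟨u, h⟩ => hd u h
    simp only [κ, dif_neg this]
  have k2 : ∀ u, κ (Sum.inl (T.start u (lst u))) = T.e u (fst u) := by
    intro u
    have h : ∃ u', T.start u (lst u) = T.start u' (lst u') := ⟨u, rfl⟩
    have := (T.start_inj _ _ _ _ (h2 _) (h2 _) h.choose_spec).1
    simp only [κ, dif_pos h]
    rw [← this]
  have k3 : ∀ u w, u ≠ w → w ≠ fst u → κ (T.e u w) = T.e u w := by
    intro u w a b
    rw [T.e_eq a]; simp only [κ, if_neg b]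
  have k4 : ∀ u, κ (T.e u (fst u)) = Sum.inl (T.start u (lst u)) := by
    intro u
    rw [T.e_eq (h1 u)]; simp only [κ, if_true]
  have hκ : Function.Involutive κ := by
    rintro (d | ⟨⟨u, w⟩, h⟩)
    · by_cases hd : ∃ u, d = T.start u (lst u)
      · obtain ⟨u, rfl⟩ := hd
        rw [k2, k4]
      · push Not at hd
        rw [k1 d hd, k1 d hd]
    · rw [← T.e_eq h]
      by_cases hw : w = fst u
      · rw [hw, k4, k2]
      · rw [k3 u w h hw, k3 u w h hw]
  have r1 : ∀ u w, u ≠ w → Equiv.sumCongr T.σ ρ (T.e u w) = T.e u ((R.rot u)⁻¹ w) := by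
    intro u w h
    rw [T.e_eq h, T.e_eq (R.rot_inv_ne h)]; rfl
  refine ⟨Equiv.sumCongr T.σ ρ * hκ.toPerm, fun d hd => ?_, fun u => ?_, fun u w a b => ?_,
    fun u => ?_⟩
  · rw [Perm.mul_apply, Function.Involutive.coe_toPerm, k1 d hd]; rfl
  · rw [Perm.mul_apply, Function.Involutive.coe_toPerm, k2, r1 _ _ (h1 u), ← h3]; simp
  · rw [Perm.mul_apply, Function.Involutive.coe_toPerm, k3 u w a b, r1 _ _ a]
  · rw [Perm.mul_apply, Function.Involutive.coe_toPerm, k4, ← h3, ← T.σ_start _ _ (h2 u)]; rfl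

/-- the data before joining -/
noncomputable def pre (σ0 : Perm T.Pt) (key : Fin n → Fin n → ℕ) : Pre (Fin n) T.Pt where
  σ := σ0
  ι := Equiv.sumCongr T.α (Equiv.refl _)
  χ := T.χ
  e := T.e
  lab := T.labP
  key := key
  ι_inv := by rintro (d | p) <;> simp [T.α_inv]
  ι_e := fun u w h => by rw [T.e_eq h]; rfl
  χ_inv := fun x => by
    rcases T.pt_cases x with ⟨d, h, rfl⟩ | ⟨u, w, h, rfl⟩ | ⟨u, w, h, rfl⟩
    · rw [T.χ_cross h, T.χ_cross (T.opp_not_real h), T.opp_opp h]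
    · rw [T.χ_start h, T.χ_e h]
    · rw [T.χ_e h, T.χ_start h]
  lab_χ := fun x => by
    rcases T.pt_cases x with ⟨d, h, rfl⟩ | ⟨u, w, h, rfl⟩ | ⟨u, w, h, rfl⟩
    · rw [T.χ_cross h]; exact (T.lab_eq (T.τ_cycle_opp d)).symm
    · rw [T.χ_start h, T.labP_e h]; exact (T.lab_spec h (Perm.SameCycle.refl _ _)).symm
    · rw [T.χ_e h, T.labP_e h]; exact T.lab_spec h (Perm.SameCycle.refl _ _)

theorem cross_poly (σ0 : Perm T.Pt) (key : Fin n → Fin n → ℕ)
    (E1 : ∀ d, ¬ T.Real d → σ0 (Sum.inl d) = Sum.inl (T.σ d)) {d : Fin T.m} (hd : ¬ T.Real d) :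
    ∃ C loc, Sum.inl d ∈ C ∧ (T.pre σ0 key).Good C loc ∧ ∀ x ∈ C, Succ C loc x (σ0 x) := by
  obtain ⟨C, loc, h1, h2, h3⟩ := exists_cycle_pos σ0 (Sum.inl d)
  have hd' : Sum.inl d ∈ C := (h1 _).mpr (Perm.SameCycle.refl _ _)
  have a1 : ∀ x ∈ C, ∃ d', x = Sum.inl d' ∧ T.σ.SameCycle d d' := by
    intro x hx
    refine mem_of_sameCycle (U := {x | ∃ d', x = Sum.inl d' ∧ T.σ.SameCycle d d'}) ?_
      ⟨d, rfl, Perm.SameCycle.refl _ _⟩ ((h1 x).mp hx)
    rintro y ⟨d', rfl, hc⟩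
    exact ⟨_, E1 d' fun h => hd (T.real_cycle h hc.symm), Perm.sameCycle_apply_right.mpr hc⟩
  have a2 : ∀ d', T.σ.SameCycle d d' → Sum.inl d' ∈ C := by
    intro d' hc
    refine (mem_of_sameCycle (U := {d' | T.σ.SameCycle d d' ∧ Sum.inl d' ∈ C}) ?_
      ⟨Perm.SameCycle.refl _ _, hd'⟩ hc).2
    rintro y ⟨b1, b2⟩
    refine ⟨Perm.sameCycle_apply_right.mpr b1, ?_⟩
    rw [← E1 y fun h => hd (T.real_cycle h b1.symm)]
    exact (h3 _ b2).1
  have a3 : ∀ u w, u ≠ w → T.e u w ∉ C := fun u w h hc => by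
    obtain ⟨d', e, -⟩ := a1 _ hc
    exact T.e_ne h d' e
  refine ⟨C, loc, hd', ⟨h2, fun a ha c hc hadj hh => ?_, fun a ha => ?_,
    fun u w _ h _ hc => absurd hc (a3 u w h), fun u w _ h _ hc => absurd hc (a3 u w h),
    fun u w _ h _ hc => absurd hc (a3 u w h)⟩, h3⟩
  · obtain ⟨a', rfl, b1⟩ := a1 a ha
    obtain ⟨c', rfl, b2⟩ := a1 c hc
    have na : ¬ T.Real a' := fun h => hd (T.real_cycle h b1.symm)
    by_cases hτ : (T.opp * T.α).SameCycle a' c'
    · simp only [pre] at hh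
      rw [T.χ_cross na] at hh
      rcases T.arc a' c' (b1.symm.trans b2) hτ with rfl | rfl <;> omega
    · obtain ⟨v, v1, v2⟩ := hadj
      obtain ⟨x, x1, x2⟩ := T.lab_mem v1
      obtain ⟨y, y1, y2⟩ := T.lab_mem v2
      exact na (T.real_cycle ⟨v, x, x1, rfl⟩
        (T.once a' c' _ _ (b1.symm.trans b2) (T.start_cycle x1 y1) x2 y2 hτ).symm)
  · obtain ⟨a', rfl, b1⟩ := a1 a ha
    have na : ¬ T.Real a' := fun h => hd (T.real_cycle h b1.symm)
    simp only [pre]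
    rw [T.χ_cross na]
    exact a2 _ (b1.trans (T.opp_cycle a'))

theorem real_poly (σ0 : Perm T.Pt) (key : Fin n → Fin n → ℕ) (fst lst : Fin n → Fin n)
    (hinj : ∀ u, Set.InjOn (key u) (univ.erase u : Finset (Fin n)))
    (hs : ∀ u w, u ≠ w → Succ (univ.erase u) (key u) w (R.rot u w))
    (h1 : ∀ u, u ≠ fst u) (h2 : ∀ u, u ≠ lst u)
    (hf : ∀ u w, u ≠ w → key u (fst u) ≤ key u w) (hl : ∀ u w, u ≠ w → key u w ≤ key u (lst u))
    (E1 : ∀ d, (∀ u, d ≠ T.start u (lst u)) → σ0 (Sum.inl d) = Sum.inl (T.σ d))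
    (E2 : ∀ u, σ0 (Sum.inl (T.start u (lst u))) = T.e u (lst u))
    (E3 : ∀ u w, u ≠ w → w ≠ fst u → σ0 (T.e u w) = T.e u ((R.rot u)⁻¹ w))
    (E4 : ∀ u, σ0 (T.e u (fst u)) = Sum.inl (T.start u (fst u))) (u : Fin n) :
    ∃ C loc, (∀ x, x ∈ C ↔ ∃ w, u ≠ w ∧ (x = Sum.inl (T.start u w) ∨ x = T.e u w)) ∧
      (T.pre σ0 key).Good C loc ∧ (∀ x ∈ C, Succ C loc x (σ0 x)) ∧
      ∀ z ∈ C, loc z ≤ loc (T.e u (fst u)) := by
  classical
  let K := key u (lst u) + 1
  let loc : T.Pt → ℕ := fun x => match x with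
    | Sum.inl d => if h : ∃ w, u ≠ w ∧ d = T.start u w then key u h.choose else 0
    | Sum.inr p => 2 * K - key u p.1.2
  have l1 : ∀ w, u ≠ w → loc (Sum.inl (T.start u w)) = key u w := by
    intro w hw
    have h : ∃ w', u ≠ w' ∧ T.start u w = T.start u w' := ⟨w, hw, rfl⟩
    have := (T.start_inj _ _ _ _ hw h.choose_spec.1 h.choose_spec.2).2
    simp only [loc, dif_pos h]
    rw [← this]
  have l2 : ∀ w, u ≠ w → loc (T.e u w) = 2 * K - key u w := by
    intro w hw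
    rw [T.e_eq hw]
  have hK : ∀ w, u ≠ w → key u w < K := fun w hw => Nat.lt_succ_of_le (hl u w hw)
  have hi : ∀ w w', u ≠ w → u ≠ w' → key u w = key u w' → w = w' := fun w w' a b =>
    hinj u (by simp [a.symm]) (by simp [b.symm])
  let C := univ.filter fun x : T.Pt => ∃ w, u ≠ w ∧ (x = Sum.inl (T.start u w) ∨ x = T.e u w)
  have hC : ∀ x, x ∈ C ↔ ∃ w, u ≠ w ∧ (x = Sum.inl (T.start u w) ∨ x = T.e u w) := by simp [C]
  have own : ∀ u' w, u' ≠ w → T.e u' w ∈ C → u' = u := by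
    intro u' w a b
    obtain ⟨w', c, d | d⟩ := (hC _).mp b
    · exact absurd d (T.e_ne a _)
    · exact (T.e_inj a c d).1
  refine ⟨C, loc, hC, ⟨fun a ha c hc he => ?_, fun a ha c hc _ => ?_, fun a ha => ?_,
    fun u' w w' a b c => ?_, fun u' w w' a b c x hx d1 d2 => ?_, fun u' w w' a b c hk => ?_⟩,
    fun x hx => ?_, fun z hz => ?_⟩
  · obtain ⟨w, a1, rfl | rfl⟩ := (hC _).mp ha <;> obtain ⟨w', c1, rfl | rfl⟩ := (hC _).mp hc <;>
      simp only [l1 _ a1, l2 _ a1, l1 _ c1, l2 _ c1] at he <;> have := hK _ a1 <;> have := hK _ c1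
    · rw [hi w w' a1 c1 he]
    · omega
    · omega
    · rw [hi w w' a1 c1 (by omega)]
  · obtain ⟨w, a1, rfl | rfl⟩ := (hC _).mp ha <;> obtain ⟨w', c1, rfl | rfl⟩ := (hC _).mp hc <;>
      simp only [pre, T.χ_start a1, T.χ_start c1, T.χ_e a1, T.χ_e c1, l1 _ a1, l2 _ a1, l1 _ c1,
        l2 _ c1] <;> have := hK _ a1 <;> have := hK _ c1 <;> omega
  · obtain ⟨w, a1, rfl | rfl⟩ := (hC _).mp ha
    · exact (hC _).mpr ⟨w, a1, Or.inr (T.χ_start a1)⟩
    · exact (hC _).mpr ⟨w, a1, Or.inl (T.χ_e a1)⟩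
  · obtain rfl := own u' w a c
    exact (hC _).mpr ⟨w', b, Or.inr rfl⟩
  · obtain rfl := own u' w a c
    obtain ⟨y, a1, rfl | rfl⟩ := (hC _).mp hx
    · simp only [pre, l2 _ a, l1 _ a1] at d1
      have := hK _ a1; have := hK _ a; omega
    · exact ⟨y, a1, rfl⟩
  · obtain rfl := own u' w a c
    simp only [pre, l2 _ a, l2 _ b] at hk ⊢
    have := hK _ b; omega
  · obtain ⟨w, a1, rfl | rfl⟩ := (hC _).mp hx
    · by_cases hw : w = lst u
      · subst hw
        rw [E2]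
        refine ⟨(hC _).mpr ⟨_, a1, Or.inr rfl⟩, Or.inl ⟨?_, fun z hz => ?_⟩⟩
        · rw [l1 _ a1, l2 _ a1]; omega
        · obtain ⟨y, b1, rfl | rfl⟩ := (hC _).mp hz <;>
            simp only [l1 _ a1, l2 _ a1, l1 _ b1, l2 _ b1] <;> have := hK _ b1 <;> omega
      · rw [E1 _ fun u' e => hw (by
          obtain ⟨rfl, e'⟩ := T.start_inj _ _ _ _ a1 (h2 u') e; exact e'), T.σ_start _ _ a1]
        have a2 := R.rot_ne a1
        refine ⟨(hC _).mpr ⟨_, a2, Or.inl rfl⟩, Or.inl ?_⟩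
        rcases (hs u w a1).2 with hh | hh
        · refine ⟨by rw [l1 _ a1, l1 _ a2]; exact hh.1, fun z hz => ?_⟩
          obtain ⟨y, b1, rfl | rfl⟩ := (hC _).mp hz <;>
            simp only [l1 _ a1, l1 _ a2, l1 _ b1, l2 _ b1]
          · exact hh.2 y (by simp [b1.symm])
          · have := hK _ b1; have := hK _ a2; omega
        · exact absurd (hi _ _ a1 (h2 u) (le_antisymm (hl u w a1) (hh.1 _ (by simp [(h2 u).symm])))) hw
    · by_cases hw : w = fst u
      · subst hw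
        rw [E4]
        refine ⟨(hC _).mpr ⟨_, a1, Or.inl rfl⟩, Or.inr ⟨fun z hz => ?_, fun z hz => ?_⟩⟩ <;>
          obtain ⟨y, b1, rfl | rfl⟩ := (hC _).mp hz <;>
            simp only [l1 _ a1, l2 _ a1, l1 _ b1, l2 _ b1] <;> have := hK _ b1 <;>
            have := hK _ a1 <;> have := hf _ _ b1 <;> omega
      · rw [E3 _ _ a1 hw]
        have a2 := R.rot_inv_ne a1
        refine ⟨(hC _).mpr ⟨_, a2, Or.inr rfl⟩, Or.inl ?_⟩
        have := hK _ a1; have := hK _ a2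
        have hs' := hs u _ a2
        rw [show R.rot u ((R.rot u)⁻¹ w) = w by simp] at hs'
        rcases hs'.2 with hh | hh
        · refine ⟨by rw [l2 _ a1, l2 _ a2]; omega, fun z hz => ?_⟩
          obtain ⟨y, b1, rfl | rfl⟩ := (hC _).mp hz <;>
            simp only [l2 _ a1, l2 _ a2, l1 _ b1, l2 _ b1] <;> have := hK _ b1
          · omega
          · have := hh.2 y (by simp [b1.symm]); omega
        · exact absurd (hi _ _ a1 (h1 u) (le_antisymm (hh.2 _ (by simp [(h1 u).symm])) (hf u w a1))) hw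
  · obtain ⟨y, b1, rfl | rfl⟩ := (hC _).mp hz <;>
      simp only [l2 _ (h1 u), l1 _ b1, l2 _ b1] <;> have := hK _ b1 <;>
      have := hK _ (h1 u) <;> have := hf _ _ b1 <;> omega

end Drawing

end Pool.Agent.Lib.MP_a0d8b4_co
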