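import Pool.Agent.Lib.MP_a0d8b4_co.Count

set_option autoImplicit false

namespace Pool.Agent.Lib.MP_a0d8b4_co

open Finset Equiv

/-- data before the polygons are joined -/
structure Pre (V P : Type) where
  σ : Perm P
  ι : Perm P
  χ : P → P
  e : V → V → P
  lab : P → Sym2 V
  key : V → V → ℕ
  ι_inv : ∀ x, ι (ι x) = x
  ι_e : ∀ u w, u ≠ w → ι (e u w) = e u w
  χ_inv : ∀ x, χ (χ x) = x
  lab_χ : ∀ x, lab (χ x) = lab x

namespace Pre

variable {V P : Type} (Q : Pre V P)

/-- a good linear order on a union of polygons -/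
structure Good (U : Finset P) (pos : P → ℕ) : Prop where
  inj : Set.InjOn pos U
  nc : ∀ a ∈ U, ∀ c ∈ U, (∃ v, v ∈ Q.lab a ∧ v ∈ Q.lab c) →
    ¬ (pos a < pos c ∧ pos c < pos (Q.χ a) ∧ pos (Q.χ a) < pos (Q.χ c))
  χ_mem : ∀ a ∈ U, Q.χ a ∈ U
  e_mem : ∀ u w w', u ≠ w → u ≠ w' → Q.e u w ∈ U → Q.e u w' ∈ U
  block : ∀ u w w', u ≠ w → u ≠ w' → Q.e u w ∈ U → ∀ x ∈ U, pos (Q.e u w) < pos x →
    pos x < pos (Q.e u w') → ∃ w'', u ≠ w'' ∧ x = Q.e u w''
  ord : ∀ u w w', u ≠ w → u ≠ w' → Q.e u w ∈ U → Q.key u w < Q.key u w' →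
    pos (Q.e u w') < pos (Q.e u w)

theorem rotate {C : Finset P} {loc : P → ℕ} (h : Q.Good C loc)
    (hs : ∀ x ∈ C, Succ C loc x (Q.σ x)) {p : P} (hp : p ∈ C) (hn : Q.ι p ≠ p) :
    ∃ loc' : P → ℕ, Q.Good C loc' ∧ (∀ x ∈ C, Succ C loc' x (Q.σ x)) ∧ loc' p = 0 := by
  obtain ⟨K, hK⟩ : ∃ K, ∀ x ∈ C, loc x < K :=
    ⟨C.sup loc + 1, fun x hx => Nat.lt_succ_of_le (le_sup hx)⟩
  let loc' : P → ℕ := fun x => if loc p ≤ loc x then loc x - loc p else loc x + K - loc p
  have hl : ∀ x ∈ C, (loc p ≤ loc x ∧ loc' x + loc p = loc x ∧ loc x < K) ∨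
      (loc x < loc p ∧ loc' x + loc p = loc x + K) := by
    intro x hx
    have := hK x hx
    have := hK p hp
    simp only [loc']
    split_ifs <;> omega
  have hKp := hK p hp
  have nb : ∀ u w w', u ≠ w → u ≠ w' → Q.e u w ∈ C →
      ¬ (loc (Q.e u w) < loc p ∧ loc p ≤ loc (Q.e u w')) := by
    rintro u w w' a b c ⟨d1, d2⟩
    rcases d2.eq_or_lt with d2 | d2
    · exact hn (by rw [h.inj hp (h.e_mem u w w' a b c) d2, Q.ι_e _ _ b])
    · obtain ⟨w'', a1, a2⟩ := h.block u w w' a b c p hp d1 d2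
      exact hn (by rw [a2, Q.ι_e _ _ a1])
  refine ⟨loc', ⟨fun x hx y hy he => h.inj hx hy ?_, fun a ha c hc hadj => ?_, h.χ_mem, h.e_mem,
    fun u w w' a b c x hx h1 h2 => ?_, fun u w w' a b c hk => ?_⟩, fun x hx => ?_, by simp [loc']⟩
  · have := hl x hx; have := hl y hy; omega
  · obtain ⟨v, v1, v2⟩ := hadj
    have n1 := h.nc a ha c hc ⟨v, v1, v2⟩
    have n2 := h.nc c hc _ (h.χ_mem a ha) ⟨v, v2, by rwa [Q.lab_χ]⟩
    have n3 := h.nc _ (h.χ_mem a ha) _ (h.χ_mem c hc) ⟨v, by rwa [Q.lab_χ], by rwa [Q.lab_χ]⟩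
    have n4 := h.nc _ (h.χ_mem c hc) a ha ⟨v, by rwa [Q.lab_χ], v1⟩
    simp only [Q.χ_inv] at n2 n3 n4
    have := hl a ha; have := hl c hc; have := hl _ (h.χ_mem a ha); have := hl _ (h.χ_mem c hc)
    omega
  · have c' := h.e_mem u w w' a b c
    have := nb u w w' a b c
    have := nb u w' w b a c'
    have := hl _ c; have := hl _ c'; have := hl x hx
    apply h.block u w w' a b c x hx <;> omega
  · have c' := h.e_mem u w w' a b c
    have := nb u w w' a b c
    have := nb u w' w b a c'
    have := hl _ c; have := hl _ c'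
    have := h.ord u w w' a b c hk
    omega
  · obtain ⟨m, hh⟩ := hs x hx
    have l1 := hl x hx
    have l2 := hl _ m
    refine ⟨m, ?_⟩
    rcases hh with hh | hh
    · have := hh.2 p hp
      by_cases e : loc (Q.σ x) = loc p
      · right
        refine ⟨fun z hz => ?_, fun z hz => by omega⟩
        have := hl z hz; have := hh.2 z hz; omega
      · left
        refine ⟨by omega, fun z hz => ?_⟩
        have := hl z hz; have := hh.2 z hz; omega
    · have := hh.1 p hp; have := hh.2 p hp
      by_cases e : loc (Q.σ x) = loc p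
      · right
        refine ⟨fun z hz => ?_, fun z hz => by omega⟩
        have := hl z hz; have := hh.1 z hz; have := hh.2 z hz; omega
      · left
        refine ⟨by omega, fun z hz => ?_⟩
        have := hl z hz; have := hh.1 z hz; have := hh.2 z hz; omega

open Classical in
/-- invariant of the joining process -/
structure Inv (U : Finset P) (pos : P → ℕ) (s : Perm P) (top : P) : Prop where
  good : Q.Good U pos
  succ : ∀ x ∈ U, Succ U pos x (s x)
  out : ∀ x, x ∉ U → s x = Q.σ x
  closed : ∀ x ∈ U, Q.σ x ∈ U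
  top_mem : top ∈ U
  top_fix : Q.ι top = top
  top_max : ∀ z ∈ U, pos z ≤ pos top
  euler : orbits (Q.ι * Q.σ) + (U.image (Quotient.mk (Perm.SameCycle.setoid Q.σ))).card ≤
    orbits (Q.ι * s) + 1

theorem step [Fintype P] [DecidableEq P] {U : Finset P} {pos : P → ℕ} {s : Perm P} {top : P}
    (h : Q.Inv U pos s top) {p : P} (hp : p ∈ U) (hp' : Q.ι p ∉ U) {C : Finset P} {loc : P → ℕ}
    (hC : Q.Good C loc) (hs : ∀ x ∈ C, Succ C loc x (Q.σ x)) (hm : Q.ι p ∈ C)
    (h0 : loc (Q.ι p) = 0) : ∃ pos' s', Q.Inv (U ∪ C) pos' s' top := by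
  classical
  have hn : Q.ι p ≠ p := fun e => hp' (e.symm ▸ hp)
  have hcyc : ∀ x ∈ C, Q.σ.SameCycle x (Q.ι p) := fun x hx => sameCycle_of_succ hC.inj _ hs hx hm
  have hdisj : ∀ x ∈ C, x ∉ U := by
    intro x hx hU
    obtain ⟨i, hi⟩ := (hcyc x hx).exists_nat_pow_eq
    apply hp'
    rw [← hi]
    clear hi
    induction i with
    | zero => simpa using hU
    | succ i ih => rw [pow_succ', Perm.mul_apply]; exact h.closed _ ih
  obtain ⟨l, hlC, hlmax⟩ := exists_max_image C loc ⟨_, hm⟩
  have hl : Q.σ l = Q.ι p := by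
    obtain ⟨m, hh | hh⟩ := hs l hlC
    · have := hlmax _ m; omega
    · have := hh.2 _ hm
      exact hC.inj m hm (by omega)
  have hptop : pos p < pos top := by
    have := h.top_max p hp
    have : pos p ≠ pos top := fun e => hn (by rw [h.good.inj hp h.top_mem e, h.top_fix])
    omega
  have hsp : pos p < pos (s p) ∧ ∀ z ∈ U, ¬ (pos p < pos z ∧ pos z < pos (s p)) := by
    rcases (h.succ p hp).2 with hh | hh
    · exact hh
    · have := hh.1 _ h.top_mem; omega
  let pos' : P → ℕ := fun x => if x ∈ C then pos p + 1 + loc x else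
    if pos x ≤ pos p then pos x else pos x + loc l + 1
  have hl1 : ∀ x ∈ C, pos' x = pos p + 1 + loc x ∧ loc x ≤ loc l :=
    fun x hx => ⟨if_pos hx, hlmax x hx⟩
  have hl2 : ∀ x ∈ U, (pos x ≤ pos p ∧ pos' x = pos x) ∨
      (pos p < pos x ∧ pos' x = pos x + loc l + 1) := by
    intro x hx
    have : x ∉ C := fun hc => hdisj x hc hx
    simp only [pos', this, if_false]
    split_ifs <;> omega
  have nb : ∀ u w w', u ≠ w → u ≠ w' → Q.e u w ∈ U →
      ¬ (pos (Q.e u w) ≤ pos p ∧ pos p < pos (Q.e u w')) := by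
    rintro u w w' a b c ⟨d1, d2⟩
    rcases d1.eq_or_lt with d1 | d1
    · exact hn (by rw [← h.good.inj c hp d1, Q.ι_e _ _ a])
    · obtain ⟨w'', a1, a2⟩ := h.good.block u w w' a b c p hp d1 d2
      exact hn (by rw [a2, Q.ι_e _ _ a1])
  have hpl : p ≠ l := fun e => hdisj l hlC (e ▸ hp)
  refine ⟨pos', s * swap p l, ⟨?_, ?_, ?_, ?_, ?_, ?_⟩, ?_, ?_, ?_, mem_union_left _ h.top_mem,
    h.top_fix, ?_, ?_⟩
  · intro x hx y hy he
    simp only [coe_union, Set.mem_union, mem_coe] at hx hy
    rcases hx with hx | hx <;> rcases hy with hy | hy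
    · have := hl2 x hx; have := hl2 y hy
      exact h.good.inj hx hy (by omega)
    · have := hl2 x hx; have := hl1 y hy; omega
    · have := hl1 x hx; have := hl2 y hy; omega
    · have := hl1 x hx; have := hl1 y hy
      exact hC.inj hx hy (by omega)
  · intro a ha c hc hadj
    rcases mem_union.mp ha with ha | ha <;> rcases mem_union.mp hc with hc | hc
    · have := h.good.nc a ha c hc hadj
      have := hl2 a ha; have := hl2 c hc
      have := hl2 _ (h.good.χ_mem a ha); have := hl2 _ (h.good.χ_mem c hc)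
      omega
    · have := hl2 a ha; have := hl1 c hc
      have := hl2 _ (h.good.χ_mem a ha); have := hl1 _ (hC.χ_mem c hc)
      omega
    · have := hl1 a ha; have := hl2 c hc
      have := hl1 _ (hC.χ_mem a ha); have := hl2 _ (h.good.χ_mem c hc)
      omega
    · have := hC.nc a ha c hc hadj
      have := hl1 a ha; have := hl1 c hc
      have := hl1 _ (hC.χ_mem a ha); have := hl1 _ (hC.χ_mem c hc)
      omega
  · intro a ha
    rcases mem_union.mp ha with ha | ha
    · exact mem_union_left _ (h.good.χ_mem a ha)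
    · exact mem_union_right _ (hC.χ_mem a ha)
  · intro u w w' a b c
    rcases mem_union.mp c with c | c
    · exact mem_union_left _ (h.good.e_mem u w w' a b c)
    · exact mem_union_right _ (hC.e_mem u w w' a b c)
  · intro u w w' a b c x hx h1 h2
    rcases mem_union.mp c with c | c <;> rcases mem_union.mp hx with hx | hx
    · have := hl2 _ c; have := hl2 _ (h.good.e_mem u w w' a b c); have := hl2 x hx
      apply h.good.block u w w' a b c x hx <;> omega
    · have := hl2 _ c; have := hl2 _ (h.good.e_mem u w w' a b c); have := hl1 x hx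
      have := nb u w w' a b c
      omega
    · have := hl1 _ c; have := hl1 _ (hC.e_mem u w w' a b c); have := hl2 x hx
      omega
    · have := hl1 _ c; have := hl1 _ (hC.e_mem u w w' a b c); have := hl1 x hx
      apply hC.block u w w' a b c x hx <;> omega
  · intro u w w' a b c hk
    rcases mem_union.mp c with c | c
    · have := hl2 _ c; have := hl2 _ (h.good.e_mem u w w' a b c)
      have := h.good.ord u w w' a b c hk
      omega
    · have := hl1 _ c; have := hl1 _ (hC.e_mem u w w' a b c)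
      have := hC.ord u w w' a b c hk
      omega
  · intro x hx
    have q1 := hl2 p hp
    have q2 := hl1 _ hm
    have q3 := hl1 l hlC
    have q4 := hl2 _ (h.succ p hp).1
    by_cases e1 : x = p
    · subst e1
      rw [Perm.mul_apply, swap_apply_left, h.out l (hdisj l hlC), hl]
      exact ⟨mem_union_right _ hm, Or.inl ⟨by omega, fun z _ => by omega⟩⟩
    by_cases e2 : x = l
    · subst e2
      rw [Perm.mul_apply, swap_apply_right]
      refine ⟨mem_union_left _ (h.succ p hp).1, Or.inl ⟨by omega, fun z hz => ?_⟩⟩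
      rcases mem_union.mp hz with hz | hz
      · have := hl2 z hz; have := hsp.2 z hz; omega
      · have := hl1 z hz; omega
    rw [Perm.mul_apply, swap_apply_of_ne_of_ne e1 e2]
    rcases mem_union.mp hx with hx | hx
    · obtain ⟨m, hh⟩ := h.succ x hx
      have := hl2 x hx; have := hl2 _ m
      have hne : pos x ≠ pos p := fun e => e1 (h.good.inj hx hp e)
      refine ⟨mem_union_left _ m, ?_⟩
      rcases hh with hh | hh
      · have := hh.2 p hp
        refine Or.inl ⟨by omega, fun z hz => ?_⟩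
        rcases mem_union.mp hz with hz | hz
        · have := hl2 z hz; have := hh.2 z hz; omega
        · have := hl1 z hz; omega
      · have := hh.1 p hp; have := hh.2 p hp
        refine Or.inr ⟨fun z hz => ?_, fun z hz => ?_⟩
        · rcases mem_union.mp hz with hz | hz
          · have := hl2 z hz; have := hh.1 z hz; omega
          · have := hl1 z hz; omega
        · rcases mem_union.mp hz with hz | hz
          · have := hl2 z hz; have := hh.2 z hz; omega
          · have := hl1 z hz; omega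
    · rw [h.out x (hdisj x hx)]
      obtain ⟨m, hh⟩ := hs x hx
      have := hl1 x hx; have := hl1 _ m
      refine ⟨mem_union_right _ m, ?_⟩
      rcases hh with hh | hh
      · refine Or.inl ⟨by omega, fun z hz => ?_⟩
        rcases mem_union.mp hz with hz | hz
        · have := hl2 z hz; omega
        · have := hl1 z hz; have := hh.2 z hz; omega
      · exfalso
        have := hh.1 l hlC
        exact e2 (hC.inj hx hlC (by omega))
  · intro x hx
    rw [mem_union, not_or] at hx
    have x1 : x ≠ p := fun e => hx.1 (e ▸ hp)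
    have x2 : x ≠ l := fun e => hx.2 (e ▸ hlC)
    rw [Perm.mul_apply, swap_apply_of_ne_of_ne x1 x2, h.out x hx.1]
  · intro x hx
    rcases mem_union.mp hx with hx | hx
    · exact mem_union_left _ (h.closed x hx)
    · exact mem_union_right _ (hs x hx).1
  · intro z hz
    have := hl2 _ h.top_mem
    rcases mem_union.mp hz with hz | hz
    · have := hl2 z hz; have := h.top_max z hz; omega
    · have := hl1 z hz; omega
  · have e1 : (Q.ι * s)⁻¹ p = l := by
      rw [Perm.inv_eq_iff_eq, Perm.mul_apply, h.out l (hdisj l hlC), hl, Q.ι_inv]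
    have e2 : (Q.ι * s) p ≠ p := by
      intro e
      rw [Perm.mul_apply] at e
      apply hp'
      rw [← e, Q.ι_inv]
      exact (h.succ p hp).1
    have e3 := orbits_remove (Q.ι * s) p e2
    rw [e1, mul_assoc] at e3
    have e4 : (U ∪ C).image (Quotient.mk (Perm.SameCycle.setoid Q.σ)) ⊆
        insert (Quotient.mk (Perm.SameCycle.setoid Q.σ) (Q.ι p))
          (U.image (Quotient.mk (Perm.SameCycle.setoid Q.σ))) := by
      intro q hq
      obtain ⟨x, hx, rfl⟩ := mem_image.mp hq
      rcases mem_union.mp hx with hx | hx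
      · exact mem_insert_of_mem (mem_image_of_mem _ hx)
      · exact mem_insert.mpr (Or.inl (Quotient.sound (hcyc x hx)))
    have e5 := (card_le_card e4).trans (card_insert_le _ _)
    have e6 := h.euler
    omega

theorem joined [Fintype P] [DecidableEq P]
    (hpoly : ∀ p, Q.ι p ≠ p → ∃ C loc, p ∈ C ∧ Q.Good C loc ∧ ∀ x ∈ C, Succ C loc x (Q.σ x))
    (hconn : ∀ U : Finset P, U.Nonempty → (∀ x ∈ U, Q.σ x ∈ U) → (∀ x ∈ U, Q.ι x ∈ U) → U = univ)
    {U : Finset P} {pos : P → ℕ} {s : Perm P} {top : P} (h : Q.Inv U pos s top) :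
    ∃ pos' s', Q.Inv univ pos' s' top := by
  induction hd : Fintype.card P - U.card using Nat.strong_induction_on generalizing U pos s with
  | _ d ih =>
    by_cases hc : ∀ x ∈ U, Q.ι x ∈ U
    · obtain rfl := hconn U ⟨_, h.top_mem⟩ h.closed hc
      exact ⟨pos, s, h⟩
    · push Not at hc
      obtain ⟨p, hp, hp'⟩ := hc
      have hn : Q.ι (Q.ι p) ≠ Q.ι p := by
        rw [Q.ι_inv]; exact fun e => hp' (e ▸ hp)
      obtain ⟨C, loc, a1, a2, a3⟩ := hpoly _ hn
      obtain ⟨loc', b1, b2, b3⟩ := Q.rotate a2 a3 a1 hn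
      obtain ⟨pos', s', h'⟩ := Q.step h hp hp' b1 b2 a1 b3
      have h1 : U.card < (U ∪ C).card := card_lt_card
        ⟨subset_union_left, fun hsub => hp' (hsub (mem_union_right _ a1))⟩
      have h2 := card_le_univ (U ∪ C)
      exact ih _ (by omega) h' rfl

theorem start [Fintype P] {C : Finset P} {loc : P → ℕ} (hC : Q.Good C loc)
    (hs : ∀ x ∈ C, Succ C loc x (Q.σ x)) {top : P} (h1 : top ∈ C) (h2 : Q.ι top = top)
    (h3 : ∀ z ∈ C, loc z ≤ loc top) : Q.Inv C loc Q.σ top := by
  classical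
  refine ⟨hC, hs, fun _ _ => rfl, fun x hx => (hs x hx).1, h1, h2, h3, ?_⟩
  apply Nat.add_le_add_left
  rw [card_le_one]
  intro a ha b hb
  obtain ⟨x, hx, rfl⟩ := mem_image.mp ha
  obtain ⟨y, hy, rfl⟩ := mem_image.mp hb
  exact Quotient.sound (sameCycle_of_succ hC.inj _ hs hx hy)

theorem Inv.euler' [Fintype P] {pos : P → ℕ} {s : Perm P} {top : P} (h : Q.Inv univ pos s top) :
    orbits (Q.ι * Q.σ) + orbits Q.σ ≤ orbits (Q.ι * s) + 1 := by
  classical
  refine le_trans (Nat.add_le_add_left ?_ _) h.euler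
  unfold orbits
  let _ : Fintype (Quotient (Perm.SameCycle.setoid Q.σ)) := Fintype.ofFinite _
  rw [Nat.card_eq_fintype_card, ← card_univ]
  apply card_le_card
  intro q _
  obtain ⟨x, rfl⟩ := Quotient.exists_rep q
  exact mem_image_of_mem _ (mem_univ x)

end Pre

end Pool.Agent.Lib.MP_a0d8b4_co
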