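import Pool.Agent.Lib.MP_a0d8b4_co.Draw

set_option autoImplicit false

namespace Pool.Agent.Lib.MP_a0d8b4_co

open Finset Equiv

namespace Drawing

variable {n g : ℕ} {R : RotSys n} (T : Drawing R g)

include T in
theorem count (key : Fin n → Fin n → ℕ)
    (hinj : ∀ u, Set.InjOn (key u) (univ.erase u : Finset (Fin n)))
    (hs : ∀ u w, u ≠ w → Succ (univ.erase u) (key u) w (R.rot u w))
    (k : ℕ) (hk : 2 ≤ k) (hkn : k + 1 ≤ n)
    (hmeet : ∀ u u' I I', Conv (fun w => (key u w : ℤ)) u I → Conv (fun w => (key u' w : ℤ)) u' I' →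
      k ≤ I.card → k ≤ I'.card → ∃ w ∈ I, ∃ w' ∈ I', Adj u w u' w') :
    n * n - n ≤ 4 * k * (86 * n + 144 * g) := by
  classical
  have hne : ∀ u : Fin n, (univ.erase u).Nonempty := fun u => by
    rw [← card_pos, card_erase_of_mem (mem_univ _), card_univ, Fintype.card_fin]; omega
  choose fst hf1 hf2 using fun u => exists_min_image _ (key u) (hne u)
  choose lst hl1 hl2 using fun u => exists_max_image _ (key u) (hne u)
  have h1 : ∀ u, u ≠ fst u := fun u => (mem_erase.mp (hf1 u)).1.symm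
  have h2 : ∀ u, u ≠ lst u := fun u => (mem_erase.mp (hl1 u)).1.symm
  have hf : ∀ u w, u ≠ w → key u (fst u) ≤ key u w := fun u w h => hf2 u w (by simp [h.symm])
  have hl : ∀ u w, u ≠ w → key u w ≤ key u (lst u) := fun u w h => hl2 u w (by simp [h.symm])
  have h3 : ∀ u, R.rot u (lst u) = fst u := fun u =>
    Succ.right_unique (hinj u) (hs u _ (h2 u)) ⟨hf1 u, Or.inr ⟨hl2 u, hf2 u⟩⟩
  obtain ⟨σ0, E1, E2, E3, E4⟩ := T.exists_σ0 fst lst h1 h2 h3
  have E1' : ∀ d, ¬ T.Real d → σ0 (Sum.inl d) = Sum.inl (T.σ d) := fun d hd =>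
    E1 d fun u e => hd ⟨u, _, h2 u, e⟩
  have RP := T.real_poly σ0 key fst lst hinj hs h1 h2 hf hl E1 E2 E3 E4
  set Q := T.pre σ0 key with hQ
  have hσ : Q.σ = σ0 := rfl
  have hι : ∀ d, Q.ι (Sum.inl d) = Sum.inl (T.α d) := fun _ => rfl
  have he : Q.e = T.e := rfl
  have hpoly : ∀ p, ∃ C loc, p ∈ C ∧ Q.Good C loc ∧ ∀ x ∈ C, Succ C loc x (Q.σ x) := by
    intro p
    rcases T.pt_cases p with ⟨d, h, rfl⟩ | ⟨u, w, h, rfl⟩ | ⟨u, w, h, rfl⟩
    · exact T.cross_poly σ0 key E1' h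
    · obtain ⟨C, loc, a1, a2, a3, -⟩ := RP u
      exact ⟨C, loc, (a1 _).mpr ⟨w, h, Or.inl rfl⟩, a2, a3⟩
    · obtain ⟨C, loc, a1, a2, a3, -⟩ := RP u
      exact ⟨C, loc, (a1 _).mpr ⟨w, h, Or.inr rfl⟩, a2, a3⟩
  have hconn : ∀ U : Finset T.Pt, U.Nonempty → (∀ x ∈ U, Q.σ x ∈ U) → (∀ x ∈ U, Q.ι x ∈ U) →
      U = univ := by
    intro U ⟨x0, hx0⟩ c1 c2
    have c3 : ∀ x ∈ U, T.χ x ∈ U := by
      intro x hx
      obtain ⟨C, loc, a1, a2, a3⟩ := hpoly x
      exact mem_of_sameCycle (U := (U : Set T.Pt)) c1 hx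
        (sameCycle_of_succ a2.inj _ a3 a1 (a2.χ_mem x a1))
    have c4 : ∀ d d', Sum.inl d ∈ U → (T.opp * T.α).SameCycle d d' → Sum.inl d' ∈ U := by
      intro d d' hd hc
      refine mem_of_sameCycle (U := {d | Sum.inl d ∈ U}) (fun y hy => ?_) hd hc
      have := c2 _ hy
      rw [hι] at this
      by_cases h : T.Real (T.α y)
      · obtain ⟨u, w, a, b⟩ := h
        change Sum.inl (T.opp (T.α y)) ∈ U
        rwa [b, T.opp_start u w a, ← b]
      · have := c3 _ this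
        rwa [T.χ_cross h] at this
    have c5 : ∀ u w w', u ≠ w → u ≠ w' → Sum.inl (T.start u w) ∈ U →
        Sum.inl (T.start u w') ∈ U := by
      intro u w w' a b c
      obtain ⟨C, loc, a1, a2, a3, -⟩ := RP u
      exact mem_of_sameCycle (U := (U : Set T.Pt)) c1 c (sameCycle_of_succ a2.inj _ a3
        ((a1 _).mpr ⟨w, a, Or.inl rfl⟩) ((a1 _).mpr ⟨w', b, Or.inl rfl⟩))
    obtain ⟨u0, w0, a0, b0⟩ : ∃ u w, u ≠ w ∧ Sum.inl (T.start u w) ∈ U := by
      rcases T.pt_cases x0 with ⟨d, h, rfl⟩ | ⟨u, w, h, rfl⟩ | ⟨u, w, h, rfl⟩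
      · obtain ⟨u, w, a, b⟩ := T.cover d
        exact ⟨u, w, a, c4 _ _ hx0 b⟩
      · exact ⟨u, w, h, hx0⟩
      · exact ⟨u, w, h, T.χ_e h ▸ c3 _ hx0⟩
    have c6 : ∀ u w, u ≠ w → Sum.inl (T.start u w) ∈ U := by
      intro u w h
      by_cases e : u = u0
      · subst e; exact c5 _ _ _ a0 h b0
      · have := c4 _ _ (c5 _ _ _ a0 (Ne.symm e) b0)
          ((T.edge_iff _ _ _ _ (Ne.symm e) e).mpr Sym2.eq_swap)
        exact c5 _ _ _ e h this
    apply eq_univ_of_forall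
    intro x
    rcases T.pt_cases x with ⟨d, h, rfl⟩ | ⟨u, w, h, rfl⟩ | ⟨u, w, h, rfl⟩
    · obtain ⟨u, w, a, b⟩ := T.cover d
      exact c4 _ _ (c6 u w a) b.symm
    · exact c6 u w h
    · exact T.χ_start h ▸ c3 _ (c6 u w h)
  let u0 : Fin n := ⟨0, by omega⟩
  obtain ⟨C0, loc0, a1, a2, a3, a4⟩ := RP u0
  obtain ⟨pos, s, hI⟩ := Q.joined (fun p _ => hpoly p) hconn
    (Q.start a2 a3 ((a1 _).mpr ⟨_, h1 u0, Or.inr rfl⟩) (Q.ι_e _ _ (h1 u0)) a4)
  have hpos : Function.Injective pos := fun x y h => hI.good.inj (by simp) (by simp) h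
  have hfix : ∀ x, Q.ι x = x → ∃ u w, u ≠ w ∧ x = T.e u w := by
    rintro (d | ⟨⟨u, w⟩, h⟩) hx
    · rw [hι] at hx; exact absurd (Sum.inl.inj hx) (T.α_ne d)
    · exact ⟨u, w, h, (T.e_eq h).symm⟩
  let B : Base (Fin n) T.Pt :=
    { pos := pos, ι := Q.ι, e := T.e, lab := T.labP, top := T.e u0 (fst u0)
      pos_inj := hpos, ι_inv := Q.ι_inv, ι_e := Q.ι_e, fix := hfix
      e_inj := fun _ _ _ _ a b => T.e_inj a b
      lab_e := fun _ _ a => T.labP_e a
      lab_ι := by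
        rintro (d | p)
        · exact (T.lab_eq (T.τ_cycle_α d)).symm
        · rfl
      top_fix := hI.top_fix
      top_max := fun z => hI.top_max z (mem_univ _)
      block := fun u w w' x a b => hI.good.block u w w' a b (mem_univ _) x (mem_univ _) }
  have hact : ∀ x, T.χ x ≠ x := by
    intro x
    rcases T.pt_cases x with ⟨d, h, rfl⟩ | ⟨u, w, h, rfl⟩ | ⟨u, w, h, rfl⟩
    · rw [T.χ_cross h]; exact fun e => T.opp_ne h (Sum.inl.inj e)
    · rw [T.χ_start h]; exact T.e_ne h _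
    · rw [T.χ_e h]; exact (T.e_ne h _).symm
  have pc : ∀ x : T.Pt, (∃ d, (∀ u, d ≠ T.start u (lst u)) ∧ x = Sum.inl d) ∨
      (∃ u, x = Sum.inl (T.start u (lst u))) ∨ (∃ u w, u ≠ w ∧ w ≠ fst u ∧ x = T.e u w) ∨
      ∃ u, x = T.e u (fst u) := by
    rintro (d | ⟨⟨u, w⟩, h⟩)
    · by_cases hd : ∃ u, d = T.start u (lst u)
      · obtain ⟨u, rfl⟩ := hd
        exact Or.inr (Or.inl ⟨u, rfl⟩)
      · push Not at hd
        exact Or.inl ⟨d, hd, rfl⟩
    · rw [← T.e_eq h]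
      by_cases hw : w = fst u
      · exact Or.inr (Or.inr (Or.inr ⟨u, by rw [hw]⟩))
      · exact Or.inr (Or.inr (Or.inl ⟨u, w, h, hw, rfl⟩))
  let r : T.Pt → Fin T.m := fun x => match x with
    | Sum.inl d => d
    | Sum.inr p => T.start p.1.1 (lst p.1.1)
  have r1 : ∀ u w, u ≠ w → r (T.e u w) = T.start u (lst u) := fun u w h => by rw [T.e_eq h]
  have sl : ∀ u, T.σ (T.start u (lst u)) = T.start u (fst u) := fun u => by
    rw [T.σ_start _ _ (h2 u), h3]
  have o1 : orbits T.σ ≤ orbits Q.σ := by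
    refine orbits_le _ _ r (fun x => ?_) fun d => ⟨Sum.inl d, rfl⟩
    rw [hσ]
    rcases pc x with ⟨d, h, rfl⟩ | ⟨u, rfl⟩ | ⟨u, w, a, b, rfl⟩ | ⟨u, rfl⟩
    · rw [E1 d h]; exact Perm.sameCycle_apply_right.mpr (Perm.SameCycle.refl _ _)
    · rw [E2, r1 _ _ (h2 u)]
    · rw [E3 _ _ a b, r1 _ _ a, r1 _ _ (R.rot_inv_ne a)]
    · rw [E4, r1 _ _ (h1 u), ← sl]; exact Perm.sameCycle_apply_right.mpr (Perm.SameCycle.refl _ _)
  have o2 : orbits (T.σ * T.α) ≤ orbits (Q.ι * Q.σ) := by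
    refine orbits_le _ _ (fun x => T.σ (r x)) (fun x => ?_) fun d => ⟨Sum.inl (T.σ⁻¹ d), by simp [r]⟩
    rw [Perm.mul_apply, hσ]
    rcases pc x with ⟨d, h, rfl⟩ | ⟨u, rfl⟩ | ⟨u, w, a, b, rfl⟩ | ⟨u, rfl⟩
    · rw [E1 d h, hι]; exact Perm.sameCycle_apply_right.mpr (Perm.SameCycle.refl _ _)
    · rw [E2, ← he, Q.ι_e _ _ (h2 u), he, r1 _ _ (h2 u)]
    · rw [E3 _ _ a b, ← he, Q.ι_e _ _ (R.rot_inv_ne a), he, r1 _ _ a, r1 _ _ (R.rot_inv_ne a)]
    · rw [E4, hι, r1 _ _ (h1 u), sl]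
      exact Perm.sameCycle_apply_right.mpr (Perm.SameCycle.refl _ _)
  have o3 : Fintype.card T.Pt ≤ T.m + (univ.filter fun z => B.ι z = z).card := by
    rw [Fintype.card_sum, Fintype.card_fin]
    apply Nat.add_le_add_left
    rw [← card_univ]
    exact card_le_card_of_injOn Sum.inr (fun p _ => mem_filter.mpr ⟨mem_univ _, rfl⟩)
      (fun _ _ _ _ h => Sum.inr.inj h)
  let St : State B (4 * g + (univ.filter fun z => B.ι z = z).card) :=
    { S := univ, f := Q.ι * s, χ := T.χ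
      ι_S := fun _ _ => mem_univ _
      fix_S := fun _ _ => mem_univ _
      f_out := fun x hx => absurd (mem_univ x) hx
      f_succ := fun x hx => by
        have := hI.succ x hx
        rwa [← Q.ι_inv (s x)] at this
      χ_inv := Q.χ_inv
      lab_χ := Q.lab_χ
      act_S := fun _ _ => mem_univ _
      act_fix := fun x _ => hact x
      act_ι := fun x _ => hact _
      nc := fun a c => hI.good.nc a (mem_univ _) c (mem_univ _)
      euler := by
        have := hI.euler'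
        have := T.euler
        rw [card_univ]
        omega }
  have conv : ∀ u I, Conv (fun w => (B.pos (B.e u w) : ℤ)) u I → Conv (fun w => (key u w : ℤ)) u I := by
    intro u I h
    have mono : ∀ a b, u ≠ a → u ≠ b → key u a ≤ key u b → pos (T.e u b) ≤ pos (T.e u a) := by
      intro a b ha hb hle
      rcases hle.eq_or_lt with e | e
      · rw [hinj u (by simp [ha.symm]) (by simp [hb.symm]) e]
      · exact (hI.good.ord u a b ha hb (mem_univ _) e).le
    refine ⟨h.1, fun a ha c hc b hb d1 d2 => h.2 c hc a ha b hb ?_ ?_⟩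
    · exact Int.ofNat_le.mpr (mono b c hb.symm (fun e => h.1 (e ▸ hc)) (Int.ofNat_le.mp d2))
    · exact Int.ofNat_le.mpr (mono a b (fun e => h.1 (e ▸ ha)) hb.symm (Int.ofNat_le.mp d1))
  have := St.count g (by convert rfl) k hk (by simpa using hkn)
    fun u u' I I' a b => hmeet u u' I I' (conv u I a) (conv u' I' b)
  simpa using this

end Drawing

theorem exists_rot (q : ℕ) (hq : q.Prime) (h3 : 3 ≤ q) : ∃ (R : RotSys (3 * q ^ 2))
    (key : Fin (3 * q ^ 2) → Fin (3 * q ^ 2) → ℕ),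
    (∀ u, Set.InjOn (key u) (univ.erase u : Finset (Fin (3 * q ^ 2)))) ∧
    (∀ u w, u ≠ w → Succ (univ.erase u) (key u) w (R.rot u w)) ∧
    ∀ u u' I I', Conv (fun w => (key u w : ℤ)) u I → Conv (fun w => (key u' w : ℤ)) u' I' →
      6 * q + 1 ≤ I.card → 6 * q + 1 ≤ I'.card → ∃ w ∈ I, ∃ w' ∈ I', Adj u w u' w' := by
  classical
  have := Fact.mk hq
  obtain ⟨φ⟩ : Nonempty (Fin (3 * q ^ 2) ≃ Fin 3 × ZMod q × ZMod q) := by
    rw [← Fintype.card_eq]; simp [ZMod.card, sq]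
  obtain ⟨c⟩ : Nonempty (Fin (3 * q ^ 2) ↪ (Fin 3 → ZMod q)) := by
    apply Function.Embedding.nonempty_of_card_le
    simp only [Fintype.card_fin, Fintype.card_pi, ZMod.card, prod_const, card_univ]
    rw [pow_succ' q 2]
    exact Nat.mul_le_mul_right _ h3
  let bl : Fin (3 * q ^ 2) → Fin (3 * q ^ 2) → ZMod q := fun u w =>
    (φ w).2.2 - c u (φ w).1 * (φ w).2.1
  let key : Fin (3 * q ^ 2) → Fin (3 * q ^ 2) → ℕ := fun u w => (bl u w).val * (3 * q ^ 2) + w.val
  have hlt : ∀ u a b, (bl u a).val < (bl u b).val → key u a < key u b := by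
    intro u a b h
    have := a.2
    have : ((bl u a).val + 1) * (3 * q ^ 2) ≤ (bl u b).val * (3 * q ^ 2) :=
      Nat.mul_le_mul_right _ h
    simp only [key]
    rw [add_mul] at this
    omega
  have hinj : ∀ u, Set.InjOn (key u) (univ.erase u : Finset (Fin (3 * q ^ 2))) := by
    intro u a _ b _ h
    rcases lt_trichotomy (bl u a).val (bl u b).val with e | e | e
    · have := hlt u a b e; omega
    · simp only [key, e] at h
      exact Fin.ext (by omega)
    · have := hlt u b a e; omega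
  choose s hs using fun u => exists_succ_perm _ (key u) (hinj u)
  have hcard : ∀ u (a : ℕ), (univ.filter fun w => (bl u w).val = a).card ≤ 3 * q := by
    intro u a
    have : (univ : Finset (Fin 3 × ZMod q)).card = 3 * q := by simp [ZMod.card]
    rw [← this]
    apply card_le_card_of_injOn (fun w => ((φ w).1, (φ w).2.1)) (fun _ _ => mem_univ _)
    intro w hw w' hw' h
    simp only [coe_filter, mem_univ, true_and, Set.mem_ofPred_eq, Prod.mk.injEq] at hw hw' h
    have e : bl u w = bl u w' := ZMod.val_injective q (hw.trans hw'.symm)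
    simp only [bl, h.1, h.2, sub_left_inj] at e
    exact φ.injective (Prod.ext h.1 (Prod.ext h.2 e))
  have hfull : ∀ u I, Conv (fun w => (key u w : ℤ)) u I → 6 * q + 1 ≤ I.card →
      ∃ a, ∀ w, w ≠ u → bl u w = a → w ∈ I := by
    intro u I h hI
    have hne : I.Nonempty := card_pos.mp (by omega)
    obtain ⟨x, hx, hmin⟩ := exists_min_image I (fun w => (bl u w).val) hne
    obtain ⟨y, hy, hmax⟩ := exists_max_image I (fun w => (bl u w).val) hne
    have h2 : (bl u x).val + 2 ≤ (bl u y).val := by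
      by_contra hc
      have : I ⊆ (univ.filter fun w => (bl u w).val = (bl u x).val) ∪
          (univ.filter fun w => (bl u w).val = (bl u x).val + 1) := by
        intro w hw
        have := hmin w hw; have := hmax w hw
        simp only [mem_union, mem_filter, mem_univ, true_and]
        omega
      have := (card_le_card this).trans (card_union_le _ _)
      have := hcard u (bl u x).val
      have := hcard u ((bl u x).val + 1)
      omega
    have hyq := ZMod.val_lt (bl u y)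
    refine ⟨((bl u x).val + 1 : ℕ), fun w hw e => ?_⟩
    have e' : (bl u w).val = (bl u x).val + 1 := by
      rw [e, ZMod.val_natCast, Nat.mod_eq_of_lt (by omega)]
    exact h.2 x hx y hy w hw (Int.ofNat_le.mpr (hlt u x w (by omega)).le)
      (Int.ofNat_le.mpr (hlt u w y (by omega)).le)
  refine ⟨⟨s, fun u => ⟨?_, fun x hx y hy => ?_⟩⟩, key, hinj,
    fun u w h => hs u w (by simp [h.symm]), fun u u' I I' a b d d' => ?_⟩
  · apply (Set.Finite.injOn_iff_bijOn_of_mapsTo (Set.toFinite _) ?_).mp (s u).injective.injOn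
    intro w hw
    simpa using (hs u w (by simpa using hw)).1
  · exact sameCycle_of_succ (hinj u) _ (hs u) (by simpa using hx) (by simpa using hy)
  · obtain ⟨w0, hw0⟩ : I.Nonempty := card_pos.mp (by omega)
    obtain ⟨w0', hw0'⟩ : I'.Nonempty := card_pos.mp (by omega)
    by_cases e : u = u'
    · exact ⟨w0, hw0, w0', hw0', Or.inl e⟩
    obtain ⟨l, hl⟩ := Function.ne_iff.mp (c.injective.ne e)
    obtain ⟨t, ht⟩ := hfull u I a d
    obtain ⟨t', ht'⟩ := hfull u' I' b d'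
    let x := (t - t') / (c u' l - c u l)
    let z := φ.symm (l, x, t + c u l * x)
    have z1 : bl u z = t := by simp [bl, z]
    have z2 : bl u' z = t' := by
      have hne : c u' l - c u l ≠ 0 := sub_ne_zero.mpr hl.symm
      simp only [bl, z, x, apply_symm_apply]
      field_simp
      ring
    by_cases e1 : z = u
    · exact ⟨w0, hw0, z, ht' z (e1 ▸ e) z2, Or.inr (Or.inl e1.symm)⟩
    by_cases e2 : z = u'
    · exact ⟨z, ht z e1 z1, w0', hw0', Or.inr (Or.inr (Or.inl e2))⟩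
    · exact ⟨z, ht z e1 z1, z, ht' z e2 z2, Or.inr (Or.inr (Or.inr rfl))⟩

theorem main : ∃ C : ℕ, ∀ g : ℕ, 1 ≤ g → ∃ n : ℕ, 2 ≤ n ∧ n ^ 3 ≤ C * g ^ 2 ∧
    ∃ R : RotSys n, IsEmpty (Drawing R g) := by
  refine ⟨27 * 4000 ^ 6 * 64, fun g hg => ?_⟩
  have hex : ∃ r, g ≤ r ^ 3 := ⟨g, Nat.le_self_pow (by norm_num) g⟩
  obtain ⟨r, hr, hr'⟩ : ∃ r, g ≤ r ^ 3 ∧ r ^ 3 ≤ 8 * g := by
    refine ⟨Nat.find hex, Nat.find_spec hex, ?_⟩
    rcases Nat.lt_or_ge (Nat.find hex) 2 with h | h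
    · have : Nat.find hex ^ 3 ≤ 1 ^ 3 := Nat.pow_le_pow_left (by omega) 3
      omega
    · have h1 := Nat.find_min hex (show Nat.find hex - 1 < Nat.find hex by omega)
      have h2 : Nat.find hex ^ 3 ≤ (2 * (Nat.find hex - 1)) ^ 3 := Nat.pow_le_pow_left (by omega) 3
      rw [mul_pow] at h2
      omega
  have hr0 : 1 ≤ r := by
    rcases Nat.eq_zero_or_pos r with rfl | h
    · simp at hr; omega
    · exact h
  obtain ⟨q, hq, h1, h2⟩ := Nat.exists_prime_lt_and_le_two_mul (2000 * r) (by omega)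
  obtain ⟨R, key, a1, a2, a3⟩ := exists_rot q hq (by omega)
  have hq2 : 2000 * q ≤ q ^ 2 := by nlinarith
  refine ⟨3 * q ^ 2, by omega, ?_, R, ⟨fun T => ?_⟩⟩
  · have b1 : q ^ 3 ≤ (4000 * r) ^ 3 := Nat.pow_le_pow_left (by omega) 3
    have b2 : q ^ 3 ≤ 4000 ^ 3 * (8 * g) := by
      rw [mul_pow] at b1
      exact b1.trans (Nat.mul_le_mul_left _ hr')
    have b3 := Nat.pow_le_pow_left b2 2
    calc (3 * q ^ 2) ^ 3 = 27 * (q ^ 3) ^ 2 := by ring
      _ ≤ 27 * (4000 ^ 3 * (8 * g)) ^ 2 := Nat.mul_le_mul_left _ b3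
      _ = _ := by ring
  · have h := T.count key a1 a2 (6 * q + 1) (by omega) (by omega) a3
    have b1 : (2000 * r) ^ 3 ≤ q ^ 3 := Nat.pow_le_pow_left h1.le 3
    have b2 : 2000 ^ 3 * g ≤ q ^ 3 := by
      rw [mul_pow] at b1
      exact (Nat.mul_le_mul_left _ hr).trans b1
    have b3 : 4 * (6 * q + 1) * (86 * (3 * q ^ 2) + 144 * g) ≤
        4 * (7 * q) * (86 * (3 * q ^ 2) + 144 * g) := by
      apply Nat.mul_le_mul_right; omega
    have b4 : 2000 * q ^ 3 ≤ q ^ 4 := by nlinarith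
    have b5 : 2000 ^ 3 * (q * g) ≤ q ^ 4 := by nlinarith
    have b6 : q ^ 2 * 1 ≤ q ^ 3 := by rw [pow_succ q 2]; exact Nat.mul_le_mul_left _ (by omega)
    have b7 : 3 * q ^ 2 * (3 * q ^ 2) = 9 * q ^ 4 := by ring
    have b8 : 4 * (7 * q) * (86 * (3 * q ^ 2) + 144 * g) = 7224 * q ^ 3 + 4032 * (q * g) := by ring
    omega

end Pool.Agent.Lib.MP_a0d8b4_co
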