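import Pool.Agent.Lib.MP_a0d8b4_co.Sys

set_option autoImplicit false

namespace Pool.Agent.Lib.MP_a0d8b4_co

open Finset

/-- chords with labels sharing a vertex do not cross -/
def NC {V P : Type} (pos : P → ℕ) (lab : P → Sym2 V) (χ : P → P) : Prop :=
  ∀ a c, (∃ v, v ∈ lab a ∧ v ∈ lab c) →
    ¬ (pos a < pos c ∧ pos c < pos (χ a) ∧ pos (χ a) < pos (χ c))

/-- the reduced polygon model -/
structure FM (V P : Type) (Ns : ℕ) where
  pos : P → ℕ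
  ι : P → P
  χ : P → P
  e : V → V → P
  lab : P → Sym2 V
  sd : P → ℤ
  rt : V → ℤ
  op : ℤ → ℤ
  pos_inj : Function.Injective pos
  ι_inv : ∀ x, ι (ι x) = x
  ι_e : ∀ u w, u ≠ w → ι (e u w) = e u w
  fix : ∀ x, ι x = x → ∃ u w, u ≠ w ∧ x = e u w
  e_inj : ∀ u w u' w', u ≠ w → u' ≠ w' → e u w = e u' w' → u = u' ∧ w = w'
  lab_e : ∀ u w, u ≠ w → lab (e u w) = s(u, w)
  lab_ι : ∀ x, lab (ι x) = lab x
  lab_χ : ∀ x, lab (χ x) = lab x
  χ_inv : ∀ x, χ (χ x) = x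
  act_e : ∀ u w, u ≠ w → χ (e u w) ≠ e u w
  act_ι : ∀ x, χ x ≠ x → χ (ι x) ≠ ι x
  nc : NC pos lab χ
  sd_mono : ∀ a b, χ a ≠ a → χ b ≠ b → pos a ≤ pos b → sd a ≤ sd b
  sd_range : ∀ a, χ a ≠ a → 0 ≤ sd a ∧ sd a < Ns
  sd_ι : ∀ a, χ a ≠ a → sd (ι a) = op (sd a)
  sd_rev : ∀ a b, χ a ≠ a → χ b ≠ b → sd a = sd b → ι a ≠ a → pos a < pos b →
    pos (ι b) < pos (ι a)
  sd_e : ∀ u w, u ≠ w → sd (e u w) = rt u
  sd_end : ∀ a u, χ a ≠ a → sd a = rt u → ∃ w, u ≠ w ∧ a = e u w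
  noU : ∀ a, χ a ≠ a → sd (χ a) ≠ sd a

/-- next gate -/
def nxt (op : ℤ → ℤ) (g : ℤ × ℤ) (b : Bool) : ℤ × ℤ :=
  if g.2 = 1 then (if b then (g.1 + 1, 0) else (g.1 - 1, 2))
  else if g.2 = 0 then (if b then (op g.1, 1) else (g.1 + 1, 0))
  else (if b then (g.1 - 1, 2) else (op g.1, 1))

theorem nxt_ne (op : ℤ → ℤ) (g : ℤ × ℤ) : nxt op g false ≠ nxt op g true := by
  unfold nxt
  split_ifs <;> simp_all

theorem nxt_inj (op : ℤ → ℤ) (g : ℤ × ℤ) {b b' : Bool} (h : nxt op g b = nxt op g b') :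
    b = b' := by
  cases b <;> cases b'
  · rfl
  · exact absurd h (nxt_ne op g)
  · exact absurd h.symm (nxt_ne op g)
  · rfl

/-- rank of a predecessor gate -/
def rk (g a : ℤ × ℤ) : ℤ := if g.2 = 1 then - a.2 else a.2

/-- key of a history -/
def keyL : ℤ × ℤ → List (ℤ × ℤ) → List ℤ
  | _, [] => []
  | g, a :: h => rk g a :: keyL a h

namespace FM

variable {V P : Type} {Ns : ℕ} (M : FM V P Ns)

/-- type of the gate of a state -/
def ty (s : P × ℤ) : ℤ := if s.2 = M.sd s.1 then 1 else if M.sd s.1 < s.2 then 0 else 2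

/-- gate of a state -/
def gt (s : P × ℤ) : ℤ × ℤ := (s.2, M.ty s)

/-- one step -/
def stp (s : P × ℤ) : P × ℤ :=
  if s.2 = M.sd (M.χ s.1) then (M.ι (M.χ s.1), M.sd (M.ι (M.χ s.1)))
  else if s.2 < M.sd (M.χ s.1) then (s.1, s.2 + 1) else (s.1, s.2 - 1)

/-- letter read at a state -/
def lt (s : P × ℤ) : Bool :=
  if s.2 = M.sd s.1 then decide (M.sd s.1 < M.sd (M.χ s.1))
  else if M.sd s.1 < s.2 then decide (s.2 = M.sd (M.χ s.1)) else decide (s.2 ≠ M.sd (M.χ s.1))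

/-- valid states -/
def Inv (s : P × ℤ) : Prop :=
  M.χ s.1 ≠ s.1 ∧ ((M.sd s.1 ≤ s.2 ∧ s.2 ≤ M.sd (M.χ s.1)) ∨ (M.sd (M.χ s.1) ≤ s.2 ∧ s.2 ≤ M.sd s.1))

theorem act_χ {x : P} (h : M.χ x ≠ x) : M.χ (M.χ x) ≠ M.χ x := by
  rw [M.χ_inv]; exact h.symm

theorem inv_stp {s : P × ℤ} (h : M.Inv s) : M.Inv (M.stp s) := by
  obtain ⟨h1, h2⟩ := h
  unfold stp
  split_ifs with a b
  · exact ⟨M.act_ι _ (M.act_χ h1), by simp only; omega⟩
  · exact ⟨h1, by simp only; omega⟩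
  · exact ⟨h1, by simp only; omega⟩

theorem lab_stp (s : P × ℤ) : M.lab (M.stp s).1 = M.lab s.1 := by
  unfold stp
  split_ifs
  · simp [M.lab_ι, M.lab_χ]
  · rfl
  · rfl

theorem cases6 {s : P × ℤ} (h : M.Inv s) :
    (s.2 = M.sd s.1 ∧ M.sd s.1 < M.sd (M.χ s.1) ∧ M.ty s = 1 ∧ M.lt s = true ∧
      M.stp s = (s.1, s.2 + 1) ∧ M.ty (M.stp s) = 0) ∨
    (s.2 = M.sd s.1 ∧ M.sd (M.χ s.1) < M.sd s.1 ∧ M.ty s = 1 ∧ M.lt s = false ∧
      M.stp s = (s.1, s.2 - 1) ∧ M.ty (M.stp s) = 2) ∨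
    (M.sd s.1 < s.2 ∧ s.2 = M.sd (M.χ s.1) ∧ M.ty s = 0 ∧ M.lt s = true ∧
      M.stp s = (M.ι (M.χ s.1), M.sd (M.ι (M.χ s.1))) ∧ M.ty (M.stp s) = 1) ∨
    (M.sd s.1 < s.2 ∧ s.2 < M.sd (M.χ s.1) ∧ M.ty s = 0 ∧ M.lt s = false ∧
      M.stp s = (s.1, s.2 + 1) ∧ M.ty (M.stp s) = 0) ∨
    (s.2 < M.sd s.1 ∧ M.sd (M.χ s.1) < s.2 ∧ M.ty s = 2 ∧ M.lt s = true ∧
      M.stp s = (s.1, s.2 - 1) ∧ M.ty (M.stp s) = 2) ∨
    (s.2 < M.sd s.1 ∧ s.2 = M.sd (M.χ s.1) ∧ M.ty s = 2 ∧ M.lt s = false ∧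
      M.stp s = (M.ι (M.χ s.1), M.sd (M.ι (M.χ s.1))) ∧ M.ty (M.stp s) = 1) := by
  obtain ⟨h1, h2⟩ := h
  have h3 := M.noU _ h1
  obtain ⟨p, y⟩ := s
  simp only at h1 h2 h3 ⊢
  by_cases a : y = M.sd (M.χ p)
  · subst a
    by_cases b : M.sd p < M.sd (M.χ p)
    · right; right; left
      simp [stp, ty, lt, h3, b]
    · right; right; right; right; right
      have : M.sd (M.χ p) < M.sd p := by omega
      simp [stp, ty, lt, h3, b, this]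
  · by_cases b : y < M.sd (M.χ p)
    · by_cases c : y = M.sd p
      · subst c
        left
        simp [stp, ty, lt, a, b]
      · have c1 : M.sd p < y := by omega
        have c2 : y + 1 ≠ M.sd p := by omega
        have c3 : M.sd p < y + 1 := by omega
        right; right; right; left
        simp [stp, ty, lt, a, b, c, c1, c2, c3]
    · by_cases c : y = M.sd p
      · subst c
        have c2 : M.sd p - 1 ≠ M.sd p := by omega
        have c3 : M.sd (M.χ p) < M.sd p := by omega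
        right; left
        simp [stp, ty, lt, a, b, c2, c3]
      · have c1 : ¬ M.sd p < y := by omega
        have c2 : y - 1 ≠ M.sd p := by omega
        have c3 : ¬ M.sd p < y - 1 := by omega
        have c4 : y < M.sd p := by omega
        have c5 : M.sd (M.χ p) < y := by omega
        right; right; right; right; left
        simp [stp, ty, lt, a, b, c, c1, c2, c3, c4, c5]

theorem gt_stp {s : P × ℤ} (h : M.Inv s) : M.gt (M.stp s) = nxt M.op (M.gt s) (M.lt s) := by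
  have h4 := M.sd_ι _ (M.act_χ h.1)
  rcases M.cases6 h with c | c | c | c | c | c <;> obtain ⟨c1, c2, c3, c4, c5, c6⟩ := c <;>
    unfold gt <;> rw [c6, c5, c3, c4] <;> simp [nxt]
  · rw [h4, c2]
  · rw [h4, c2]

theorem pos_lt_of_sd {a b : P} (ha : M.χ a ≠ a) (hb : M.χ b ≠ b) (h : M.sd a < M.sd b) :
    M.pos a < M.pos b := by
  by_contra hle
  have := M.sd_mono b a hb ha (by omega)
  omega

theorem nc4 {p p' : P} (hadj : ∃ v, v ∈ M.lab p ∧ v ∈ M.lab p') :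
    ¬ (M.pos p < M.pos p' ∧ M.pos p' < M.pos (M.χ p) ∧ M.pos (M.χ p) < M.pos (M.χ p')) ∧
    ¬ (M.pos (M.χ p) < M.pos (M.χ p') ∧ M.pos (M.χ p') < M.pos p ∧ M.pos p < M.pos p') ∧
    ¬ (M.pos (M.χ p') < M.pos p ∧ M.pos p < M.pos p' ∧ M.pos p' < M.pos (M.χ p)) ∧
    ¬ (M.pos p < M.pos (M.χ p') ∧ M.pos (M.χ p') < M.pos (M.χ p) ∧ M.pos (M.χ p) < M.pos p') := by
  obtain ⟨v, h1, h2⟩ := hadj
  refine ⟨M.nc p p' ⟨v, h1, h2⟩, ?_, ?_, ?_⟩
  · simpa only [M.χ_inv] using M.nc (M.χ p) (M.χ p') ⟨v, by rwa [M.lab_χ], by rwa [M.lab_χ]⟩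
  · simpa only [M.χ_inv] using M.nc (M.χ p') p ⟨v, by rwa [M.lab_χ], h1⟩
  · simpa only [M.χ_inv] using M.nc p (M.χ p') ⟨v, h1, by rwa [M.lab_χ]⟩

theorem χ_pos_ne {p p' : P} (h : M.pos p ≠ M.pos p') : M.pos (M.χ p) ≠ M.pos (M.χ p') := by
  intro h'
  apply h
  have := congrArg M.χ (M.pos_inj h')
  rw [M.χ_inv, M.χ_inv] at this
  rw [this]

/-- terminal states -/
def Term (s : P × ℤ) : Prop := s.2 = M.sd s.1 ∧ M.ι s.1 = s.1

theorem no_tf {s s' : P × ℤ} (h : M.Inv s) (h' : M.Inv s') (hg : M.gt s = M.gt s')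
    (hadj : ∃ v, v ∈ M.lab s.1 ∧ v ∈ M.lab s'.1) (hlt : M.pos s.1 < M.pos s'.1)
    (a : M.lt s = true) (b : M.lt s' = false) : False := by
  have q1 := M.act_χ h.1
  have q2 := M.act_χ h'.1
  simp only [gt, Prod.mk.injEq] at hg
  obtain ⟨g1, g2⟩ := hg
  rcases M.cases6 h with c | c | c | c | c | c <;> obtain ⟨c1, c2, c3, c4, -, -⟩ := c <;>
    rw [c4] at a <;> simp only [Bool.false_eq_true] at a <;>
    rcases M.cases6 h' with d | d | d | d | d | d <;> obtain ⟨d1, d2, d3, d4, -, -⟩ := d <;>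
    rw [d4] at b <;> simp only [Bool.true_eq_false] at b <;> try omega
  · exact (M.nc4 hadj).2.2.1 ⟨M.pos_lt_of_sd q2 h.1 (by omega), hlt,
      M.pos_lt_of_sd h'.1 q1 (by omega)⟩
  · exact (M.nc4 hadj).1 ⟨hlt, M.pos_lt_of_sd h'.1 q1 (by omega), M.pos_lt_of_sd q1 q2 (by omega)⟩
  · exact (M.nc4 hadj).2.1 ⟨M.pos_lt_of_sd q1 q2 (by omega), M.pos_lt_of_sd q2 h.1 (by omega), hlt⟩

theorem pos_stp_lt {s s' : P × ℤ} (h : M.Inv s) (h' : M.Inv s') (hg : M.gt s = M.gt s')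
    (hadj : ∃ v, v ∈ M.lab s.1 ∧ v ∈ M.lab s'.1) (hlt : M.pos s.1 < M.pos s'.1)
    (hl : M.lt s = M.lt s') (hT : ¬ M.Term (M.stp s')) :
    M.pos (M.stp s).1 < M.pos (M.stp s').1 := by
  have q1 := M.act_χ h.1
  have q2 := M.act_χ h'.1
  have m4 := M.χ_pos_ne hlt.ne
  simp only [gt, Prod.mk.injEq] at hg
  obtain ⟨g1, g2⟩ := hg
  rcases M.cases6 h with c | c | c | c | c | c <;> obtain ⟨c1, c2, c3, c4, c5, -⟩ := c <;>
    rcases M.cases6 h' with d | d | d | d | d | d <;> obtain ⟨d1, d2, d3, d4, d5, -⟩ := d <;>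
    rw [c4, d4] at hl <;> simp only [Bool.true_eq_false, Bool.false_eq_true] at hl <;>
    rw [c5, d5] <;> try omega
  · simp only [Term, d5, true_and, M.ι_inv] at hT
    apply M.sd_rev _ _ q2 q1 (by omega) (fun h => hT h.symm)
    have := (M.nc4 hadj).1
    have := M.pos_lt_of_sd h'.1 q1 (by omega)
    omega
  · simp only [Term, d5, true_and, M.ι_inv] at hT
    apply M.sd_rev _ _ q2 q1 (by omega) (fun h => hT h.symm)
    have := (M.nc4 hadj).2.1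
    have := M.pos_lt_of_sd q2 h.1 (by omega)
    omega

theorem sd_exit {p p' : P} (h : M.χ p ≠ p) (h' : M.χ p' ≠ p')
    (he : M.sd (M.ι p) = M.sd (M.ι p')) : M.sd p = M.sd p' := by
  have a := M.sd_ι _ (M.act_ι _ h)
  have b := M.sd_ι _ (M.act_ι _ h')
  rw [M.ι_inv] at a b
  rw [a, b, he]

theorem pos_merge {s s' : P × ℤ} (h : M.Inv s) (h' : M.Inv s')
    (hg : M.gt (M.stp s) = M.gt (M.stp s'))
    (hadj : ∃ v, v ∈ M.lab s.1 ∧ v ∈ M.lab s'.1)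
    (hr : rk (M.gt (M.stp s)) (M.gt s) < rk (M.gt (M.stp s')) (M.gt s'))
    (hT : ¬ M.Term (M.stp s')) : M.pos (M.stp s).1 < M.pos (M.stp s').1 := by
  have q1 := M.act_χ h.1
  have q2 := M.act_χ h'.1
  obtain ⟨v, hv1, hv2⟩ := hadj
  simp only [gt, Prod.mk.injEq, rk] at hg hr
  obtain ⟨g1, g2⟩ := hg
  rcases M.cases6 h with c | c | c | c | c | c <;> obtain ⟨c1, c2, c3, c4, c5, c6⟩ := c <;>
    rcases M.cases6 h' with d | d | d | d | d | d <;> obtain ⟨d1, d2, d3, d4, d5, d6⟩ := d <;>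
    rw [c6, d6] at g2 hr <;> rw [c3, d3] at hr <;> rw [c5, d5] at g1 ⊢ <;>
    simp only at g1 ⊢ <;> try omega
  · exact M.pos_lt_of_sd h.1 h'.1 (by omega)
  · exact M.pos_lt_of_sd h.1 h'.1 (by omega)
  · have ex := M.sd_exit q1 q2 g1
    simp only [Term, d5, true_and, M.ι_inv] at hT
    apply M.sd_rev _ _ q2 q1 (by omega) (fun h => hT h.symm)
    have := (M.nc4 (p := s'.1) (p' := s.1) ⟨v, hv2, hv1⟩).2.2.2
    have := M.pos_lt_of_sd h'.1 q1 (by omega)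
    have := M.pos_lt_of_sd q2 h.1 (by omega)
    have := M.χ_pos_ne (M.pos_lt_of_sd h'.1 h.1 (by omega)).ne
    omega

theorem pred_unique {s s' : P × ℤ} (h : M.Inv s) (h' : M.Inv s')
    (hg : M.gt (M.stp s) = M.gt (M.stp s'))
    (hr : rk (M.gt (M.stp s)) (M.gt s) = rk (M.gt (M.stp s')) (M.gt s')) : M.gt s = M.gt s' := by
  have q1 := M.act_χ h.1
  have q2 := M.act_χ h'.1
  simp only [gt, Prod.mk.injEq, rk] at hg hr ⊢
  obtain ⟨g1, g2⟩ := hg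
  rcases M.cases6 h with c | c | c | c | c | c <;> obtain ⟨c1, c2, c3, c4, c5, c6⟩ := c <;>
    rcases M.cases6 h' with d | d | d | d | d | d <;> obtain ⟨d1, d2, d3, d4, d5, d6⟩ := d <;>
    rw [c6, d6] at g2 hr <;> rw [c3, d3] at hr ⊢ <;> rw [c5, d5] at g1 <;>
    simp only at g1 <;> try omega
  · have ex := M.sd_exit q1 q2 g1
    omega
  · have ex := M.sd_exit q1 q2 g1
    omega

end FM

end Pool.Agent.Lib.MP_a0d8b4_co
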