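import Pool.Agent.Lib.MP_a0d8b4_co.Defs

set_option autoImplicit false

namespace Pool.Agent.Lib.MP_a0d8b4_co

open Equiv Equiv.Perm

theorem sameCycle_of_step {X Y : Type} [Finite X] (f : Perm X) (f' : Perm Y) (r : X → Y)
    (hr : ∀ x, f'.SameCycle (r x) (r (f x))) {x y : X} (h : f.SameCycle x y) :
    f'.SameCycle (r x) (r y) := by
  obtain ⟨i, rfl⟩ := h.exists_nat_pow_eq
  induction i with
  | zero => simpa using SameCycle.refl _ _
  | succ i ih =>
    rw [pow_succ', Perm.mul_apply]
    exact (ih ⟨i, by simp⟩).trans (hr _)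

/-- the map on orbits -/
def orbMap {X Y : Type} [Finite X] (f : Perm X) (f' : Perm Y) (r : X → Y)
    (hr : ∀ x, f'.SameCycle (r x) (r (f x))) :
    Quotient (SameCycle.setoid f) → Quotient (SameCycle.setoid f') :=
  Quotient.map r (fun _ _ h => sameCycle_of_step f f' r hr h)

theorem orbits_le {X Y : Type} [Finite X] (f : Perm X) (f' : Perm Y) (r : X → Y)
    (hr : ∀ x, f'.SameCycle (r x) (r (f x))) (hs : ∀ y, ∃ x, r x = y) :
    orbits f' ≤ orbits f := by
  apply Nat.card_le_card_of_surjective (orbMap f f' r hr)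
  intro q
  obtain ⟨y, rfl⟩ := Quotient.exists_rep q
  obtain ⟨x, rfl⟩ := hs y
  exact ⟨Quotient.mk _ x, rfl⟩

theorem orbits_remove {X : Type} [Finite X] [DecidableEq X] (f : Perm X) (p : X) (hp : f p ≠ p) :
    orbits f + 1 ≤ orbits (f * swap p (f⁻¹ p)) := by
  set f' := f * swap p (f⁻¹ p) with hf'
  have hr : ∀ x, f.SameCycle (id x) (id (f' x)) := by
    intro x
    simp only [id, hf', Perm.mul_apply]
    by_cases h1 : x = p
    · subst h1
      simp only [swap_apply_left]
      simpa using SameCycle.refl _ _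
    · by_cases h2 : x = f⁻¹ p
      · subst h2
        rw [swap_apply_right]
        exact ⟨2, by
          rw [show (2 : ℤ) = 1 + 1 by rfl, zpow_add, Perm.mul_apply]; simp⟩
      · rw [swap_apply_of_ne_of_ne h1 h2]
        exact ⟨1, by simp⟩
  have hsurj : Function.Surjective (orbMap f' f id hr) := by
    intro q
    obtain ⟨y, rfl⟩ := Quotient.exists_rep q
    exact ⟨Quotient.mk _ y, rfl⟩
  have hfix : f' p = p := by simp [hf']
  have hninj : ¬ Function.Injective (orbMap f' f id hr) := by
    intro hinj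
    have h1 : orbMap f' f id hr (Quotient.mk _ p) = orbMap f' f id hr (Quotient.mk _ (f p)) := by
      apply Quotient.sound
      exact ⟨1, by simp⟩
    have h2 : f'.SameCycle p (f p) := Quotient.exact (hinj h1)
    exact hp (h2.eq_of_left hfix).symm
  unfold orbits
  by_contra hlt
  apply hninj
  have hle := Nat.card_le_card_of_surjective _ hsurj
  exact (Function.Surjective.bijective_of_nat_card_le hsurj (by omega)).1

theorem orbits_weight {X : Type} [Fintype X] [DecidableEq X] (f : Perm X) (w : X → ℕ) (c : ℕ)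
    (h : ∀ x, ∃ T : Finset X, (∀ y ∈ T, f.SameCycle x y) ∧ c ≤ ∑ y ∈ T, w y) :
    c * orbits f ≤ ∑ x, w x := by
  classical
  let _ : Fintype (Quotient (SameCycle.setoid f)) := Fintype.ofFinite _
  rw [← Finset.sum_fiberwise (s := Finset.univ) (g := fun x => (Quotient.mk (SameCycle.setoid f) x))]
  unfold orbits
  rw [Nat.card_eq_fintype_card, mul_comm, ← smul_eq_mul, ← Finset.card_univ, ← Finset.sum_const]
  apply Finset.sum_le_sum
  intro q _
  obtain ⟨x, rfl⟩ := Quotient.exists_rep q
  obtain ⟨T, hT, hc⟩ := h x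
  refine hc.trans (Finset.sum_le_sum_of_subset ?_)
  intro y hy
  simp only [Finset.mem_filter, Finset.mem_univ, true_and]
  exact Quotient.sound (hT y hy).symm

/-- `y` is the cyclic successor of `x` in `U` for the order given by `pos` -/
def Succ {X : Type} (U : Finset X) (pos : X → ℕ) (x y : X) : Prop :=
  y ∈ U ∧ ((pos x < pos y ∧ ∀ z ∈ U, ¬ (pos x < pos z ∧ pos z < pos y)) ∨
    ((∀ z ∈ U, pos z ≤ pos x) ∧ ∀ z ∈ U, pos y ≤ pos z))

theorem exists_succ {X : Type} (U : Finset X) (pos : X → ℕ) (x : X) (hx : x ∈ U) :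
    ∃ y, Succ U pos x y := by
  classical
  by_cases h : ∃ z ∈ U, pos x < pos z
  · obtain ⟨y, hy, hmin⟩ := Finset.exists_min_image (U.filter fun z => pos x < pos z) pos
      (by obtain ⟨z, hz, h⟩ := h; exact ⟨z, by simp [hz, h]⟩)
    rw [Finset.mem_filter] at hy
    refine ⟨y, hy.1, Or.inl ⟨hy.2, fun z hz h' => ?_⟩⟩
    have := hmin z (by simp [hz, h'.1])
    omega
  · obtain ⟨y, hy, hmin⟩ := Finset.exists_min_image U pos ⟨x, hx⟩
    push Not at h
    exact ⟨y, hy, Or.inr ⟨h, hmin⟩⟩

theorem Succ.left_unique {X : Type} {U : Finset X} {pos : X → ℕ} (hinj : Set.InjOn pos U)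
    {x x' y : X} (hx : x ∈ U) (hx' : x' ∈ U) (h : Succ U pos x y) (h' : Succ U pos x' y) :
    x = x' := by
  apply hinj hx hx'
  obtain ⟨hy, h | h⟩ := h <;> obtain ⟨-, h' | h'⟩ := h'
  · have := h.2 x' hx'; have := h'.2 x hx; omega
  · have := h'.2 x hx; omega
  · have := h.2 x' hx'; omega
  · have := h.1 x' hx'; have := h'.1 x hx; omega

theorem Succ.right_unique {X : Type} {U : Finset X} {pos : X → ℕ} (hinj : Set.InjOn pos U)
    {x y y' : X} (h : Succ U pos x y) (h' : Succ U pos x y') : y = y' := by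
  apply hinj h.1 h'.1
  obtain ⟨hy, h | h⟩ := h <;> obtain ⟨hy', h' | h'⟩ := h'
  · have := h.2 y' hy'; have := h'.2 y hy; omega
  · have := h'.1 y hy; omega
  · have := h.1 y' hy'; omega
  · have := h.2 y' hy'; have := h'.2 y hy; omega

theorem exists_succ_perm {X : Type} [Finite X] (U : Finset X) (pos : X → ℕ)
    (hinj : Set.InjOn pos U) : ∃ s : Perm X, ∀ x ∈ U, Succ U pos x (s x) := by
  classical
  choose! t ht using exists_succ U pos
  let t' : X → X := fun x => if x ∈ U then t x else x
  have hi : Function.Injective t' := by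
    intro x y hxy
    by_cases hx : x ∈ U <;> by_cases hy : y ∈ U <;> simp only [t', hx, hy, if_true, if_false] at hxy
    · exact Succ.left_unique hinj hx hy (ht x hx) (hxy ▸ ht y hy)
    · exact absurd (hxy ▸ (ht x hx).1) hy
    · exact absurd (hxy ▸ (ht y hy).1) hx
    · exact hxy
  refine ⟨Equiv.ofBijective t' (Finite.injective_iff_bijective.mp hi), fun x hx => ?_⟩
  simpa [t', hx] using ht x hx

theorem sameCycle_of_succ {X : Type} {U : Finset X} {pos : X → ℕ} (hinj : Set.InjOn pos U)
    (s : Perm X) (hs : ∀ x ∈ U, Succ U pos x (s x)) {x y : X} (hx : x ∈ U) (hy : y ∈ U) :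
    s.SameCycle x y := by
  have key : ∀ k, ∀ x ∈ U, pos x ≤ pos y → pos y - pos x = k → s.SameCycle x y := by
    intro k
    induction k using Nat.strong_induction_on with
    | _ k ih =>
      intro x hx hle hk
      rcases hle.eq_or_lt with h | h
      · rw [hinj hx hy h]
      · obtain ⟨h1, h2 | h2⟩ := hs x hx
        · have := h2.2 y hy
          exact (sameCycle_apply_left).mp (ih (pos y - pos (s x)) (by omega) (s x) h1 (by omega) rfl)
        · have := h2.1 y hy; omega
  have key2 : ∀ k, ∀ y ∈ U, pos y ≤ pos x → pos x - pos y = k → s.SameCycle y x := by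
    intro k
    induction k using Nat.strong_induction_on with
    | _ k ih =>
      intro y hy hle hk
      rcases hle.eq_or_lt with h | h
      · rw [hinj hy hx h]
      · obtain ⟨h1, h2 | h2⟩ := hs y hy
        · have := h2.2 x hx
          exact (sameCycle_apply_left).mp (ih (pos x - pos (s y)) (by omega) (s y) h1 (by omega) rfl)
        · have := h2.1 x hx; omega
  rcases le_total (pos x) (pos y) with h | h
  · exact key _ x hx h rfl
  · exact (key2 _ y hy h rfl).symm

end Pool.Agent.Lib.MP_a0d8b4_co
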