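import Pool.Agent.Lib.MP_a0d8b4_co.Strand
import Pool.Agent.Lib.MP_a0d8b4_co.Orb

set_option autoImplicit false

namespace Pool.Agent.Lib.MP_a0d8b4_co

open Finset Equiv

theorem NC.side {V P : Type} {pos : P → ℕ} {lab : P → Sym2 V} {χ : P → P} (h : NC pos lab χ)
    (hinv : ∀ x, χ (χ x) = x) (hlab : ∀ x, lab (χ x) = lab x) {a c : P}
    (hadj : ∃ v, v ∈ lab a ∧ v ∈ lab c) :
    ¬ (pos a < pos c ∧ pos c < pos (χ a) ∧ pos (χ a) < pos (χ c)) ∧
    ¬ (pos (χ a) < pos c ∧ pos c < pos a ∧ pos a < pos (χ c)) ∧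
    ¬ (pos c < pos a ∧ pos a < pos (χ c) ∧ pos (χ c) < pos (χ a)) ∧
    ¬ (pos c < pos (χ a) ∧ pos (χ a) < pos (χ c) ∧ pos (χ c) < pos a) := by
  obtain ⟨v, h1, h2⟩ := hadj
  refine ⟨h a c ⟨v, h1, h2⟩, ?_, h c a ⟨v, h2, h1⟩, ?_⟩
  · simpa only [hinv] using h (χ a) c ⟨v, by rwa [hlab], h2⟩
  · simpa only [hinv] using h c (χ a) ⟨v, h2, by rwa [hlab]⟩

theorem join {V P : Type} {pos : P → ℕ} (hpos : Function.Injective pos) {lab : P → Sym2 V}
    {χ : P → P} (h : NC pos lab χ) (hinv : ∀ x, χ (χ x) = x) (hlab : ∀ x, lab (χ x) = lab x)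
    {p p' : P} (hp : χ p ≠ p) (hp' : χ p' ≠ p') (hlt : pos p < pos p') (hl : lab p = lab p')
    (hb : ∀ c, χ c ≠ c → (∃ v, v ∈ lab p ∧ v ∈ lab c) → ¬ (pos p < pos c ∧ pos c < pos p')) :
    ∃ χ' : P → P, NC pos lab χ' ∧ (∀ x, χ' (χ' x) = x) ∧ (∀ x, lab (χ' x) = lab x) ∧
      ∀ x, χ' x ≠ x ↔ χ x ≠ x ∧ x ≠ p ∧ x ≠ p' := by
  classical
  have hinj : Function.Injective χ := Function.Involutive.injective hinv
  have hne : p ≠ p' := fun e => by rw [e] at hlt; omega
  let χ' : P → P := fun x => if x = p ∨ x = p' then x else if x = χ p then χ p' else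
    if x = χ p' then χ p else χ x
  have c1 : ∀ x, x = p ∨ x = p' → χ' x = x := fun x hx => if_pos hx
  have c4 : ∀ x, x ≠ p → x ≠ p' → x ≠ χ p → x ≠ χ p' → χ' x = χ x := by
    intro x a b c d; simp [χ', a, b, c, d]
  by_cases hc : χ p = p'
  · have hc' : χ p' = p := by rw [← hc, hinv]
    have c5 : ∀ x, x ≠ p → x ≠ p' → χ' x = χ x := fun x a b => c4 x a b (hc ▸ b) (hc' ▸ a)
    have c6 : ∀ x, χ' x = x ∨ χ' x = χ x := by
      intro x
      by_cases a : x = p ∨ x = p'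
      · exact Or.inl (c1 x a)
      · push Not at a; exact Or.inr (c5 x a.1 a.2)
    refine ⟨χ', fun a c hadj hh => ?_, fun x => ?_, fun x => ?_, fun x => ?_⟩
    · have := h a c hadj
      rcases c6 a with e1 | e1 <;> rcases c6 c with e2 | e2 <;> rw [e1, e2] at hh <;> omega
    · by_cases a : x = p ∨ x = p'
      · rw [c1 x a, c1 x a]
      · push Not at a
        rw [c5 x a.1 a.2, c5, hinv]
        · intro e; apply a.2; rw [← hinv x, e, hc]
        · intro e; apply a.1; rw [← hinv x, e, hc']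
    · rcases c6 x with e | e <;> rw [e]; exact hlab x
    · by_cases a : x = p ∨ x = p'
      · rw [c1 x a]; tauto
      · push Not at a; rw [c5 x a.1 a.2]; tauto
  · have hc' : χ p' ≠ p := fun e => hc (by rw [← e, hinv])
    have hab : χ p ≠ χ p' := fun e => hne (hinj e)
    have c2 : χ' (χ p) = χ p' := by simp [χ', hp, hc]
    have c3 : χ' (χ p') = χ p := by simp [χ', hp', hc', hab.symm]
    have gen : ∀ x, x ≠ p → x ≠ p' → x ≠ χ p → x ≠ χ p' →
        χ x ≠ p ∧ χ x ≠ p' ∧ χ x ≠ χ p ∧ χ x ≠ χ p' := by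
      intro x a b c d
      refine ⟨fun e => c (by rw [← e, hinv]), fun e => d (by rw [← e, hinv]), fun e => a (hinj e),
        fun e => b (hinj e)⟩
    have cases4 : ∀ x, (x = p ∨ x = p') ∨ x = χ p ∨ x = χ p' ∨
        (x ≠ p ∧ x ≠ p' ∧ x ≠ χ p ∧ x ≠ χ p') := by tauto
    -- an old chord does not separate the two ends of the new chord
    have main : ∀ c, c ≠ p → c ≠ p' → c ≠ χ p → c ≠ χ p' → (∃ v, v ∈ lab p ∧ v ∈ lab c) →
        pos c < pos (χ c) →
        (pos c < pos (χ p) ∧ pos (χ p) < pos (χ c) ↔ pos c < pos (χ p') ∧ pos (χ p') < pos (χ c)) := by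
      intro c a1 a2 a3 a4 hadj hlt'
      obtain ⟨b1, b2, b3, b4⟩ := gen c a1 a2 a3 a4
      have hact : χ c ≠ c := fun e => by rw [e] at hlt'; omega
      have s1 := h.side hinv hlab hadj
      have s2 := h.side hinv hlab (hl ▸ hadj)
      have t1 := hb c hact hadj
      have t2 := hb (χ c) (by rw [hinv]; exact hact.symm) (by rwa [hlab])
      have := hpos.ne a1; have := hpos.ne a2; have := hpos.ne a3; have := hpos.ne a4
      have := hpos.ne b1; have := hpos.ne b2; have := hpos.ne b3; have := hpos.ne b4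
      omega
    refine ⟨χ', fun a c hadj hh => ?_, fun x => ?_, fun x => ?_, fun x => ?_⟩
    · rcases cases4 a with ha | rfl | rfl | ⟨a1, a2, a3, a4⟩
      · rw [c1 a ha] at hh; omega
      · rcases cases4 c with hc | rfl | rfl | ⟨d1, d2, d3, d4⟩
        · rw [c1 c hc] at hh; omega
        · omega
        · rw [c2] at hh; omega
        · rw [c2, c4 c d1 d2 d3 d4] at hh
          have := main c d1 d2 d3 d4 (by rwa [hlab] at hadj) (by omega)
          omega
      · rcases cases4 c with hc | rfl | rfl | ⟨d1, d2, d3, d4⟩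
        · rw [c1 c hc] at hh; omega
        · rw [c3] at hh; omega
        · omega
        · rw [c3, c4 c d1 d2 d3 d4] at hh
          have := main c d1 d2 d3 d4 (by rwa [hlab, ← hl] at hadj) (by omega)
          omega
      · rw [c4 a a1 a2 a3 a4] at hh
        obtain ⟨v, v1, v2⟩ := hadj
        rcases cases4 c with hc | rfl | rfl | ⟨d1, d2, d3, d4⟩
        · rw [c1 c hc] at hh; omega
        · rw [c2] at hh
          have := main a a1 a2 a3 a4 ⟨v, by rwa [hlab] at v2, v1⟩ (by omega)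
          omega
        · rw [c3] at hh
          have := main a a1 a2 a3 a4 ⟨v, by rwa [hlab, ← hl] at v2, v1⟩ (by omega)
          omega
        · rw [c4 c d1 d2 d3 d4] at hh
          exact h a c ⟨v, v1, v2⟩ hh
    · rcases cases4 x with ha | rfl | rfl | ⟨a1, a2, a3, a4⟩
      · rw [c1 x ha, c1 x ha]
      · rw [c2, c3]
      · rw [c3, c2]
      · obtain ⟨b1, b2, b3, b4⟩ := gen x a1 a2 a3 a4
        rw [c4 x a1 a2 a3 a4, c4 _ b1 b2 b3 b4, hinv]
    · rcases cases4 x with ha | rfl | rfl | ⟨a1, a2, a3, a4⟩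
      · rw [c1 x ha]
      · rw [c2, hlab, hlab, hl]
      · rw [c3, hlab, hlab, hl]
      · rw [c4 x a1 a2 a3 a4, hlab]
    · rcases cases4 x with ha | rfl | rfl | ⟨a1, a2, a3, a4⟩
      · rw [c1 x ha]; tauto
      · rw [c2, hinv]; exact ⟨fun _ => ⟨hp.symm, hp, hc⟩, fun _ => hab.symm⟩
      · rw [c3, hinv]; exact ⟨fun _ => ⟨hp'.symm, hc', hp'⟩, fun _ => hab⟩
      · rw [c4 x a1 a2 a3 a4]; tauto

/-- static data of the polygon model -/
structure Base (V P : Type) where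
  pos : P → ℕ
  ι : P → P
  e : V → V → P
  lab : P → Sym2 V
  top : P
  pos_inj : Function.Injective pos
  ι_inv : ∀ x, ι (ι x) = x
  ι_e : ∀ u w, u ≠ w → ι (e u w) = e u w
  fix : ∀ x, ι x = x → ∃ u w, u ≠ w ∧ x = e u w
  e_inj : ∀ u w u' w', u ≠ w → u' ≠ w' → e u w = e u' w' → u = u' ∧ w = w'
  lab_e : ∀ u w, u ≠ w → lab (e u w) = s(u, w)
  lab_ι : ∀ x, lab (ι x) = lab x
  top_fix : ι top = top
  top_max : ∀ z, pos z ≤ pos top
  block : ∀ u w w' x, u ≠ w → u ≠ w' → pos (e u w) < pos x → pos x < pos (e u w') →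
    ∃ w'', u ≠ w'' ∧ x = e u w''

/-- dynamic data of the polygon model -/
structure State {V P : Type} [Fintype P] (B : Base V P) (c0 : ℕ) where
  S : Finset P
  f : Perm P
  χ : P → P
  ι_S : ∀ x ∈ S, B.ι x ∈ S
  fix_S : ∀ x, B.ι x = x → x ∈ S
  f_out : ∀ x, x ∉ S → f x = x
  f_succ : ∀ x ∈ S, Succ S B.pos x (B.ι (f x))
  χ_inv : ∀ x, χ (χ x) = x
  lab_χ : ∀ x, B.lab (χ x) = B.lab x
  act_S : ∀ x, χ x ≠ x → x ∈ S
  act_fix : ∀ x, B.ι x = x → χ x ≠ x
  act_ι : ∀ x, χ x ≠ x → χ (B.ι x) ≠ B.ι x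
  nc : NC B.pos B.lab χ
  euler : 2 * Fintype.card P + 2 ≤ 2 * orbits f + c0 + S.card

namespace State

variable {V P : Type} [Fintype P] [DecidableEq P] {B : Base V P} {c0 : ℕ} (T : State B c0)

omit [DecidableEq P] in
theorem succ_lt {x : P} (hx : x ∈ T.S) (hn : B.ι x ≠ x) :
    B.pos x < B.pos (B.ι (T.f x)) ∧ ∀ z ∈ T.S, ¬ (B.pos x < B.pos z ∧ B.pos z < B.pos (B.ι (T.f x))) := by
  rcases (T.f_succ x hx).2 with h | h
  · exact h
  · exfalso
    have h1 := h.1 _ (T.fix_S _ B.top_fix)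
    have h2 := B.top_max x
    have : x = B.top := B.pos_inj (by omega)
    exact hn (this ▸ B.top_fix)

omit [DecidableEq P] in
theorem f_mem {x : P} (hx : x ∈ T.S) : T.f x ∈ T.S := by
  have := T.ι_S _ (T.f_succ x hx).1
  rwa [B.ι_inv] at this

open Classical in
/-- size of a state -/
noncomputable def size : ℕ := T.S.card + (univ.filter fun x => T.χ x ≠ x).card

theorem zip {p : P} (hp : p ∈ T.S) (hn : B.ι p ≠ p) (hf : T.f p = p) :
    ∃ T' : State B c0, T'.size < T.size := by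
  classical
  obtain ⟨h1, h2⟩ := T.succ_lt hp hn
  rw [hf] at h1 h2
  have hq : B.ι p ∈ T.S := T.ι_S p hp
  have hqn : B.ι (B.ι p) ≠ B.ι p := by rw [B.ι_inv]; exact hn.symm
  obtain ⟨h3, h4⟩ := T.succ_lt hq hqn
  have hfq : T.f (B.ι p) ≠ B.ι p := by
    intro e; rw [e, B.ι_inv] at h3; omega
  obtain ⟨χ', a1, a2, a3, a4⟩ : ∃ χ' : P → P, NC B.pos B.lab χ' ∧ (∀ x, χ' (χ' x) = x) ∧
      (∀ x, B.lab (χ' x) = B.lab x) ∧ ∀ x, χ' x ≠ x ↔ T.χ x ≠ x ∧ x ≠ p ∧ x ≠ B.ι p := by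
    by_cases ha : T.χ p = p
    · refine ⟨T.χ, T.nc, T.χ_inv, T.lab_χ, fun x => ⟨fun h => ⟨h, ?_, ?_⟩, fun h => h.1⟩⟩
      · rintro rfl; exact h ha
      · rintro rfl
        have := T.act_ι _ h
        rw [B.ι_inv] at this; exact this ha
    · exact join B.pos_inj T.nc T.χ_inv T.lab_χ ha (T.act_ι _ ha) h1 (B.lab_ι p).symm
        (fun c hc _ => h2 c (T.act_S c hc))
  have hcard : ((T.S.erase p).erase (B.ι p)).card + 2 = T.S.card := by
    rw [card_erase_of_mem (mem_erase.mpr ⟨hn, hq⟩), card_erase_of_mem hp]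
    have : 1 < T.S.card := one_lt_card.mpr ⟨p, hp, _, hq, hn.symm⟩
    omega
  have hιinj : Function.Injective B.ι := Function.Involutive.injective B.ι_inv
  refine ⟨⟨(T.S.erase p).erase (B.ι p), T.f * swap (B.ι p) (T.f⁻¹ (B.ι p)), χ', ?_, ?_, ?_, ?_,
    a2, a3, ?_, ?_, ?_, a1, ?_⟩, ?_⟩
  · intro x hx
    simp only [mem_erase] at hx ⊢
    exact ⟨fun e => hx.2.1 (hιinj e), fun e => hx.1 (by rw [← e, B.ι_inv]), T.ι_S x hx.2.2⟩
  · intro x hx
    simp only [mem_erase]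
    exact ⟨fun e => hqn (e ▸ hx), fun e => hn (e ▸ hx), T.fix_S x hx⟩
  · intro x hx
    simp only [mem_erase, not_and_or, not_not] at hx
    by_cases e1 : x = B.ι p
    · rw [e1]; simp
    · have hfx : T.f x = x := by
        rcases hx with hx | hx | hx
        · exact absurd hx e1
        · rw [hx, hf]
        · exact T.f_out x hx
      have e2 : x ≠ T.f⁻¹ (B.ι p) := by
        intro e
        apply e1
        rw [← hfx, e]; simp
      rw [Perm.mul_apply, swap_apply_of_ne_of_ne e1 e2, hfx]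
  · intro x hx
    simp only [mem_erase] at hx
    obtain ⟨x1, x2, x3⟩ := hx
    have hs := T.f_succ x x3
    by_cases e2 : x = T.f⁻¹ (B.ι p)
    · have e3 : T.f x = B.ι p := by rw [e2]; simp
      rw [e3, B.ι_inv] at hs
      have e4 : (T.f * swap (B.ι p) (T.f⁻¹ (B.ι p))) x = T.f (B.ι p) := by
        rw [e2, Perm.mul_apply, swap_apply_right]
      rw [e4]
      have m1 := (T.f_succ _ hq).1
      refine ⟨?_, ?_⟩
      · simp only [mem_erase]
        exact ⟨fun e => by rw [e] at h3; omega, fun e => by rw [e] at h3; omega, m1⟩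
      · rcases hs.2 with hs | hs
        · left
          refine ⟨by omega, fun z hz => ?_⟩
          simp only [mem_erase] at hz
          have := hs.2 z hz.2.2; have := h2 z hz.2.2; have := h4 z hz.2.2
          have := B.pos_inj.ne hz.1; have := B.pos_inj.ne hz.2.1
          omega
        · right
          refine ⟨fun z hz => hs.1 z (mem_of_mem_erase (mem_of_mem_erase hz)), fun z hz => ?_⟩
          simp only [mem_erase] at hz
          have := hs.2 z hz.2.2; have := h2 z hz.2.2; have := h4 z hz.2.2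
          have := B.pos_inj.ne hz.1; have := B.pos_inj.ne hz.2.1
          omega
    · rw [Perm.mul_apply, swap_apply_of_ne_of_ne x1 e2]
      refine ⟨?_, ?_⟩
      · simp only [mem_erase]
        refine ⟨fun e => x2 (T.f.injective ((hιinj e).trans hf.symm)), fun e => e2 ?_, hs.1⟩
        rw [← e, B.ι_inv]; simp
      · rcases hs.2 with hs | hs
        · exact Or.inl ⟨hs.1, fun z hz => hs.2 z (mem_of_mem_erase (mem_of_mem_erase hz))⟩
        · exact Or.inr ⟨fun z hz => hs.1 z (mem_of_mem_erase (mem_of_mem_erase hz)),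
            fun z hz => hs.2 z (mem_of_mem_erase (mem_of_mem_erase hz))⟩
  · intro x hx
    obtain ⟨b1, b2, b3⟩ := (a4 x).mp hx
    simp only [mem_erase]
    exact ⟨b3, b2, T.act_S x b1⟩
  · intro x hx
    exact (a4 x).mpr ⟨T.act_fix x hx, fun e => hn (e ▸ hx), fun e => hqn (e ▸ hx)⟩
  · intro x hx
    obtain ⟨b1, b2, b3⟩ := (a4 x).mp hx
    exact (a4 _).mpr ⟨T.act_ι x b1, fun e => b3 (by rw [← e, B.ι_inv]), fun e => b2 (hιinj e)⟩
  · have := orbits_remove T.f (B.ι p) hfq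
    have := T.euler
    omega
  · have : (univ.filter fun x => χ' x ≠ x).card ≤ (univ.filter fun x => T.χ x ≠ x).card := by
      apply card_le_card
      intro x hx
      simp only [mem_filter, mem_univ, true_and] at hx ⊢
      exact ((a4 x).mp hx).1
    simp only [size]
    convert (show ((T.S.erase p).erase (B.ι p)).card + (univ.filter fun x => χ' x ≠ x).card <
      T.S.card + (univ.filter fun x => T.χ x ≠ x).card by omega)

/-- thin corners -/
def Thin (z : P) : Prop :=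
  B.pos z < B.pos (B.ι (T.f z)) ∧ ((B.ι z ≠ z ∧ B.ι (T.f z) ≠ T.f z ∧ T.f (T.f z) = z) ∨
    ∃ u w w', u ≠ w ∧ u ≠ w' ∧ z = B.e u w ∧ B.ι (T.f z) = B.e u w')

open Classical in
/-- index of the side of a point -/
noncomputable def sd (x : P) : ℕ := (T.S.filter fun z => B.pos z < B.pos x ∧ ¬ T.Thin z).card

omit [DecidableEq P] in
theorem sd_mono {a b : P} (h : B.pos a ≤ B.pos b) : T.sd a ≤ T.sd b := by
  classical
  unfold sd
  apply card_le_card
  intro z hz
  simp only [mem_filter] at hz ⊢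
  exact ⟨hz.1, by omega, hz.2.2⟩

omit [DecidableEq P] in
theorem sd_eq_of {a b : P} (h : B.pos a ≤ B.pos b)
    (ht : ∀ z ∈ T.S, B.pos a ≤ B.pos z → B.pos z < B.pos b → T.Thin z) : T.sd a = T.sd b := by
  classical
  apply le_antisymm (T.sd_mono h)
  unfold sd
  apply card_le_card
  intro z hz
  simp only [mem_filter] at hz ⊢
  refine ⟨hz.1, ?_, hz.2.2⟩
  by_contra hlt
  exact hz.2.2 (ht z hz.1 (by omega) hz.2.1)

omit [DecidableEq P] in
theorem sd_thin {z : P} (hz : z ∈ T.S) (ht : T.Thin z) : T.sd z = T.sd (B.ι (T.f z)) := by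
  apply T.sd_eq_of ht.1.le
  intro y hy h1 h2
  rcases (T.f_succ z hz).2 with h | h
  · have := h.2 y hy
    obtain rfl : z = y := B.pos_inj (by omega)
    exact ht
  · have := h.1 _ (T.f_succ z hz).1
    have := ht.1
    omega

omit [DecidableEq P] in
theorem thin_of_sd {x y : P} (hx : x ∈ T.S) (h : B.pos x < B.pos y) (he : T.sd x = T.sd y) :
    T.Thin x := by
  classical
  by_contra hn
  have : T.sd x < T.sd y := by
    unfold sd
    apply card_lt_card
    refine ⟨fun z hz => ?_, fun hsub => ?_⟩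
    · simp only [mem_filter] at hz ⊢
      exact ⟨hz.1, by omega, hz.2.2⟩
    · have := hsub (mem_filter.mpr ⟨hx, h, hn⟩)
      simp at this
  omega

omit [DecidableEq P] in
theorem same_side {x y : P} (hx : x ∈ T.S) (hy : y ∈ T.S) (h : B.pos x < B.pos y)
    (he : T.sd x = T.sd y) :
    (∃ u w w', u ≠ w ∧ u ≠ w' ∧ x = B.e u w ∧ y = B.e u w') ∨
    (B.ι x ≠ x ∧ B.ι y ≠ y ∧ B.pos (B.ι y) < B.pos (B.ι x) ∧ T.sd (B.ι x) = T.sd (B.ι y)) := by
  induction hd : B.pos y - B.pos x using Nat.strong_induction_on generalizing x with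
  | _ d ih =>
    have ht := T.thin_of_sd hx h he
    have hs := T.f_succ x hx
    have hle : B.pos (B.ι (T.f x)) ≤ B.pos y := by
      rcases hs.2 with h' | h'
      · have := h'.2 y hy; omega
      · exact h'.2 y hy
    have base : (∃ u w w', u ≠ w ∧ u ≠ w' ∧ x = B.e u w ∧ B.ι (T.f x) = B.e u w') ∨
        (B.ι x ≠ x ∧ B.ι (B.ι (T.f x)) ≠ B.ι (T.f x) ∧ B.pos (B.ι (B.ι (T.f x))) < B.pos (B.ι x) ∧
          T.sd (B.ι x) = T.sd (B.ι (B.ι (T.f x)))) := by
      rcases ht.2 with ⟨a, b, c⟩ | h'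
      · right
        rw [B.ι_inv]
        have h1 := (T.succ_lt (T.f_mem hx) b).1
        have h2 := T.sd_thin (T.f_mem hx) ⟨h1, Or.inl ⟨b, by rwa [c], by rw [c]⟩⟩
        rw [c] at h1 h2
        exact ⟨a, b.symm, h1, h2.symm⟩
      · exact Or.inl h'
    rcases hle.eq_or_lt with h' | h'
    · rw [← B.pos_inj h']; exact base
    · have h3 := ht.1
      have ih' := ih _ (by omega) hs.1 h' ((T.sd_thin hx ht).symm.trans he) rfl
      rcases base with ⟨u, w, w', a1, a2, a3, a4⟩ | ⟨a1, a2, a3, a4⟩ <;>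
        rcases ih' with ⟨u', v, v', b1, b2, b3, b4⟩ | ⟨b1, b2, b3, b4⟩
      · obtain ⟨rfl, -⟩ := B.e_inj _ _ _ _ a2 b1 (a4.symm.trans b3)
        exact Or.inl ⟨u, w, v', a1, b2, a3, b4⟩
      · exact absurd (by rw [a4, B.ι_e _ _ a2]) b1
      · exact absurd (by rw [b3, B.ι_e _ _ b1]) a2
      · exact Or.inr ⟨a1, b2, by omega, a4.trans b4⟩

omit [DecidableEq P] in
theorem thin_end {u w w' : V} (h : u ≠ w) (h' : u ≠ w') {z : P} (hz : z ∈ T.S)
    (h1 : B.pos (B.e u w) ≤ B.pos z) (h2 : B.pos z < B.pos (B.e u w')) : T.Thin z := by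
  have m := T.fix_S _ (B.ι_e u w' h')
  obtain ⟨a, ha, rfl⟩ : ∃ a, u ≠ a ∧ z = B.e u a := by
    rcases h1.eq_or_lt with e | e
    · exact ⟨w, h, (B.pos_inj e).symm⟩
    · exact B.block u w w' z h h' e h2
  rcases (T.f_succ _ hz).2 with s | s
  · refine ⟨s.1, Or.inr ?_⟩
    have := s.2 _ m
    rcases (show B.pos (B.ι (T.f (B.e u a))) ≤ B.pos (B.e u w') by omega).eq_or_lt with e | e
    · exact ⟨u, a, w', ha, h', rfl, B.pos_inj e⟩
    · obtain ⟨b, hb, e'⟩ := B.block u a w' _ ha h' s.1 e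
      exact ⟨u, a, b, ha, hb, rfl, e'⟩
  · have := s.1 _ m; omega

omit [DecidableEq P] in
theorem sd_block {u w w' : V} (h : u ≠ w) (h' : u ≠ w') : T.sd (B.e u w) = T.sd (B.e u w') := by
  rcases le_total (B.pos (B.e u w)) (B.pos (B.e u w')) with hle | hle
  · exact T.sd_eq_of hle fun z hz a b => T.thin_end h h' hz a b
  · exact (T.sd_eq_of hle fun z hz a b => T.thin_end h' h hz a b).symm

omit [DecidableEq P] in
theorem sd_ι {x y : P} (hx : x ∈ T.S) (hy : y ∈ T.S) (he : T.sd x = T.sd y) :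
    T.sd (B.ι x) = T.sd (B.ι y) := by
  rcases lt_trichotomy (B.pos x) (B.pos y) with h | h | h
  · rcases T.same_side hx hy h he with ⟨u, w, w', a1, a2, rfl, rfl⟩ | h'
    · rwa [B.ι_e _ _ a1, B.ι_e _ _ a2]
    · exact h'.2.2.2
  · rw [B.pos_inj h]
  · rcases T.same_side hy hx h he.symm with ⟨u, w, w', a1, a2, rfl, rfl⟩ | h'
    · rwa [B.ι_e _ _ a1, B.ι_e _ _ a2]
    · exact h'.2.2.2.symm

theorem uturn {x0 : P} (h0 : T.χ x0 ≠ x0) (hs0 : T.sd (T.χ x0) = T.sd x0) :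
    ∃ T' : State B c0, T'.size < T.size := by
  classical
  have hex : ∃ d, ∃ x, B.pos x < B.pos (T.χ x) ∧ T.sd (T.χ x) = T.sd x ∧
      B.pos (T.χ x) - B.pos x = d := by
    rcases lt_trichotomy (B.pos x0) (B.pos (T.χ x0)) with h | h | h
    · exact ⟨_, x0, h, hs0, rfl⟩
    · exact absurd (B.pos_inj h).symm h0
    · exact ⟨_, T.χ x0, by rwa [T.χ_inv], by rw [T.χ_inv, hs0], rfl⟩
  obtain ⟨x, hlt, hsd, hd⟩ := Nat.find_spec hex
  have hmin : ∀ y, B.pos y < B.pos (T.χ y) → T.sd (T.χ y) = T.sd y →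
      B.pos (T.χ x) - B.pos x ≤ B.pos (T.χ y) - B.pos y := fun y a b => by
    rw [hd]; exact Nat.find_min' hex ⟨y, a, b, rfl⟩
  have hx : T.χ x ≠ x := fun e => by rw [e] at hlt; omega
  have hx' : T.χ (T.χ x) ≠ T.χ x := by rw [T.χ_inv]; exact hx.symm
  have hb : ∀ c, T.χ c ≠ c → (∃ v, v ∈ B.lab x ∧ v ∈ B.lab c) →
      ¬ (B.pos x < B.pos c ∧ B.pos c < B.pos (T.χ x)) := by
    rintro c hc hadj ⟨c1, c2⟩
    have s := T.nc.side T.χ_inv T.lab_χ hadj
    obtain ⟨v, v1, v2⟩ := hadj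
    have s' := T.nc.side T.χ_inv T.lab_χ (a := x) (c := T.χ c) ⟨v, v1, by rwa [T.lab_χ]⟩
    rw [T.χ_inv] at s'
    have n1 : B.pos (T.χ c) ≠ B.pos x := fun e => by
      have := congrArg T.χ (B.pos_inj e); rw [T.χ_inv] at this; rw [this] at c2; omega
    have n2 : B.pos (T.χ c) ≠ B.pos (T.χ x) := fun e => by
      have := congrArg T.χ (B.pos_inj e); rw [T.χ_inv, T.χ_inv] at this; rw [this] at c1; omega
    have n3 : B.pos (T.χ c) ≠ B.pos c := B.pos_inj.ne hc
    have i1 : B.pos x < B.pos (T.χ c) := by omega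
    have i2 : B.pos (T.χ c) < B.pos (T.χ x) := by omega
    have := T.sd_mono c1.le; have := T.sd_mono c2.le
    have := T.sd_mono i1.le; have := T.sd_mono i2.le
    rcases lt_or_gt_of_ne n3 with h | h
    · have := hmin (T.χ c) (by rwa [T.χ_inv]) (by rw [T.χ_inv]; omega)
      rw [T.χ_inv] at this; omega
    · have := hmin c h (by omega); omega
  have xS := T.act_S x hx
  have xS' := T.act_S _ hx'
  obtain ⟨n1, n2, r1, r2⟩ : B.ι x ≠ x ∧ B.ι (T.χ x) ≠ T.χ x ∧ B.pos (B.ι (T.χ x)) < B.pos (B.ι x) ∧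
      T.sd (B.ι x) = T.sd (B.ι (T.χ x)) := by
    rcases T.same_side xS xS' hlt hsd.symm with ⟨u, w, w', a1, a2, a3, a4⟩ | h
    · exfalso
      have := T.lab_χ x
      rw [a4, a3, B.lab_e _ _ a1, B.lab_e _ _ a2, Sym2.congr_right] at this
      rw [this, ← a3] at a4
      exact hx a4
    · exact h
  obtain ⟨χ1, a1, a2, a3, a4⟩ := join B.pos_inj T.nc T.χ_inv T.lab_χ hx hx' hlt (T.lab_χ x).symm hb
  have hιinj : Function.Injective B.ι := Function.Involutive.injective B.ι_inv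
  obtain ⟨χ', b1, b2, b3, b4⟩ : ∃ χ' : P → P, NC B.pos B.lab χ' ∧ (∀ y, χ' (χ' y) = y) ∧
      (∀ y, B.lab (χ' y) = B.lab y) ∧ ∀ y, χ' y ≠ y ↔ T.χ y ≠ y ∧ y ≠ x ∧ y ≠ T.χ x ∧
        y ≠ B.ι x ∧ y ≠ B.ι (T.χ x) := by
    by_cases he : B.ι x = T.χ x
    · refine ⟨χ1, a1, a2, a3, fun y => ?_⟩
      rw [a4, ← he, B.ι_inv]; tauto
    · have he' : B.ι (T.χ x) ≠ x := fun e => he (by rw [← e, B.ι_inv, e])
      obtain ⟨χ2, c1, c2, c3, c4⟩ := join B.pos_inj a1 a2 a3
        ((a4 _).mpr ⟨T.act_ι _ hx', he', n2⟩) ((a4 _).mpr ⟨T.act_ι _ hx, n1, he⟩) r1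
        (by rw [B.lab_ι, B.lab_ι, T.lab_χ]) (by
          rintro c hc hadj ⟨d1, d2⟩
          have hc' := ((a4 c).mp hc).1
          have cS := T.act_S c hc'
          have := T.sd_mono d1.le; have := T.sd_mono d2.le
          rw [B.lab_ι, T.lab_χ, ← B.lab_ι c] at hadj
          apply hb _ (T.act_ι c hc') hadj
          constructor
          · rcases T.same_side cS (T.ι_S _ xS) d2 (by omega) with ⟨u, w, w', e1, e2, e3, e4⟩ | h
            · exact absurd (by rw [← B.ι_inv x, e4, B.ι_e _ _ e2, B.ι_e _ _ e2]) n1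
            · simpa only [B.ι_inv] using h.2.2.1
          · rcases T.same_side (T.ι_S _ xS') cS d1 (by omega) with ⟨u, w, w', e1, e2, e3, e4⟩ | h
            · exact absurd (by rw [← B.ι_inv (T.χ x), e3, B.ι_e _ _ e1, B.ι_e _ _ e1]) n2
            · simpa only [B.ι_inv] using h.2.2.1)
      refine ⟨χ2, c1, c2, c3, fun y => ?_⟩
      rw [c4, a4]; tauto
  refine ⟨⟨T.S, T.f, χ', T.ι_S, T.fix_S, T.f_out, T.f_succ, b2, b3,
    fun y hy => T.act_S y ((b4 y).mp hy).1, fun y hy => ?_, fun y hy => ?_, b1, T.euler⟩, ?_⟩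
  · refine (b4 y).mpr ⟨T.act_fix y hy, fun e => n1 (e ▸ hy), fun e => n2 (e ▸ hy), fun e => ?_,
      fun e => ?_⟩
    · rw [e, B.ι_inv] at hy; exact n1 hy.symm
    · rw [e, B.ι_inv] at hy; exact n2 hy.symm
  · obtain ⟨c1, c2, c3, c4, c5⟩ := (b4 y).mp hy
    exact (b4 _).mpr ⟨T.act_ι y c1, fun e => c4 (by rw [← e, B.ι_inv]),
      fun e => c5 (by rw [← e, B.ι_inv]), fun e => c2 (hιinj e), fun e => c3 (hιinj e)⟩
  · have : (univ.filter fun y => χ' y ≠ y).card < (univ.filter fun y => T.χ y ≠ y).card := by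
      apply card_lt_card
      refine ⟨fun y hy => ?_, fun hsub => ?_⟩
      · simp only [mem_filter, mem_univ, true_and] at hy ⊢
        exact ((b4 y).mp hy).1
      · have := hsub (mem_filter.mpr ⟨mem_univ x, hx⟩)
        simp only [mem_filter, mem_univ, true_and] at this
        exact ((b4 x).mp this).2.1 rfl
    simp only [size]
    convert (show T.S.card + (univ.filter fun x => χ' x ≠ x).card <
      T.S.card + (univ.filter fun x => T.χ x ≠ x).card by omega)

include T in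
theorem exists_reduced : ∃ T' : State B c0, (∀ p ∈ T'.S, B.ι p ≠ p → T'.f p ≠ p) ∧
    ∀ x, T'.χ x ≠ x → T'.sd (T'.χ x) ≠ T'.sd x := by
  induction h : T.size using Nat.strong_induction_on generalizing T with
  | _ d ih =>
    by_cases h1 : ∀ p ∈ T.S, B.ι p ≠ p → T.f p ≠ p
    · by_cases h2 : ∀ x, T.χ x ≠ x → T.sd (T.χ x) ≠ T.sd x
      · exact ⟨T, h1, h2⟩
      · push Not at h2
        obtain ⟨x, a, b⟩ := h2
        obtain ⟨T', hT'⟩ := T.uturn a b
        exact ih _ (h ▸ hT') T' rfl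
    · push Not at h1
      obtain ⟨p, a, b, c⟩ := h1
      obtain ⟨T', hT'⟩ := T.zip a b c
      exact ih _ (h ▸ hT') T' rfl

end State

end Pool.Agent.Lib.MP_a0d8b4_co
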