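import Pool.Agent.Lib.MP_a0d8b4_co.Model

set_option autoImplicit false

namespace Pool.Agent.Lib.MP_a0d8b4_co

open Finset

namespace FM

variable {V P : Type} {Ns : ℕ} (M : FM V P Ns)

/-- state of the strand from `u` to `w` at time `t` -/
def st (u w : V) (t : ℕ) : P × ℤ := M.stp^[t] (M.e u w, M.rt u)

theorem st_zero (u w : V) : M.st u w 0 = (M.e u w, M.rt u) := rfl

theorem st_succ (u w : V) (t : ℕ) : M.st u w (t + 1) = M.stp (M.st u w t) :=
  Function.iterate_succ_apply' _ _ _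

theorem inv_st {u w : V} (h : u ≠ w) (t : ℕ) : M.Inv (M.st u w t) := by
  induction t with
  | zero =>
    refine ⟨M.act_e u w h, ?_⟩
    simp only [st_zero, M.sd_e u w h]
    omega
  | succ t ih => rw [st_succ]; exact M.inv_stp ih

theorem lab_st {u w : V} (h : u ≠ w) (t : ℕ) : M.lab (M.st u w t).1 = s(u, w) := by
  induction t with
  | zero => exact M.lab_e u w h
  | succ t ih => rw [st_succ, M.lab_stp, ih]

theorem gt_zero {u w : V} (h : u ≠ w) : M.gt (M.st u w 0) = (M.rt u, 1) := by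
  simp [gt, ty, st_zero, M.sd_e u w h]

theorem adj_st {u w u' w' : V} (h : u ≠ w) (h' : u' ≠ w') (ha : Adj u w u' w') (t t' : ℕ) :
    ∃ v, v ∈ M.lab (M.st u w t).1 ∧ v ∈ M.lab (M.st u' w' t').1 := by
  rw [M.lab_st h, M.lab_st h']
  rcases ha with rfl | rfl | rfl | rfl
  · exact ⟨u, by simp, by simp⟩
  · exact ⟨u, by simp, by simp⟩
  · exact ⟨w, by simp, by simp⟩
  · exact ⟨w, by simp, by simp⟩

theorem reach (s : P × ℤ) (h : M.Inv s) :
    ∃ t, 0 < t ∧ M.stp^[t] s = (M.ι (M.χ s.1), M.sd (M.ι (M.χ s.1))) := by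
  induction hd : (M.sd (M.χ s.1) - s.2).natAbs using Nat.strong_induction_on generalizing s with
  | _ d ih =>
    by_cases a : s.2 = M.sd (M.χ s.1)
    · exact ⟨1, one_pos, by simp [stp, a]⟩
    · have h1 : (M.stp s).1 = s.1 := by unfold stp; split_ifs <;> rfl
      have h2 : (M.sd (M.χ (M.stp s).1) - (M.stp s).2).natAbs < d := by
        rw [h1]; unfold stp; split_ifs <;> simp only <;> omega
      obtain ⟨t, ht, he⟩ := ih _ h2 (M.stp s) (M.inv_stp h) rfl
      exact ⟨t + 1, by omega, by rw [Function.iterate_succ_apply, he, h1]⟩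

/-- macroscopic points of a strand -/
def mp (u w : V) (i : ℕ) : P := (M.ι ∘ M.χ)^[i] (M.e u w)

theorem mp_succ (u w : V) (i : ℕ) : M.mp u w (i + 1) = M.ι (M.χ (M.mp u w i)) :=
  Function.iterate_succ_apply' _ _ _

theorem act_mp {u w : V} (h : u ≠ w) (i : ℕ) : M.χ (M.mp u w i) ≠ M.mp u w i := by
  induction i with
  | zero => exact M.act_e u w h
  | succ i ih => rw [mp_succ]; exact M.act_ι _ (M.act_χ ih)

theorem reach_mp {u w : V} (h : u ≠ w) (i : ℕ) :
    ∃ t, i ≤ t ∧ M.st u w t = (M.mp u w i, M.sd (M.mp u w i)) := by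
  induction i with
  | zero => exact ⟨0, le_rfl, by simp [st_zero, mp, M.sd_e u w h]⟩
  | succ i ih =>
    obtain ⟨t, ht, he⟩ := ih
    obtain ⟨t', ht', he'⟩ := M.reach _ (M.inv_st h t)
    refine ⟨t' + t, by omega, ?_⟩
    rw [st, Function.iterate_add_apply]
    change M.stp^[t'] (M.st u w t) = _
    rw [he', he, mp_succ]

theorem exists_term [Finite P] {u w : V} (h : u ≠ w) :
    {t | 0 < t ∧ M.Term (M.st u w t)}.Nonempty := by
  have hinj : Function.Injective (M.ι ∘ M.χ) :=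
    (Function.Involutive.injective M.ι_inv).comp (Function.Involutive.injective M.χ_inv)
  obtain ⟨r, hr, hp⟩ := hinj.mem_periodicPts (M.e u w)
  obtain ⟨t, ht, he⟩ := M.reach_mp h r
  have : M.mp u w r = M.e u w := hp
  refine ⟨t, by omega, ?_⟩
  rw [he, this]
  exact ⟨rfl, M.ι_e u w h⟩

theorem mp_return {u w : V} (h : u ≠ w) (r : ℕ) (hr : 0 < r) (he : M.mp u w r = M.e u w) :
    ∃ j, 0 < j ∧ j < r ∧ M.ι (M.mp u w j) = M.mp u w j := by
  have key : ∀ i j, i + j + 1 = r → M.mp u w j = M.χ (M.mp u w i) := by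
    intro i
    induction i with
    | zero =>
      intro j hj
      have h1 : M.mp u w (j + 1) = M.e u w := by rw [← he]; congr 1; omega
      rw [mp_succ] at h1
      have h2 := congrArg M.ι h1
      rw [M.ι_inv, M.ι_e u w h] at h2
      have h3 := congrArg M.χ h2
      rw [M.χ_inv] at h3
      exact h3
    | succ i ih =>
      intro j hj
      have h1 := ih (j + 1) (by omega)
      rw [mp_succ] at h1
      have h2 := congrArg M.ι h1
      rw [M.ι_inv, ← mp_succ] at h2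
      rw [← h2, M.χ_inv]
  rcases Nat.even_or_odd' r with ⟨i, hi | hi⟩
  · refine ⟨i, by omega, by omega, ?_⟩
    obtain ⟨i, rfl⟩ : ∃ i', i = i' + 1 := ⟨i - 1, by omega⟩
    have h1 := key i (i + 1) (by omega)
    conv_lhs => rw [h1]
    rw [← mp_succ]
  · exact absurd (key i i (by omega)).symm (M.act_mp h i)

theorem st_track {u w : V} (h : u ≠ w) (t : ℕ) : ∃ i, (M.st u w t).1 = M.mp u w i ∧
    (∀ j, 0 < j → j < i → ∃ t', 0 < t' ∧ t' < t ∧ M.st u w t' = (M.mp u w j, M.sd (M.mp u w j))) ∧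
    (0 < i → ∃ t', 0 < t' ∧ t' ≤ t ∧ M.st u w t' = (M.mp u w i, M.sd (M.mp u w i))) ∧
    (i = 0 → 0 < t → (M.st u w t).2 ≠ M.sd (M.st u w t).1) := by
  induction t with
  | zero => exact ⟨0, rfl, by omega, by omega, by omega⟩
  | succ t ih =>
    obtain ⟨i, h1, h2, h3, -⟩ := ih
    have hc := M.cases6 (M.inv_st h t)
    rw [← st_succ] at hc
    by_cases a : (M.st u w t).2 = M.sd (M.χ (M.st u w t).1)
    · have e1 : M.st u w (t + 1) = (M.mp u w (i + 1), M.sd (M.mp u w (i + 1))) := by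
        rw [st_succ, stp, if_pos a, h1, mp_succ]
      refine ⟨i + 1, by rw [e1], fun j a1 a2 => ?_, fun _ => ⟨t + 1, by omega, le_rfl, e1⟩, by omega⟩
      by_cases hj : j = i
      · subst hj
        obtain ⟨t', b1, b2, b3⟩ := h3 a1
        exact ⟨t', b1, by omega, b3⟩
      · obtain ⟨t', b1, b2, b3⟩ := h2 j a1 (by omega)
        exact ⟨t', b1, by omega, b3⟩
    · have e1 : (M.st u w (t + 1)).1 = (M.st u w t).1 := by
        rw [st_succ]; unfold stp; split_ifs <;> rfl
      refine ⟨i, e1.trans h1, fun j a1 a2 => ?_, fun a1 => ?_, fun _ _ => ?_⟩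
      · obtain ⟨t', b1, b2, b3⟩ := h2 j a1 a2
        exact ⟨t', b1, by omega, b3⟩
      · obtain ⟨t', b1, b2, b3⟩ := h3 a1
        exact ⟨t', b1, by omega, b3⟩
      · intro hh
        have : M.ty (M.st u w (t + 1)) = 1 := by simp [ty, hh]
        omega

/-- length of a strand -/
noncomputable def len (u w : V) : ℕ := sInf {t | 0 < t ∧ M.Term (M.st u w t)}

theorem len_spec [Finite P] {u w : V} (h : u ≠ w) :
    0 < M.len u w ∧ M.Term (M.st u w (M.len u w)) := Nat.sInf_mem (M.exists_term h)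

theorem not_term {u w : V} {t : ℕ} (h0 : 0 < t) (ht : t < M.len u w) : ¬ M.Term (M.st u w t) :=
  fun hT => Nat.notMem_of_lt_sInf ht ⟨h0, hT⟩

theorem st_len [Finite P] {u w : V} (h : u ≠ w) : (M.st u w (M.len u w)).1 = M.e w u := by
  obtain ⟨h0, hT1, hT2⟩ := M.len_spec h
  obtain ⟨a, b, hab, he⟩ := M.fix _ hT2
  have hl := M.lab_st h (M.len u w)
  rw [he, M.lab_e a b hab, Sym2.eq_iff] at hl
  rcases hl with ⟨rfl, rfl⟩ | ⟨rfl, rfl⟩
  · exfalso
    obtain ⟨i, h1, h2, -, h4⟩ := M.st_track h (M.len a b)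
    have hi : 0 < i := by
      by_contra hi
      exact h4 (by omega) h0 hT1
    obtain ⟨j, b1, b2, b3⟩ := M.mp_return h i hi (h1.symm.trans he)
    obtain ⟨t', c1, c2, c3⟩ := h2 j b1 b2
    exact M.not_term c1 c2 (by rw [c3]; exact ⟨rfl, b3⟩)
  · exact he

theorem term_of_gt {u w x : V} (h : u ≠ w) (t : ℕ) (hg : M.gt (M.st u w t) = (M.rt x, 1)) :
    M.Term (M.st u w t) ∧ ∃ y, x ≠ y ∧ (M.st u w t).1 = M.e x y := by
  have hI := M.inv_st h t
  simp only [gt, Prod.mk.injEq] at hg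
  have h1 : (M.st u w t).2 = M.sd (M.st u w t).1 := by
    by_contra hne
    simp only [ty, hne, if_false] at hg
    split_ifs at hg <;> omega
  obtain ⟨y, hy, he⟩ := M.sd_end _ x hI.1 (by omega)
  exact ⟨⟨h1, by rw [he, M.ι_e x y hy]⟩, y, hy, he⟩

/-- earlier gates of a strand -/
def tl (u w : V) : ℕ → List (ℤ × ℤ)
  | 0 => []
  | t + 1 => M.gt (M.st u w t) :: tl u w t

theorem tl_length (u w : V) (t : ℕ) : (M.tl u w t).length = t := by
  induction t with
  | zero => rfl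
  | succ t ih => simp [tl, ih]

theorem order_key {u w u' w' : V} (h : u ≠ w) (h' : u' ≠ w') (ha : Adj u w u' w') (t t' : ℕ)
    (ht' : t' < M.len u' w') (hg : M.gt (M.st u w t) = M.gt (M.st u' w' t'))
    (hk : keyL (M.gt (M.st u w t)) (M.tl u w t) < keyL (M.gt (M.st u' w' t')) (M.tl u' w' t')) :
    M.pos (M.st u w t).1 < M.pos (M.st u' w' t').1 := by
  induction t generalizing t' with
  | zero =>
    cases t' with
    | zero => exact absurd hk (List.not_lt_nil _)
    | succ t' =>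
      rw [M.gt_zero h] at hg
      exact absurd (M.term_of_gt h' _ hg.symm).1 (M.not_term (by omega) ht')
  | succ t ih =>
    cases t' with
    | zero => exact absurd hk (List.not_lt_nil _)
    | succ t' =>
      have hT := M.not_term (Nat.succ_pos t') ht'
      simp only [tl, keyL] at hk
      rw [st_succ, st_succ] at *
      have I1 := M.inv_st h t
      have I2 := M.inv_st h' t'
      rcases List.cons_lt_cons_iff.mp hk with hr | ⟨hr, hk'⟩
      · exact M.pos_merge I1 I2 hg (M.adj_st h h' ha t t') hr hT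
      · have hg' := M.pred_unique I1 I2 hg hr
        refine M.pos_stp_lt I1 I2 hg' (M.adj_st h h' ha t t') (ih t' (by omega) hg' hk') ?_ hT
        rw [M.gt_stp I1, M.gt_stp I2, hg'] at hg
        exact nxt_inj _ _ hg

theorem order_same {u w w' : V} (h : u ≠ w) (h' : u ≠ w') (t : ℕ) (ht' : t < M.len u w')
    (hg : M.gt (M.st u w t) = M.gt (M.st u w' t)) (htl : M.tl u w t = M.tl u w' t)
    (hlt : M.pos (M.e u w) < M.pos (M.e u w')) :
    M.pos (M.st u w t).1 < M.pos (M.st u w' t).1 := by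
  induction t with
  | zero => exact hlt
  | succ t ih =>
    have hT := M.not_term (Nat.succ_pos t) ht'
    simp only [tl, List.cons.injEq] at htl
    rw [st_succ, st_succ] at *
    have I1 := M.inv_st h t
    have I2 := M.inv_st h' t
    refine M.pos_stp_lt I1 I2 htl.1 (M.adj_st h h' (Or.inl rfl) t t)
      (ih (by omega) htl.1 htl.2) ?_ hT
    rw [M.gt_stp I1, M.gt_stp I2, htl.1] at hg
    exact nxt_inj _ _ hg

theorem total_key {u w u' w' : V} (h : u ≠ w) (h' : u' ≠ w') (t t' : ℕ)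
    (hg : M.gt (M.st u w t) = M.gt (M.st u' w' t'))
    (hk : keyL (M.gt (M.st u w t)) (M.tl u w t) = keyL (M.gt (M.st u' w' t')) (M.tl u' w' t')) :
    u = u' ∧ M.tl u w t = M.tl u' w' t' := by
  induction t generalizing t' with
  | zero =>
    cases t' with
    | zero =>
      rw [M.gt_zero h'] at hg
      obtain ⟨-, y, hy, he⟩ := M.term_of_gt h 0 hg
      exact ⟨(M.e_inj _ _ _ _ h hy he).1, rfl⟩
    | succ t' => simp [tl, keyL] at hk
  | succ t ih =>
    cases t' with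
    | zero => simp [tl, keyL] at hk
    | succ t' =>
      simp only [tl, keyL, List.cons.injEq] at hk ⊢
      rw [st_succ, st_succ] at *
      have hg' := M.pred_unique (M.inv_st h t) (M.inv_st h' t') hg hk.1
      obtain ⟨a, b⟩ := ih t' hg' hk.2
      exact ⟨a, hg', b⟩

variable [Fintype V] [DecidableEq V]

open Classical in
/-- strands through a node -/
noncomputable def Str (ν : V × (ℤ × ℤ) × List (ℤ × ℤ)) : Finset V :=
  univ.filter fun w => ν.1 ≠ w ∧ ∃ t ≤ M.len ν.1 w, M.gt (M.st ν.1 w t) = ν.2.1 ∧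
    M.tl ν.1 w t = ν.2.2

theorem mem_Str {ν : V × (ℤ × ℤ) × List (ℤ × ℤ)} {w : V} : w ∈ M.Str ν ↔ ν.1 ≠ w ∧
    ν.2.2.length ≤ M.len ν.1 w ∧ M.gt (M.st ν.1 w ν.2.2.length) = ν.2.1 ∧
    M.tl ν.1 w ν.2.2.length = ν.2.2 := by
  simp only [Str, mem_filter, mem_univ, true_and]
  constructor
  · rintro ⟨h, t, h1, h2, h3⟩
    have : ν.2.2.length = t := by rw [← h3, tl_length]
    rw [this]; exact ⟨h, h1, h2, h3⟩
  · rintro ⟨h, h1, h2, h3⟩
    exact ⟨h, _, h1, h2, h3⟩

/-- children -/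
def ch (ν : V × (ℤ × ℤ) × List (ℤ × ℤ)) (b : Bool) : V × (ℤ × ℤ) × List (ℤ × ℤ) :=
  (ν.1, nxt M.op ν.2.1 b, ν.2.1 :: ν.2.2)

theorem mem_ch {ν : V × (ℤ × ℤ) × List (ℤ × ℤ)} {w : V} {b : Bool} :
    w ∈ M.Str (M.ch ν b) ↔ w ∈ M.Str ν ∧ ν.2.2.length < M.len ν.1 w ∧
      M.lt (M.st ν.1 w ν.2.2.length) = b := by
  simp only [mem_Str, ch, List.length_cons, tl, List.cons.injEq, st_succ]
  constructor
  · rintro ⟨h, h1, h2, h3, h4⟩
    refine ⟨⟨h, by omega, h3, h4⟩, by omega, ?_⟩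
    rw [M.gt_stp (M.inv_st h _), h3] at h2
    exact nxt_inj _ _ h2
  · rintro ⟨⟨h, h1, h2, h3⟩, h4, h5⟩
    refine ⟨h, by omega, ?_, h2, h3⟩
    rw [M.gt_stp (M.inv_st h _), h2, h5]

theorem lt_len [Finite P] {ν : V × (ℤ × ℤ) × List (ℤ × ℤ)} (hν : 2 ≤ (M.Str ν).card) {w : V}
    (hw : w ∈ M.Str ν) : ν.2.2.length < M.len ν.1 w := by
  obtain ⟨h, h1, h2, h3⟩ := M.mem_Str.mp hw
  by_contra hlt
  have he : ν.2.2.length = M.len ν.1 w := by omega
  obtain ⟨h0, hT⟩ := M.len_spec h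
  have hg : ν.2.1 = (M.rt w, 1) := by
    rw [← h2, he]
    have e1 := M.st_len h
    have e2 := hT.1
    rw [e1, M.sd_e _ _ h.symm] at e2
    simp [gt, ty, e2, e1, M.sd_e _ _ h.symm]
  have : M.Str ν ⊆ {w} := by
    intro w' hw'
    obtain ⟨a, a1, a2, a3⟩ := M.mem_Str.mp hw'
    obtain ⟨b1, y, hy, b2⟩ := M.term_of_gt a _ (a2.trans hg)
    have b3 : ν.2.2.length = M.len ν.1 w' := by
      by_contra hne
      exact M.not_term (by omega) (by omega) b1
    rw [b3, M.st_len a] at b2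
    simpa using (M.e_inj _ _ _ _ a.symm hy b2).1
  have := card_le_card this
  simp at this
  omega

/-- the system of cables of a reduced model -/
noncomputable def toSys [Finite P] (k : ℕ) (hk : 2 ≤ k) (hkV : k + 1 ≤ Fintype.card V)
    (hmeet : ∀ u u' I I', Conv (fun w => (M.pos (M.e u w) : ℤ)) u I →
      Conv (fun w => (M.pos (M.e u' w) : ℤ)) u' I' → k ≤ I.card → k ≤ I'.card →
      ∃ w ∈ I, ∃ w' ∈ I', Adj u w u' w') :
    Sys V (V × (ℤ × ℤ) × List (ℤ × ℤ)) (ℤ × ℤ) (List ℤ) k :=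
  let D := (univ : Finset (V × V)).sup fun p => M.len p.1 p.2
  let B := ((univ ×ˢ univ ×ˢ range (D + 1)).image fun p : V × V × ℕ =>
    (p.1, M.gt (M.st p.1 p.2.1 p.2.2), M.tl p.1 p.2.1 p.2.2)).filter fun ν => k ≤ (M.Str ν).card
  have hD : ∀ u w, M.len u w ≤ D := fun u w =>
    le_sup (f := fun p : V × V => M.len p.1 p.2) (mem_univ (u, w))
  have hB : ∀ ν, ν ∈ B ↔ k ≤ (M.Str ν).card := by
    intro ν
    simp only [B, mem_filter, and_iff_right_iff_imp]
    intro h
    obtain ⟨w, hw⟩ : (M.Str ν).Nonempty := card_pos.mp (by omega)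
    obtain ⟨a, a1, a2, a3⟩ := M.mem_Str.mp hw
    refine mem_image.mpr ⟨(ν.1, w, ν.2.2.length), ?_, ?_⟩
    · have := hD ν.1 w
      simp only [mem_product, mem_univ, mem_range, true_and]; omega
    · simp only [a2, a3]
  have hne : ∀ ν ∈ B, ∃ w, w ∈ M.Str ν := fun ν h => card_pos.mp (by have := (hB ν).mp h; omega)
  have hroot : ∀ u, M.Str (u, (M.rt u, 1), []) = univ.erase u := by
    intro u
    ext w
    simp only [mem_Str, List.length_nil, zero_le, tl, and_true, true_and, mem_erase, mem_univ]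
    exact ⟨fun h => h.1.symm, fun h => ⟨h.symm, M.gt_zero h.symm⟩⟩
  have hpar : ∀ ν ∈ B, (∃ u, ν = (u, (M.rt u, 1), [])) ∨ ∃ μ ∈ B, ∃ b, ν = M.ch μ b := by
    rintro ⟨u, g, h⟩ hν
    obtain ⟨w, hw⟩ := hne _ hν
    obtain ⟨a, a1, a2, a3⟩ := M.mem_Str.mp hw
    cases h with
    | nil =>
      left
      refine ⟨u, ?_⟩
      simp only [List.length_nil] at a2
      rw [M.gt_zero a] at a2
      rw [a2]
    | cons g' h =>
      right
      simp only [List.length_cons, tl, List.cons.injEq, st_succ] at a a1 a2 a3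
      rw [M.gt_stp (M.inv_st a _), a3.1] at a2
      have e : (u, g, g' :: h) = M.ch (u, g', h) (M.lt (M.st u w h.length)) := by
        simp only [ch, a2]
      refine ⟨(u, g', h), (hB _).mpr (((hB _).mp hν).trans (card_le_card ?_)), _, e⟩
      rw [e]
      exact fun x hx => (M.mem_ch.mp hx).1
  { B := B
    Gs := (Finset.Ico (0 : ℤ) Ns) ×ˢ {0, 1, 2}
    src := fun ν => ν.1
    Str := M.Str
    gate := fun ν => ν.2.1
    key := fun ν => keyL ν.2.1 ν.2.2
    ch := M.ch
    dep := fun ν => ν.2.2.length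
    D := D
    ord := fun u w => M.pos (M.e u w)
    root := fun u => (u, (M.rt u, 1), [])
    kpos := by omega
    gate_mem := fun ν hν => by
      obtain ⟨w, hw⟩ := hne _ hν
      obtain ⟨a, a1, a2, a3⟩ := M.mem_Str.mp hw
      have I := M.inv_st a ν.2.2.length
      have r1 := M.sd_range _ I.1
      have r2 := M.sd_range _ (M.act_χ I.1)
      have := I.2
      rw [← a2]
      simp only [gt, mem_product, mem_Ico, mem_insert, mem_singleton, ty]
      refine ⟨by omega, ?_⟩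
      split_ifs <;> simp
    root_mem := fun u => by
      rw [hB, hroot, card_erase_of_mem (mem_univ _), card_univ]; omega
    src_root := fun _ => rfl
    Str_root := hroot
    big := fun ν h => (hB ν).mp h
    ch_mem := fun ν _ b h => (hB _).mpr h
    src_ch := fun _ _ => rfl
    ch_sub := fun ν _ b x hx => (M.mem_ch.mp hx).1
    cover := fun ν hν w hw => ⟨_, M.mem_ch.mpr ⟨hw, M.lt_len (hk.trans ((hB ν).mp hν)) hw, rfl⟩⟩
    sep := fun ν hν a ha c hc => by
      obtain ⟨a1, a2, a3⟩ := M.mem_ch.mp ha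
      obtain ⟨c1, c2, c3⟩ := M.mem_ch.mp hc
      obtain ⟨b1, -, b2, b3⟩ := M.mem_Str.mp a1
      obtain ⟨d1, -, d2, d3⟩ := M.mem_Str.mp c1
      have hne : M.pos (M.e ν.1 a) ≠ M.pos (M.e ν.1 c) := by
        intro h
        obtain ⟨-, rfl⟩ := M.e_inj _ _ _ _ b1 d1 (M.pos_inj h)
        rw [a3] at c3; exact absurd c3 (by simp)
      by_contra hlt
      have := M.order_same d1 b1 _ a2 (d2.trans b2.symm) (d3.trans b3.symm) (by omega)
      exact M.no_tf (M.inv_st d1 _) (M.inv_st b1 _) (d2.trans b2.symm)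
        (M.adj_st d1 b1 (Or.inl rfl) _ _) this c3 a3
    dep_ch := fun _ _ => rfl
    dep_le := fun ν hν => by
      obtain ⟨w, hw⟩ := hne _ hν
      exact (M.mem_Str.mp hw).2.1.trans (hD _ _)
    par := hpar
    total := fun ν hν μ hμ hg hkey => by
      obtain ⟨w, hw⟩ := hne _ hν
      obtain ⟨w', hw'⟩ := hne _ hμ
      obtain ⟨b1, -, b2, b3⟩ := M.mem_Str.mp hw
      obtain ⟨d1, -, d2, d3⟩ := M.mem_Str.mp hw'
      have := M.total_key b1 d1 _ _ (b2.trans (hg.trans d2.symm)) (by rw [b2, b3, d2, d3]; exact hkey)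
      rw [b3, d3] at this
      exact Prod.ext this.1 (Prod.ext hg this.2)
    gate_ch := fun μ ν b h => by simp only [ch] at h ⊢; rw [h]
    key_ch := fun μ ν b hg h => by
      simp only [ch, keyL] at hg h ⊢
      rw [hg] at h ⊢
      exact List.cons_lt_cons_iff.mpr (Or.inr ⟨rfl, h⟩)
    sandwich := fun μ hμ ν hν b hg h1 h2 ξ hξ hgξ h3 h4 => by
      rcases hpar ξ hξ with ⟨u, rfl⟩ | ⟨ξ', hξ', b', rfl⟩
      · exact absurd h3 (List.not_lt_nil _)
      · obtain ⟨w, hw⟩ := hne _ hξ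
        obtain ⟨w', hw'⟩ := hne _ h2
        obtain ⟨a1, -, a3⟩ := M.mem_ch.mp hw
        obtain ⟨c1, -, c3⟩ := M.mem_ch.mp hw'
        obtain ⟨b1, -, b2, -⟩ := M.mem_Str.mp a1
        obtain ⟨d1, -, d2, -⟩ := M.mem_Str.mp c1
        simp only [ch, keyL] at hg hgξ h3 h4 ⊢
        rw [hg] at h3 ⊢
        rw [hgξ] at h3 h4
        have h3' := List.cons_lt_cons_iff.mp h3
        have h4' := List.cons_lt_cons_iff.mp h4
        have hr : rk (nxt M.op ν.2.1 b) ξ'.2.1 = rk (nxt M.op ν.2.1 b) ν.2.1 := by omega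
        have I1 := M.inv_st b1 ξ'.2.2.length
        have I2 := M.inv_st d1 ν.2.2.length
        have hg' := M.pred_unique I1 I2 (by rw [M.gt_stp I1, M.gt_stp I2, b2, d2, a3, c3, hgξ])
          (by rw [M.gt_stp I1, M.gt_stp I2, b2, d2, a3, c3, hgξ, hr])
        rw [b2, d2] at hg'
        refine ⟨ξ', hξ', hg', ?_, ?_⟩
        · rcases h3' with h | h
          · omega
          · exact h.2
        · rcases h4' with h | h
          · omega
          · exact h.2
    cross := fun μ hμ ν hν hg hkey w' hw' w hw hadj => by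
      obtain ⟨a1, a2, a3⟩ := M.mem_ch.mp hw
      obtain ⟨c1, c2, c3⟩ := M.mem_ch.mp hw'
      obtain ⟨b1, -, b2, b3⟩ := M.mem_Str.mp a1
      obtain ⟨d1, -, d2, d3⟩ := M.mem_Str.mp c1
      have hg' := d2.trans (hg.trans b2.symm)
      have := M.order_key d1 b1 hadj _ _ a2 hg' (by rw [b2, b3, d2, d3]; exact hkey)
      exact M.no_tf (M.inv_st d1 _) (M.inv_st b1 _) hg' (M.adj_st d1 b1 hadj _ _) this c3 a3
    meet := hmeet }

theorem count [Finite P] (k : ℕ) (hk : 2 ≤ k) (hkV : k + 1 ≤ Fintype.card V)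
    (hmeet : ∀ u u' I I', Conv (fun w => (M.pos (M.e u w) : ℤ)) u I →
      Conv (fun w => (M.pos (M.e u' w) : ℤ)) u' I' → k ≤ I.card → k ≤ I'.card →
      ∃ w ∈ I, ∃ w' ∈ I', Adj u w u' w') :
    Fintype.card V * Fintype.card V - Fintype.card V ≤
      4 * k * (2 * Fintype.card V + 12 * Ns) := by
  have h := (M.toSys k hk hkV hmeet).count
  have h2 : (M.toSys k hk hkV hmeet).Gs.card = Ns * 3 := by
    change ((Finset.Ico (0 : ℤ) Ns) ×ˢ ({0, 1, 2} : Finset ℤ)).card = _
    rw [card_product]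
    simp
  rw [h2] at h
  refine h.trans (le_of_eq ?_)
  ring

end FM

end Pool.Agent.Lib.MP_a0d8b4_co
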