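import Mathlib

set_option autoImplicit false

namespace Pool.Agent.Lib.MP_a0d8b4_co

open Finset

/-- two edges share an endpoint -/
def Adj {V : Type} (u w u' w' : V) : Prop := u = u' ∨ u = w' ∨ w = u' ∨ w = w'

theorem Adj.symm {V : Type} {u w u' w' : V} (h : Adj u w u' w') : Adj u' w' u w := by
  unfold Adj at *; tauto

/-- convex subsets of the complement of `u` -/
def Conv {V : Type} (ord : V → ℤ) (u : V) (I : Finset V) : Prop :=
  u ∉ I ∧ ∀ a ∈ I, ∀ c ∈ I, ∀ b, b ≠ u → ord a ≤ ord b → ord b ≤ ord c → b ∈ I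

/-- abstract system of cables -/
structure Sys (V N G K : Type) [Fintype V] [DecidableEq V] [LinearOrder K] (k : ℕ) where
  B : Finset N
  Gs : Finset G
  src : N → V
  Str : N → Finset V
  gate : N → G
  key : N → K
  ch : N → Bool → N
  dep : N → ℕ
  D : ℕ
  ord : V → V → ℤ
  root : V → N
  kpos : 0 < k
  gate_mem : ∀ ν ∈ B, gate ν ∈ Gs
  root_mem : ∀ u, root u ∈ B
  src_root : ∀ u, src (root u) = u
  Str_root : ∀ u, Str (root u) = univ.erase u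
  big : ∀ ν ∈ B, k ≤ (Str ν).card
  ch_mem : ∀ ν ∈ B, ∀ b, k ≤ (Str (ch ν b)).card → ch ν b ∈ B
  src_ch : ∀ ν b, src (ch ν b) = src ν
  ch_sub : ∀ ν ∈ B, ∀ b, Str (ch ν b) ⊆ Str ν
  cover : ∀ ν ∈ B, ∀ w ∈ Str ν, ∃ b, w ∈ Str (ch ν b)
  sep : ∀ ν ∈ B, ∀ a ∈ Str (ch ν false), ∀ c ∈ Str (ch ν true), ord (src ν) a < ord (src ν) c
  dep_ch : ∀ ν b, dep (ch ν b) = dep ν + 1
  dep_le : ∀ ν ∈ B, dep ν ≤ D
  par : ∀ ν ∈ B, (∃ u, ν = root u) ∨ ∃ μ ∈ B, ∃ b, ν = ch μ b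
  total : ∀ ν ∈ B, ∀ μ ∈ B, gate ν = gate μ → key ν = key μ → ν = μ
  gate_ch : ∀ μ ν b, gate μ = gate ν → gate (ch μ b) = gate (ch ν b)
  key_ch : ∀ μ ν b, gate μ = gate ν → key μ < key ν → key (ch μ b) < key (ch ν b)
  sandwich : ∀ μ ∈ B, ∀ ν ∈ B, ∀ b, gate μ = gate ν → ch μ b ∈ B → ch ν b ∈ B → ∀ ξ ∈ B,
    gate ξ = gate (ch ν b) → key (ch μ b) < key ξ → key ξ < key (ch ν b) →
    ∃ ξ' ∈ B, gate ξ' = gate ν ∧ key μ < key ξ' ∧ key ξ' < key ν
  cross : ∀ μ ∈ B, ∀ ν ∈ B, gate μ = gate ν → key μ < key ν → ∀ w' ∈ Str (ch μ true),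
    ∀ w ∈ Str (ch ν false), ¬ Adj (src μ) w' (src ν) w
  meet : ∀ u u' I I', Conv (ord u) u I → Conv (ord u') u' I' → k ≤ I.card → k ≤ I'.card →
    ∃ w ∈ I, ∃ w' ∈ I', Adj u w u' w'

namespace Sys

variable {V N G K : Type} [Fintype V] [DecidableEq V] [LinearOrder K] {k : ℕ}
  (S : Sys V N G K k)

/-- the mirror image -/
def mirror : Sys V N G Kᵒᵈ k where
  B := S.B
  Gs := S.Gs
  src := S.src
  Str := S.Str
  gate := S.gate
  key := fun ν => OrderDual.toDual (S.key ν)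
  ch := fun ν b => S.ch ν (!b)
  dep := S.dep
  D := S.D
  ord := fun u w => - S.ord u w
  root := S.root
  kpos := S.kpos
  gate_mem := S.gate_mem
  root_mem := S.root_mem
  src_root := S.src_root
  Str_root := S.Str_root
  big := S.big
  ch_mem := fun ν h b => S.ch_mem ν h (!b)
  src_ch := fun ν b => S.src_ch ν (!b)
  ch_sub := fun ν h b => S.ch_sub ν h (!b)
  cover := fun ν h w hw => by
    obtain ⟨b, hb⟩ := S.cover ν h w hw
    exact ⟨!b, by simpa using hb⟩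
  sep := fun ν h a ha c hc => by
    have := S.sep ν h c hc a ha
    omega
  dep_ch := fun ν b => S.dep_ch ν (!b)
  dep_le := S.dep_le
  par := fun ν h => by
    rcases S.par ν h with h | ⟨μ, hμ, b, h⟩
    · exact Or.inl h
    · exact Or.inr ⟨μ, hμ, !b, by simpa using h⟩
  total := fun ν hν μ hμ hg hk => S.total ν hν μ hμ hg (OrderDual.toDual.injective hk)
  gate_ch := fun μ ν b h => S.gate_ch μ ν (!b) h
  key_ch := fun μ ν b hg h => S.key_ch ν μ (!b) hg.symm h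
  sandwich := fun μ hμ ν hν b hg h1 h2 ξ hξ hgξ h3 h4 => by
    obtain ⟨ξ', h5, h6, h7, h8⟩ := S.sandwich ν hν μ hμ (!b) hg.symm h2 h1 ξ hξ
      (hgξ.trans (S.gate_ch _ _ _ hg.symm)) h4 h3
    exact ⟨ξ', h5, h6.trans hg, h8, h7⟩
  cross := fun μ hμ ν hν hg hk w' hw' w hw hadj =>
    S.cross ν hν μ hμ hg.symm hk w hw w' hw' hadj.symm
  meet := fun u u' I I' h h' => S.meet u u' I I'
    ⟨h.1, fun a ha c hc b hb h1 h2 => h.2 c hc a ha b hb (neg_le_neg h2) (neg_le_neg h1)⟩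
    ⟨h'.1, fun a ha c hc b hb h1 h2 => h'.2 c hc a ha b hb (neg_le_neg h2) (neg_le_neg h1)⟩

theorem conv_ch {ν : N} (hν : ν ∈ S.B) (h : Conv (S.ord (S.src ν)) (S.src ν) (S.Str ν))
    (b : Bool) : Conv (S.ord (S.src ν)) (S.src ν) (S.Str (S.ch ν b)) := by
  refine ⟨fun hu => h.1 (S.ch_sub ν hν b hu), fun a ha c hc x hx h1 h2 => ?_⟩
  have hxν := h.2 a (S.ch_sub ν hν b ha) c (S.ch_sub ν hν b hc) x hx h1 h2
  obtain ⟨b', hb'⟩ := S.cover ν hν x hxν
  cases b <;> cases b'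
  · exact hb'
  · have := S.sep ν hν c hc x hb'; omega
  · have := S.sep ν hν x hb' a ha; omega
  · exact hb'

theorem conv (ν : N) (hν : ν ∈ S.B) : Conv (S.ord (S.src ν)) (S.src ν) (S.Str ν) := by
  induction h : S.dep ν using Nat.strong_induction_on generalizing ν with
  | _ d ih =>
    rcases S.par ν hν with ⟨u, rfl⟩ | ⟨μ, hμ, b, rfl⟩
    · rw [S.src_root, S.Str_root]
      exact ⟨by simp, fun a _ c _ x hx _ _ => by simp [hx]⟩
    · rw [S.src_ch]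
      exact S.conv_ch hμ (ih (S.dep μ) (by rw [← h, S.dep_ch]; omega) μ hμ rfl) b

theorem no_cross {μ ν : N} (hμ : μ ∈ S.B) (hν : ν ∈ S.B) (hg : S.gate μ = S.gate ν)
    (hk : S.key μ < S.key ν) (h1 : S.ch μ true ∈ S.B) (h2 : S.ch ν false ∈ S.B) : False := by
  obtain ⟨w', hw', w, hw, hadj⟩ := S.meet _ _ _ _ (S.conv _ h1) (S.conv _ h2) (S.big _ h1)
    (S.big _ h2)
  rw [S.src_ch, S.src_ch] at hadj
  exact S.cross μ hμ ν hν hg hk w' hw' w hw hadj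

/-- nearest big node on the left -/
def LN (μ ν : N) : Prop :=
  μ ∈ S.B ∧ S.gate μ = S.gate ν ∧ S.key μ < S.key ν ∧
    ∀ ξ ∈ S.B, S.gate ξ = S.gate ν → S.key ξ < S.key ν → S.key ξ ≤ S.key μ

theorem LN_unique {μ μ' ν : N} (h : S.LN μ ν) (h' : S.LN μ' ν) : μ = μ' :=
  S.total μ h.1 μ' h'.1 (h.2.1.trans h'.2.1.symm)
    (le_antisymm (h'.2.2.2 μ h.1 h.2.1 h.2.2.1) (h.2.2.2 μ' h'.1 h'.2.1 h'.2.2.1))

theorem LN_inj {μ ν ν' : N} (hν : ν ∈ S.B) (hν' : ν' ∈ S.B) (h : S.LN μ ν) (h' : S.LN μ ν') :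
    ν = ν' := by
  have hg : S.gate ν = S.gate ν' := h.2.1.symm.trans h'.2.1
  apply S.total ν hν ν' hν' hg
  rcases lt_trichotomy (S.key ν) (S.key ν') with hlt | he | hlt
  · exact absurd (h'.2.2.2 ν hν hg hlt) (not_le.mpr h.2.2.1)
  · exact he
  · exact absurd (h.2.2.2 ν' hν' hg.symm hlt) (not_le.mpr h'.2.2.1)

theorem exists_LN {ν ξ : N} (hξ : ξ ∈ S.B) (hg : S.gate ξ = S.gate ν) (hk : S.key ξ < S.key ν) :
    ∃ μ, S.LN μ ν := by
  classical
  obtain ⟨μ, hμ, hmax⟩ := exists_max_image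
    (S.B.filter fun μ => S.gate μ = S.gate ν ∧ S.key μ < S.key ν) S.key ⟨ξ, by simp [hξ, hg, hk]⟩
  rw [mem_filter] at hμ
  exact ⟨μ, hμ.1, hμ.2.1, hμ.2.2, fun ξ h1 h2 h3 => hmax ξ (by simp [h1, h2, h3])⟩

theorem LN_ch {μ ν : N} (hν : ν ∈ S.B) (h : S.LN μ ν) (b : Bool) (h1 : S.ch μ b ∈ S.B)
    (h2 : S.ch ν b ∈ S.B) : S.LN (S.ch μ b) (S.ch ν b) := by
  refine ⟨h1, S.gate_ch _ _ _ h.2.1, S.key_ch _ _ _ h.2.1 h.2.2.1, fun ξ hξ hg hk => ?_⟩
  by_contra hlt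
  obtain ⟨ξ', a1, a2, a3, a4⟩ := S.sandwich μ h.1 ν hν b h.2.1 h1 h2 ξ hξ hg (not_le.mp hlt) hk
  exact absurd (h.2.2.2 ξ' a1 a2 a4) (not_le.mpr a3)

/-- continuing nodes -/
def Cont (ν : N) : Prop :=
  ∃ μ b, S.LN μ ν ∧ S.ch ν b ∈ S.B ∧ S.ch μ b ∈ S.B ∧ (b = true → S.ch ν false ∉ S.B)

theorem chain (ν : N) (hν : ν ∈ S.B) : ∃ ε ∈ S.B, ¬ S.Cont ε ∧ S.src ε = S.src ν ∧
    S.Str ε ⊆ S.Str ν ∧ (ε = ν ∨ ∃ μ τ, S.LN μ ν ∧ S.LN τ ε ∧ S.Str τ ⊆ S.Str μ ∧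
      S.src τ = S.src μ ∧
      (∀ w ∈ S.Str ν, (∀ y ∈ S.Str ε, S.ord (S.src ν) w < S.ord (S.src ν) y) →
        ∀ w' ∈ S.Str τ, ¬ Adj (S.src τ) w' (S.src ν) w) ∧
      (S.ch ν false ∉ S.B → S.Str ε ⊆ S.Str (S.ch ν true))) := by
  induction h : S.D - S.dep ν using Nat.strong_induction_on generalizing ν with
  | _ d ih =>
    by_cases hc : S.Cont ν
    swap
    · exact ⟨ν, hν, hc, rfl, Subset.refl _, Or.inl rfl⟩
    obtain ⟨μ, b, hLN, h1, h2, hb⟩ := hc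
    have hdep := S.dep_le _ h1
    rw [S.dep_ch] at hdep
    obtain ⟨ε, hε, hne, hsrc, hsub, hor⟩ := ih (S.D - S.dep (S.ch ν b))
      (by rw [S.dep_ch]; omega) (S.ch ν b) h1 rfl
    rw [S.src_ch] at hsrc hor
    have hLN' := S.LN_ch hν hLN b h2 h1
    have hne' : (S.Str ε).Nonempty := card_pos.mp (lt_of_lt_of_le S.kpos (S.big ε hε))
    -- unify the two cases
    obtain ⟨τ, hτ, hτs, hτsrc, hτw⟩ : ∃ τ, S.LN τ ε ∧ S.Str τ ⊆ S.Str (S.ch μ b) ∧
        S.src τ = S.src μ ∧ ∀ w ∈ S.Str (S.ch ν b),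
          (∀ y ∈ S.Str ε, S.ord (S.src ν) w < S.ord (S.src ν) y) →
          ∀ w' ∈ S.Str τ, ¬ Adj (S.src τ) w' (S.src ν) w := by
      rcases hor with rfl | ⟨μ', τ, a1, a2, a3, a4, a5, -⟩
      · exact ⟨S.ch μ b, hLN', Subset.refl _, S.src_ch _ _,
          fun w hw hlt => absurd (hlt w hw) (lt_irrefl _)⟩
      · obtain rfl := S.LN_unique a1 hLN'
        exact ⟨τ, a2, a3, a4.trans (S.src_ch _ _), a5⟩
    refine ⟨ε, hε, hne, hsrc, hsub.trans (S.ch_sub ν hν b), Or.inr ⟨μ, τ, hLN, hτ,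
      hτs.trans (S.ch_sub μ hLN.1 b), hτsrc, fun w hw hlt => ?_, fun hf => ?_⟩⟩
    · obtain ⟨b', hb'⟩ := S.cover ν hν w hw
      by_cases hbb : b' = b
      · subst hbb; exact hτw w hb' hlt
      · cases b <;> cases b'
        · exact absurd rfl hbb
        · obtain ⟨y, hy⟩ := hne'
          have := S.sep ν hν y (hsub hy) w hb'
          have := hlt y hy
          omega
        · intro w' hw'
          rw [hτsrc]
          exact S.cross μ hLN.1 ν hν hLN.2.1 hLN.2.2.1 w' (hτs hw') w hb'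
        · exact absurd rfl hbb
    · cases b
      · exact absurd h1 hf
      · exact hsub

open Classical in
/-- strands shed on the left before reaching an end node -/
noncomputable def Z (ε : N) : Finset V :=
  univ.filter fun w => w ≠ S.src ε ∧ (∀ y ∈ S.Str ε, S.ord (S.src ε) w < S.ord (S.src ε) y) ∧
    ∃ τ, S.LN τ ε ∧ ∀ x, x ≠ S.src ε → S.ord (S.src ε) w ≤ S.ord (S.src ε) x →
      (∀ y ∈ S.Str ε, S.ord (S.src ε) x < S.ord (S.src ε) y) →
      ∀ w' ∈ S.Str τ, ¬ Adj (S.src τ) w' (S.src ε) x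

theorem Z_card (ε : N) : (S.Z ε).card ≤ k := by
  classical
  by_contra hlt
  have hne : (S.Z ε).Nonempty := card_pos.mp (by omega)
  obtain ⟨w0, hw0⟩ := hne
  simp only [Z, mem_filter, mem_univ, true_and] at hw0
  obtain ⟨-, -, τ, hτ, -⟩ := hw0
  have hconv : Conv (S.ord (S.src ε)) (S.src ε) (S.Z ε) := by
    refine ⟨by simp [Z], fun a ha c hc x hx h1 h2 => ?_⟩
    simp only [Z, mem_filter, mem_univ, true_and] at ha hc ⊢
    obtain ⟨-, -, τ', hτ', h3⟩ := ha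
    refine ⟨hx, fun y hy => lt_of_le_of_lt h2 (hc.2.1 y hy), τ', hτ', fun x' b1 b2 => ?_⟩
    exact h3 x' b1 (h1.trans b2)
  obtain ⟨w', hw', w, hw, hadj⟩ := S.meet _ _ _ _ (S.conv τ hτ.1) hconv (S.big τ hτ.1) (by omega)
  simp only [Z, mem_filter, mem_univ, true_and] at hw
  obtain ⟨a1, a2, τ', hτ', h3⟩ := hw
  obtain rfl := S.LN_unique hτ hτ'
  exact h3 w a1 le_rfl a2 w' hw' hadj

open Classical in
/-- strands shed on the left -/
noncomputable def LS : Finset (V × V) :=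
  univ.filter fun p => ∃ ν ∈ S.B, S.src ν = p.1 ∧ p.2 ∈ S.Str (S.ch ν false) ∧ S.ch ν false ∉ S.B

open Classical in
theorem LS_card_le : S.LS.card ≤ 2 * k * (S.B.filter fun ε => ¬ S.Cont ε).card := by
  have hsub : S.LS ⊆ (S.B.filter fun ε => ¬ S.Cont ε).biUnion fun ε =>
      ((S.Z ε ∪ if S.ch ε false ∈ S.B then ∅ else S.Str (S.ch ε false)).image
        fun w => (S.src ε, w)) := by
    rintro ⟨u, w⟩ hp
    simp only [LS, mem_filter, mem_univ, true_and] at hp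
    obtain ⟨ν, hν, rfl, hw, hf⟩ := hp
    obtain ⟨ε, hε, hne, hsrc, hsub, hor⟩ := S.chain ν hν
    simp only [mem_biUnion, mem_filter, mem_image, mem_union, Prod.mk.injEq]
    refine ⟨ε, ⟨hε, hne⟩, w, ?_, hsrc, rfl⟩
    rcases hor with rfl | ⟨μ, τ, a1, a2, a3, a4, a5, a6⟩
    · right; simpa [hf] using hw
    · left
      have hc := S.conv ν hν
      have hwν := S.ch_sub ν hν false hw
      simp only [Z, mem_filter, mem_univ, true_and, hsrc]
      refine ⟨fun h => hc.1 (h ▸ hwν), fun y hy => S.sep ν hν w hw y (a6 hf hy), τ, a2,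
        fun x b1 b2 b3 => ?_⟩
      obtain ⟨y, hy⟩ : (S.Str ε).Nonempty := card_pos.mp (lt_of_lt_of_le S.kpos (S.big ε hε))
      exact a5 x (hc.2 w hwν y (hsub hy) x b1 b2 (b3 y hy).le) b3
  refine (card_le_card hsub).trans (card_biUnion_le.trans ?_)
  rw [mul_comm, ← smul_eq_mul, ← sum_const]
  apply sum_le_sum
  intro ε hε
  rw [mem_filter] at hε
  refine card_image_le.trans ((card_union_le _ _).trans ?_)
  have h1 := S.Z_card ε
  have h2 : (if S.ch ε false ∈ S.B then ∅ else S.Str (S.ch ε false)).card ≤ k := by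
    split_ifs with h
    · simp
    · by_contra hlt
      exact h (S.ch_mem ε hε.1 false (by omega))
  omega

theorem card_le_Gs (T : Finset N) (hT : T ⊆ S.B)
    (h : ∀ ν ∈ T, ∀ ν' ∈ T, S.gate ν = S.gate ν' → S.key ν < S.key ν' → False) :
    T.card ≤ S.Gs.card := by
  apply card_le_card_of_injOn S.gate (fun ν hν => S.gate_mem ν (hT hν))
  intro ν hν ν' hν' hg
  apply S.total ν (hT hν) ν' (hT hν') hg
  rcases lt_trichotomy (S.key ν) (S.key ν') with hlt | he | hlt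
  · exact (h ν hν ν' hν' hg hlt).elim
  · exact he
  · exact (h ν' hν' ν hν hg.symm hlt).elim

open Classical in
theorem leaves_le : (S.B.filter fun ν => S.ch ν false ∉ S.B ∧ S.ch ν true ∉ S.B).card ≤
    Fintype.card V + S.Gs.card := by
  have h2 : (S.B.filter fun ν => S.ch ν false ∈ S.B ∧ S.ch ν true ∈ S.B).card ≤ S.Gs.card := by
    apply S.card_le_Gs _ (filter_subset _ _)
    intro ν hν ν' hν' hg hk
    rw [mem_filter] at hν hν'
    exact S.no_cross hν.1 hν'.1 hg hk hν.2.2 hν'.2.1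
  have h1 : S.B ⊆ (univ.image S.root) ∪ (((S.B.filter fun ν => S.ch ν false ∈ S.B).image
      fun ν => S.ch ν false) ∪ ((S.B.filter fun ν => S.ch ν true ∈ S.B).image
      fun ν => S.ch ν true)) := by
    intro ν hν
    simp only [mem_union, mem_image, mem_filter, mem_univ, true_and]
    rcases S.par ν hν with ⟨u, rfl⟩ | ⟨μ, hμ, b, rfl⟩
    · exact Or.inl ⟨u, rfl⟩
    · cases b
      · exact Or.inr (Or.inl ⟨μ, ⟨hμ, hν⟩, rfl⟩)
      · exact Or.inr (Or.inr ⟨μ, ⟨hμ, hν⟩, rfl⟩)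
  have h3 := (card_le_card h1).trans ((card_union_le _ _).trans (add_le_add card_image_le
    ((card_union_le _ _).trans (add_le_add card_image_le card_image_le))))
  rw [card_univ] at h3
  have h4 : (S.B.filter fun ν => S.ch ν false ∈ S.B).card +
      (S.B.filter fun ν => S.ch ν true ∈ S.B).card +
      (S.B.filter fun ν => S.ch ν false ∉ S.B ∧ S.ch ν true ∉ S.B).card =
      S.B.card + (S.B.filter fun ν => S.ch ν false ∈ S.B ∧ S.ch ν true ∈ S.B).card := by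
    simp only [card_filter]
    rw [card_eq_sum_ones, ← sum_add_distrib, ← sum_add_distrib, ← sum_add_distrib]
    apply sum_congr rfl
    intro ν _
    by_cases a : S.ch ν false ∈ S.B <;> by_cases b : S.ch ν true ∈ S.B <;> simp [a, b]
  omega

open Classical in
theorem ends_le : (S.B.filter fun ε => ¬ S.Cont ε).card ≤
    2 * Fintype.card V + 4 * S.Gs.card := by
  set L := S.B.filter fun ν => S.ch ν false ∉ S.B ∧ S.ch ν true ∉ S.B with hL
  have hsub : (S.B.filter fun ε => ¬ S.Cont ε) ⊆ L ∪ ((S.B.filter fun ν => ¬ ∃ μ, S.LN μ ν) ∪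
      ((S.B.filter fun ν => ∃ μ ∈ L, S.LN μ ν) ∪ (S.B.filter fun ν => S.ch ν false ∉ S.B ∧
        S.ch ν true ∈ S.B ∧ ∃ μ, S.LN μ ν ∧ S.ch μ false ∈ S.B))) := by
    intro ε hε
    simp only [mem_filter, mem_union, hL] at hε ⊢
    obtain ⟨hε, hc⟩ := hε
    by_cases a : ∃ μ, S.LN μ ε
    swap
    · exact Or.inr (Or.inl ⟨hε, a⟩)
    obtain ⟨μ, hμ⟩ := a
    by_cases b1 : S.ch ε false ∈ S.B
    · by_cases c1 : S.ch μ false ∈ S.B
      · exact absurd ⟨μ, false, hμ, b1, c1, by simp⟩ hc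
      · by_cases c2 : S.ch μ true ∈ S.B
        · exact (S.no_cross hμ.1 hε hμ.2.1 hμ.2.2.1 c2 b1).elim
        · exact Or.inr (Or.inr (Or.inl ⟨hε, μ, ⟨hμ.1, c1, c2⟩, hμ⟩))
    · by_cases b2 : S.ch ε true ∈ S.B
      · by_cases c2 : S.ch μ true ∈ S.B
        · exact absurd ⟨μ, true, hμ, b2, c2, fun _ => b1⟩ hc
        · by_cases c1 : S.ch μ false ∈ S.B
          · exact Or.inr (Or.inr (Or.inr ⟨hε, b1, b2, μ, hμ, c1⟩))
          · exact Or.inr (Or.inr (Or.inl ⟨hε, μ, ⟨hμ.1, c1, c2⟩, hμ⟩))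
      · exact Or.inl ⟨hε, b1, b2⟩
  have h1 := S.leaves_le
  have h2 : (S.B.filter fun ν => ¬ ∃ μ, S.LN μ ν).card ≤ S.Gs.card := by
    apply S.card_le_Gs _ (filter_subset _ _)
    intro ν hν ν' hν' hg hk
    rw [mem_filter] at hν hν'
    exact hν'.2 (S.exists_LN hν.1 hg hk)
  have h3 : (S.B.filter fun ν => ∃ μ ∈ L, S.LN μ ν).card ≤ L.card := by
    have : ∀ ν ∈ S.B.filter fun ν => ∃ μ ∈ L, S.LN μ ν, ∃ μ ∈ L, S.LN μ ν :=
      fun ν hν => (mem_filter.mp hν).2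
    choose! φ hφ using this
    apply card_le_card_of_injOn φ (fun ν hν => (hφ ν hν).1)
    intro ν hν ν' hν' he
    exact S.LN_inj (mem_filter.mp hν).1 (mem_filter.mp hν').1 (hφ ν hν).2 (he ▸ (hφ ν' hν').2)
  have h4 : (S.B.filter fun ν => S.ch ν false ∉ S.B ∧
        S.ch ν true ∈ S.B ∧ ∃ μ, S.LN μ ν ∧ S.ch μ false ∈ S.B).card ≤ S.Gs.card := by
    apply S.card_le_Gs _ (filter_subset _ _)
    intro ν hν ν' hν' hg hk
    rw [mem_filter] at hν hν'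
    obtain ⟨μ, hμ, hμf⟩ := hν'.2.2.2
    rcases (hμ.2.2.2 ν hν.1 hg hk).eq_or_lt with he | hlt
    · obtain rfl := S.total ν hν.1 μ hμ.1 (hg.trans hμ.2.1.symm) he
      exact hν.2.1 hμf
    · exact S.no_cross hν.1 hμ.1 (hg.trans hμ.2.1.symm) hlt hν.2.2.1 hμf
  have := (card_le_card hsub).trans ((card_union_le _ _).trans (add_le_add le_rfl
    ((card_union_le _ _).trans (add_le_add le_rfl (card_union_le _ _)))))
  rw [← hL] at h1
  omega

theorem shed (ν : N) (hν : ν ∈ S.B) (w : V) (hw : w ∈ S.Str ν) :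
    ∃ ν' ∈ S.B, ∃ b, S.src ν' = S.src ν ∧ w ∈ S.Str (S.ch ν' b) ∧ S.ch ν' b ∉ S.B := by
  induction h : S.D - S.dep ν using Nat.strong_induction_on generalizing ν with
  | _ d ih =>
    obtain ⟨b, hb⟩ := S.cover ν hν w hw
    by_cases hc : S.ch ν b ∈ S.B
    · have hdep := S.dep_le _ hc
      rw [S.dep_ch] at hdep
      obtain ⟨ν', a1, b', a2, a3⟩ := ih (S.D - S.dep (S.ch ν b)) (by rw [S.dep_ch]; omega) _ hc hb rfl
      exact ⟨ν', a1, b', a2.trans (S.src_ch _ _), a3⟩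
    · exact ⟨ν, hν, b, rfl, hb, hc⟩

theorem count : Fintype.card V * Fintype.card V - Fintype.card V ≤
    4 * k * (2 * Fintype.card V + 4 * S.Gs.card) := by
  classical
  have hsub : (univ : Finset V).offDiag ⊆ S.LS ∪ S.mirror.LS := by
    rintro ⟨u, w⟩ hp
    simp only [mem_offDiag, mem_univ, true_and] at hp
    obtain ⟨ν, hν, b, a1, a2, a3⟩ := S.shed (S.root u) (S.root_mem u) w
      (by rw [S.Str_root]; simp [Ne.symm hp])
    rw [S.src_root] at a1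
    simp only [mem_union, LS, mem_filter, mem_univ, true_and]
    cases b
    · exact Or.inl ⟨ν, hν, a1, a2, a3⟩
    · exact Or.inr ⟨ν, hν, a1, a2, a3⟩
  have h1 := (card_le_card hsub).trans (card_union_le _ _)
  rw [offDiag_card, card_univ] at h1
  have h2 := S.LS_card_le.trans (Nat.mul_le_mul_left _ S.ends_le)
  have h3 := S.mirror.LS_card_le.trans (Nat.mul_le_mul_left _ S.mirror.ends_le)
  have h4 : S.mirror.Gs = S.Gs := rfl
  rw [h4] at h3
  nlinarith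

end Sys

end Pool.Agent.Lib.MP_a0d8b4_co
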